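import Pool.Agent.Lib.MP_689e73_mp.Coul

open MeasureTheory Filter Topology Set Metric Real
open scoped ENNReal NNReal

namespace Pool.Agent.Lib.MP_689e73_mp

noncomputable section

lemma polar {f : ℝ × ℝ → ℝ≥0∞} (hf : Measurable f) :
    ∫⁻ p, f p = ∫⁻ r in Ioi (0 : ℝ), ∫⁻ θ in Ioo (-π) π,
      ENNReal.ofReal r * f (r * cos θ, r * sin θ) := by
  rw [← lintegral_comp_polarCoord_symm]
  have hm : Measurable (fun p : ℝ × ℝ => ENNReal.ofReal p.1 * f (p.1 * cos p.2, p.1 * sin p.2)) :=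
    measurable_fst.ennreal_ofReal.mul (hf.comp ((measurable_fst.mul measurable_snd.cos).prodMk
      (measurable_fst.mul measurable_snd.sin)))
  rw [← lintegral_prod _ hm.aemeasurable, Measure.prod_restrict, ← Measure.volume_eq_prod]
  rfl

lemma mp_coords : MeasurePreserving (fun y : E3 => (y 0, (y 1, y 2))) volume volume :=
  ((MeasurePreserving.id (volume : Measure ℝ)).prod (volume_preserving_finTwoArrow ℝ)).comp
    ((volume_preserving_piFinSuccAbove (fun _ : Fin 3 => ℝ) 0).comp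
      (PiLp.volume_preserving_ofLp (Fin 3)))

lemma norm_coords (y : E3) : ‖y‖ = √(y 0 ^ 2 + (y 1 ^ 2 + y 2 ^ 2)) := by
  rw [EuclideanSpace.norm_eq, Fin.sum_univ_three]
  simp only [Real.norm_eq_abs, sq_abs]
  rw [add_assoc]

lemma spherical {G : ℝ × ℝ → ℝ≥0∞} (hG : Measurable G) :
    ∫⁻ y : E3, G (y 0, ‖y‖) = ∫⁻ r in Ioi (0 : ℝ), ∫⁻ θ in Ioo (-π) π,
      ENNReal.ofReal r * (ENNReal.ofReal (2 * π) * (ENNReal.ofReal (r * sin θ) *
        G (r * cos θ, r))) := by
  have m1 : Measurable (fun p : ℝ × (ℝ × ℝ) => G (p.1, √(p.1 ^ 2 + (p.2.1 ^ 2 + p.2.2 ^ 2)))) :=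
    hG.comp (measurable_fst.prodMk ((measurable_fst.pow_const 2).add
      ((measurable_snd.fst.pow_const 2).add (measurable_snd.snd.pow_const 2))).sqrt)
  have m2 : Measurable (fun p : ℝ × ℝ => ENNReal.ofReal (2 * π) * (ENNReal.ofReal p.2 *
      G (p.1, √(p.1 ^ 2 + p.2 ^ 2)))) :=
    measurable_const.mul (measurable_snd.ennreal_ofReal.mul (hG.comp (measurable_fst.prodMk
      ((measurable_fst.pow_const 2).add (measurable_snd.pow_const 2)).sqrt)))
  have s1 : ∫⁻ y : E3, G (y 0, ‖y‖) =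
      ∫⁻ p : ℝ × (ℝ × ℝ), G (p.1, √(p.1 ^ 2 + (p.2.1 ^ 2 + p.2.2 ^ 2))) := by
    rw [← mp_coords.lintegral_comp m1]
    simp only [norm_coords]
  have s2 : ∀ t : ℝ, ∫⁻ q : ℝ × ℝ, G (t, √(t ^ 2 + (q.1 ^ 2 + q.2 ^ 2))) =
      ∫⁻ u : ℝ, ENNReal.ofReal (2 * π) * (ENNReal.ofReal u * G (t, √(t ^ 2 + u ^ 2))) := by
    intro t
    have m3 : Measurable (fun q : ℝ × ℝ => G (t, √(t ^ 2 + (q.1 ^ 2 + q.2 ^ 2)))) :=
      m1.comp (measurable_const.prodMk measurable_id)
    rw [polar m3]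
    have e : ∀ r θ : ℝ, (r * cos θ) ^ 2 + (r * sin θ) ^ 2 = r ^ 2 := fun r θ => by
      nlinarith [sin_sq_add_cos_sq θ]
    simp only [e, lintegral_const, Measure.restrict_apply MeasurableSet.univ, univ_inter,
      Real.volume_Ioo]
    rw [← lintegral_indicator measurableSet_Ioi]
    refine lintegral_congr fun u => ?_
    by_cases hu : u ∈ Ioi (0 : ℝ)
    · rw [indicator_of_mem hu, mul_comm, show π - -π = 2 * π by ring]
    · rw [indicator_of_notMem hu, ENNReal.ofReal_of_nonpos (not_lt.1 hu)]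
      simp
  rw [s1, Measure.volume_eq_prod, lintegral_prod _ m1.aemeasurable]
  simp only [s2]
  rw [← lintegral_prod _ m2.aemeasurable, ← Measure.volume_eq_prod, polar m2]
  refine setLIntegral_congr_fun measurableSet_Ioi fun r hr => ?_
  refine lintegral_congr fun θ => ?_
  have e : (r * cos θ) ^ 2 + (r * sin θ) ^ 2 = r ^ 2 := by nlinarith [sin_sq_add_cos_sq θ]
  simp only [e]
  rw [Real.sqrt_sq (le_of_lt hr)]

lemma angular {s r : ℝ} (hs : 0 < s) (hr : 0 < r) (hne : r ≠ s) :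
    ∫⁻ θ in Ioo (-π) π, ENNReal.ofReal (sin θ * (√(s ^ 2 + r ^ 2 - 2 * s * (r * cos θ)))⁻¹) =
      ENNReal.ofReal (2 / max s r) := by
  have hpos : ∀ θ : ℝ, 0 < s ^ 2 + r ^ 2 - 2 * s * (r * cos θ) := fun θ => by
    have h1 : 0 < (r - s) ^ 2 := sq_pos_of_ne_zero (sub_ne_zero.2 hne)
    have h2 := mul_le_mul_of_nonneg_left (cos_le_one θ) (show 0 ≤ 2 * s * r by positivity)
    nlinarith
  have hc : Continuous (fun θ : ℝ => sin θ * (√(s ^ 2 + r ^ 2 - 2 * s * (r * cos θ)))⁻¹) :=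
    continuous_sin.mul (((continuous_const.sub (continuous_const.mul
      (continuous_const.mul continuous_cos))).sqrt).inv₀ fun θ => (Real.sqrt_pos.2 (hpos θ)).ne')
  have hu : Ioo (-π) π = Ioc (-π) 0 ∪ Ioo 0 π :=
    (Ioc_union_Ioo_eq_Ioo (by linarith [pi_pos]) pi_pos).symm
  rw [hu, lintegral_union measurableSet_Ioo (by
    rw [Set.disjoint_left]; intro a h1 h2; exact absurd h2.1 (not_lt.2 h1.2))]
  have z : ∫⁻ θ in Ioc (-π) 0,
      ENNReal.ofReal (sin θ * (√(s ^ 2 + r ^ 2 - 2 * s * (r * cos θ)))⁻¹) = 0 := by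
    rw [setLIntegral_congr_fun measurableSet_Ioc (g := fun _ => 0) fun θ hθ =>
      ENNReal.ofReal_of_nonpos (mul_nonpos_of_nonpos_of_nonneg
        (sin_nonpos_of_nonpos_of_neg_pi_le hθ.2 hθ.1.le) (by positivity))]
    simp
  rw [z, zero_add, ← ofReal_integral_eq_lintegral_ofReal
    ((hc.integrableOn_Icc (a := 0) (b := π)).mono_set Ioo_subset_Icc_self)
    ((ae_restrict_iff' measurableSet_Ioo).2 (Eventually.of_forall fun θ hθ =>
      mul_nonneg (sin_nonneg_of_nonneg_of_le_pi hθ.1.le hθ.2.le) (by positivity))),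
    ← integral_Ioc_eq_integral_Ioo, ← intervalIntegral.integral_of_le pi_pos.le]
  congr 1
  have hd : ∀ θ ∈ uIcc 0 π, HasDerivAt
      (fun θ : ℝ => (s * r)⁻¹ * √(s ^ 2 + r ^ 2 - 2 * s * (r * cos θ)))
      (sin θ * (√(s ^ 2 + r ^ 2 - 2 * s * (r * cos θ)))⁻¹) θ := by
    intro θ _
    have h1 := (((((hasDerivAt_cos θ).const_mul r).const_mul (2 * s)).const_sub
      (s ^ 2 + r ^ 2)).sqrt (hpos θ).ne').const_mul (s * r)⁻¹
    refine h1.congr_deriv ?_
    have := Real.sqrt_pos.2 (hpos θ)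
    field_simp
  rw [intervalIntegral.integral_eq_sub_of_hasDerivAt hd (hc.intervalIntegrable _ _), cos_pi,
    cos_zero, show s ^ 2 + r ^ 2 - 2 * s * (r * -1) = (s + r) ^ 2 by ring,
    show s ^ 2 + r ^ 2 - 2 * s * (r * 1) = (s - r) ^ 2 by ring, Real.sqrt_sq_eq_abs,
    Real.sqrt_sq_eq_abs, abs_of_pos (by positivity)]
  rcases le_total s r with h | h
  · rw [max_eq_right h, abs_of_nonpos (by linarith)]; field_simp; ring
  · rw [max_eq_left h, abs_of_nonneg (by linarith)]; field_simp; ring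

lemma radial_int {s : ℝ} (hs : 0 < s) (h1 : s < 1) :
    ∫ r in (0 : ℝ)..1, 4 * π * (r ^ (1 / 2 : ℝ) / max s r) =
      8 * π - 16 * π / 3 * s ^ (1 / 2 : ℝ) := by
  have hc : Continuous (fun r : ℝ => r ^ (1 / 2 : ℝ) / max s r) :=
    (continuous_id.rpow_const fun _ => Or.inr (by norm_num)).div
      (continuous_const.max continuous_id) fun r => (hs.trans_le (le_max_left _ _)).ne'
  rw [intervalIntegral.integral_const_mul, ← intervalIntegral.integral_add_adjacent_intervals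
    (b := s) (hc.intervalIntegrable _ _) (hc.intervalIntegrable _ _)]
  have a1 : ∫ r in (0 : ℝ)..s, r ^ (1 / 2 : ℝ) / max s r = ∫ r in (0 : ℝ)..s, r ^ (1 / 2 : ℝ) / s := by
    refine intervalIntegral.integral_congr fun r hr => ?_
    rw [uIcc_of_le hs.le] at hr
    simp only [max_eq_left hr.2]
  have a2 : ∫ r in s..1, r ^ (1 / 2 : ℝ) / max s r = ∫ r in s..1, r ^ (-(1 / 2) : ℝ) := by
    refine intervalIntegral.integral_congr fun r hr => ?_
    rw [uIcc_of_le h1.le] at hr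
    have hr0 : 0 < r := hs.trans_le hr.1
    simp only [max_eq_right hr.1]
    rw [show (-(1 / 2) : ℝ) = 1 / 2 - 1 by norm_num, Real.rpow_sub hr0, Real.rpow_one]
  rw [a1, a2, intervalIntegral.integral_div, integral_rpow (Or.inl (by norm_num)),
    integral_rpow (Or.inl (by norm_num)), Real.zero_rpow (by norm_num), Real.one_rpow,
    Real.rpow_add hs, Real.rpow_one, show (-(1 / 2) + 1 : ℝ) = 1 / 2 by norm_num]
  field_simp
  ring

/-- The radial profile of the leading singularity. -/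
def prof (r : ℝ) : ℝ := indicator (Iio (1 : ℝ)) (fun r => r ^ (-(3 / 2) : ℝ)) r

lemma measurable_prof : Measurable prof :=
  (measurable_id.pow_const _).indicator measurableSet_Iio

lemma prof_nonneg {r : ℝ} (hr : 0 ≤ r) : 0 ≤ prof r := by
  unfold prof
  by_cases h : r ∈ Iio (1 : ℝ)
  · rw [indicator_of_mem h]; positivity
  · rw [indicator_of_notMem h]

lemma prof_norm (y : E3) :
    prof ‖y‖ = indicator (ball (0 : E3) 1) (fun y => ‖y‖ ^ (-(3 / 2) : ℝ)) y := by
  unfold prof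
  by_cases h : ‖y‖ < 1
  · rw [indicator_of_mem (show ‖y‖ ∈ Iio (1 : ℝ) from h), indicator_of_mem (mem_ball_zero_iff.2 h)]
  · rw [indicator_of_notMem (show ‖y‖ ∉ Iio (1 : ℝ) from h),
      indicator_of_notMem (fun h' => h (mem_ball_zero_iff.1 h'))]

lemma LL_prof (c : E3) : LL (fun y => prof ‖y - c‖) := by
  have hm : Measurable (fun y : E3 => prof ‖y - c‖) :=
    measurable_prof.comp (measurable_id.sub measurable_const).norm
  have h1 : Integrable (fun y : E3 => prof ‖y‖) := by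
    simp only [prof_norm]
    exact (integrable_indicator_iff measurableSet_ball).2 (integrableOn_rpow_ball (by norm_num) 1)
  refine ⟨hm, h1.comp_sub_right c, (memLp_iff hm.aestronglyMeasurable).2 ?_⟩
  refine (integrable_bM_sub 1 c).congr (Eventually.of_forall fun y => ?_)
  simp only [prof_norm, bM]
  by_cases h : y - c ∈ ball (0 : E3) 1
  · rw [indicator_of_mem h, indicator_of_mem h, abs_of_nonneg (by positivity),
      ← Real.rpow_mul (norm_nonneg _)]
    norm_num
  · rw [indicator_of_notMem h, indicator_of_notMem h]; simp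

lemma norm_e0_sub (s : ℝ) (y : E3) : ‖s • e0 - y‖ = √(s ^ 2 + ‖y‖ ^ 2 - 2 * s * y 0) := by
  have h : ‖y‖ ^ 2 = y 0 ^ 2 + (y 1 ^ 2 + y 2 ^ 2) := by
    rw [norm_coords, Real.sq_sqrt (by positivity)]
  rw [norm_coords, h]
  congr 1
  simp [e0]
  ring

lemma newton_axis {s : ℝ} (hs : 0 < s) (h1 : s < 1) :
    psi (fun y => prof ‖y‖) (s • e0) = 8 * π - 16 * π / 3 * s ^ (1 / 2 : ℝ) := by
  have hl : LL (fun y : E3 => prof ‖y‖) := by simpa using LL_prof 0
  have hn : ∀ y : E3, 0 ≤ prof ‖y‖ := fun y => prof_nonneg (norm_nonneg y)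
  have hc : Continuous (fun r : ℝ => 4 * π * (r ^ (1 / 2 : ℝ) / max s r)) :=
    continuous_const.mul ((continuous_id.rpow_const fun _ => Or.inr (by norm_num)).div
      (continuous_const.max continuous_id) fun r => (hs.trans_le (le_max_left _ _)).ne')
  have hnn : ∀ r ∈ Ioo (0 : ℝ) 1, 0 ≤ 4 * π * (r ^ (1 / 2 : ℝ) / max s r) := fun r hr => by
    have := hr.1.le
    have := pi_pos
    have : 0 < max s r := hs.trans_le (le_max_left _ _)
    positivity
  rw [← radial_int hs h1, intervalIntegral.integral_of_le zero_le_one,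
    integral_Ioc_eq_integral_Ioo, ← ENNReal.ofReal_eq_ofReal_iff (psi_nonneg hn _)
      (setIntegral_nonneg measurableSet_Ioo hnn), ofReal_integral_eq_lintegral_ofReal
      ((hc.integrableOn_Icc (a := 0) (b := 1)).mono_set Ioo_subset_Icc_self)
      ((ae_restrict_iff' measurableSet_Ioo).2 (Eventually.of_forall hnn))]
  unfold psi
  rw [ofReal_integral_eq_lintegral_ofReal (hl.psi_int _)
    (Eventually.of_forall fun y => mul_nonneg (inv_nonneg.2 (norm_nonneg _)) (hn y))]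
  have hG : Measurable (fun p : ℝ × ℝ =>
      ENNReal.ofReal ((√(s ^ 2 + p.2 ^ 2 - 2 * s * p.1))⁻¹ * prof p.2)) :=
    (((measurable_const.add (measurable_snd.pow_const 2)).sub
      (measurable_fst.const_mul _)).sqrt.inv.mul (measurable_prof.comp measurable_snd)).ennreal_ofReal
  have := spherical hG
  simp only [norm_e0_sub]
  rw [this, ← lintegral_indicator measurableSet_Ioi, ← lintegral_indicator measurableSet_Ioo]
  refine lintegral_congr_ae ?_
  have hae : ∀ᵐ r : ℝ, r ≠ s := compl_mem_ae_iff.2 (measure_singleton s)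
  filter_upwards [hae] with r hr
  by_cases h0 : r ∈ Ioi (0 : ℝ)
  · have hr0 : 0 < r := h0
    have hp := prof_nonneg hr0.le
    have e : ∀ θ : ℝ, ENNReal.ofReal r * (ENNReal.ofReal (2 * π) * (ENNReal.ofReal (r * sin θ) *
        ENNReal.ofReal ((√(s ^ 2 + r ^ 2 - 2 * s * (r * cos θ)))⁻¹ * prof r))) =
        ENNReal.ofReal (r * (2 * π) * (r * prof r)) *
          ENNReal.ofReal (sin θ * (√(s ^ 2 + r ^ 2 - 2 * s * (r * cos θ)))⁻¹) := by
      intro θ
      have := pi_pos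
      rw [← ENNReal.ofReal_mul' (by positivity), ← ENNReal.ofReal_mul (by positivity),
        ← ENNReal.ofReal_mul (by positivity), ← ENNReal.ofReal_mul (by positivity)]
      congr 1; ring
    rw [indicator_of_mem h0]
    simp only [e]
    rw [lintegral_const_mul' _ _ ENNReal.ofReal_ne_top, angular hs hr0 hr,
      ← ENNReal.ofReal_mul (by have := pi_pos; positivity)]
    by_cases h2 : r < 1
    · rw [indicator_of_mem (show r ∈ Ioo (0 : ℝ) 1 from ⟨hr0, h2⟩)]
      unfold prof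
      rw [indicator_of_mem (show r ∈ Iio (1 : ℝ) from h2)]
      congr 1
      rw [show (1 / 2 : ℝ) = -(3 / 2) + 1 + 1 by norm_num, Real.rpow_add hr0, Real.rpow_add hr0,
        Real.rpow_one]
      ring
    · rw [indicator_of_notMem (fun h : r ∈ Ioo (0 : ℝ) 1 => h2 h.2)]
      unfold prof
      rw [indicator_of_notMem (show r ∉ Iio (1 : ℝ) from h2)]
      simp
  · rw [indicator_of_notMem h0, indicator_of_notMem (fun h : r ∈ Ioo (0 : ℝ) 1 => h0 h.1)]

theorem newton (c x : E3) (h0 : x ≠ c) (h1 : ‖x - c‖ < 1) :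
    psi (fun y => prof ‖y - c‖) x = 8 * π - 16 * π / 3 * ‖x - c‖ ^ (1 / 2 : ℝ) := by
  rw [← newton_axis (norm_pos_iff.2 (sub_ne_zero.2 h0)) h1]
  obtain ⟨Q, hQ⟩ := exists_iso (x - c)
  unfold psi
  have e1 := integral_sub_right_eq_self (μ := (volume : Measure E3))
    (fun y => ‖x - c - y‖⁻¹ * prof ‖y‖) c
  simp only [sub_sub_sub_cancel_right] at e1
  rw [e1, ← Q.measurePreserving.integral_comp Q.toHomeomorph.measurableEmbedding]
  congr 1; ext y
  rw [Q.norm_map]
  nth_rewrite 1 [← hQ]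
  rw [← map_sub, Q.norm_map]

end

end Pool.Agent.Lib.MP_689e73_mp
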