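import Pool.Agent.Lib.MP_689e73_mp.Kernel

open MeasureTheory Filter Topology Set Metric
open scoped ENNReal NNReal

namespace Pool.Agent.Lib.MP_689e73_mp

noncomputable section

def DD (ρ σ : E3 → ℝ) : ℝ := ∫ x, ρ x * psi σ x

lemma LL.psi_bdd {σ : E3 → ℝ} (h : LL σ) : ∃ C : ℝ, ∀ x, psi (fun y => |σ y|) x ≤ C :=
  ⟨_, fun x => h.psi_abs_le one_pos one_pos x⟩

lemma LL.int_mul_psi {ρ σ : E3 → ℝ} (hρ : Integrable ρ) (h : LL σ) :
    Integrable (fun x => ρ x * psi σ x) := by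
  obtain ⟨C, hC⟩ := h.psi_bdd
  refine Integrable.mono' (hρ.abs.const_mul C)
    (hρ.aestronglyMeasurable.mul h.continuous_psi.aestronglyMeasurable)
    (Eventually.of_forall fun x => ?_)
  rw [norm_mul, Real.norm_eq_abs, Real.norm_eq_abs, mul_comm]
  exact mul_le_mul_of_nonneg_right ((abs_psi_le_psi_abs σ x).trans (hC x)) (abs_nonneg _)

lemma LL.HD {ρ σ : E3 → ℝ} (hρ : LL ρ) (h : LL σ) : HI (fun x => ρ x * psi σ x) (DD ρ σ) :=
  HI.of (LL.int_mul_psi hρ.int h)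

lemma measurable_ker2 : Measurable (fun p : E3 × E3 => ‖p.1 - p.2‖⁻¹) :=
  (measurable_fst.sub measurable_snd).norm.inv

lemma LL.int_prod {ρ σ : E3 → ℝ} (hρ : LL ρ) (h : LL σ) :
    Integrable (fun p : E3 × E3 => ρ p.1 * (‖p.1 - p.2‖⁻¹ * σ p.2)) (volume.prod volume) := by
  have hm : Measurable (fun p : E3 × E3 => ρ p.1 * (‖p.1 - p.2‖⁻¹ * σ p.2)) :=
    (hρ.meas.comp measurable_fst).mul (measurable_ker2.mul (h.meas.comp measurable_snd))
  rw [integrable_prod_iff hm.aestronglyMeasurable]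
  refine ⟨Eventually.of_forall fun x => (h.psi_int x).const_mul (ρ x), ?_⟩
  refine (LL.int_mul_psi hρ.int.abs h.abs).congr (Eventually.of_forall fun x => ?_)
  simp only [psi]
  rw [← integral_const_mul]
  congr 1; ext y
  rw [norm_mul, norm_mul, Real.norm_eq_abs, Real.norm_eq_abs, Real.norm_eq_abs,
    abs_of_nonneg (inv_nonneg.2 (norm_nonneg _))]

lemma DD_symm {ρ σ : E3 → ℝ} (hρ : LL ρ) (h : LL σ) : DD ρ σ = DD σ ρ := by
  have := integral_integral_swap (f := fun x y : E3 => ρ x * (‖x - y‖⁻¹ * σ y)) (hρ.int_prod h)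
  unfold DD psi
  simp only [← integral_const_mul]
  rw [this]
  congr 1; ext y; congr 1; ext x
  rw [norm_sub_rev]; ring

lemma coulomb_eq (ρ : E3 → ℝ) : coulomb ρ = DD ρ ρ := by
  unfold coulomb DD psi
  congr 1; ext x
  rw [← integral_const_mul]
  congr 1; ext y; ring

/-! Positivity of the Coulomb form. -/

def aa (v : E3) : ℝ≥0∞ := ENNReal.ofReal (‖v‖ ^ 2)⁻¹

lemma measurable_aa : Measurable aa :=
  ((measurable_norm.pow_const 2).inv).ennreal_ofReal

def II (v : E3) : ℝ≥0∞ := ∫⁻ w, aa w * aa (w - v)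

lemma II_iso (Q : E3 ≃ₗᵢ[ℝ] E3) (v : E3) : II (Q v) = II v := by
  unfold II
  have hm : Measurable (fun w : E3 => aa w * aa (w - Q v)) :=
    measurable_aa.mul (measurable_aa.comp (measurable_id.sub measurable_const))
  rw [← Q.measurePreserving.lintegral_comp hm]
  congr 1; ext w
  unfold aa
  rw [← map_sub, Q.norm_map, Q.norm_map]

lemma II_smul {r : ℝ} (hr : 0 < r) (v : E3) : II (r • v) = ENNReal.ofReal r⁻¹ * II v := by
  unfold II
  have hm : Measurable (fun w : E3 => aa w * aa (w - r • v)) :=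
    measurable_aa.mul (measurable_aa.comp (measurable_id.sub measurable_const))
  have h1 := Measure.map_addHaar_smul (volume : Measure E3) hr.ne'
  have h2 := lintegral_map (μ := volume) hm (measurable_const_smul r)
  rw [h1, lintegral_smul_measure, finrank_E3] at h2
  have h3 : ∀ w : E3, aa (r • w) * aa (r • w - r • v) =
      ENNReal.ofReal (r ^ 4)⁻¹ * (aa w * aa (w - v)) := by
    intro w
    unfold aa
    rw [← smul_sub, norm_smul, norm_smul, Real.norm_of_nonneg hr.le,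
      ← ENNReal.ofReal_mul (by positivity), ← ENNReal.ofReal_mul (by positivity),
      ← ENNReal.ofReal_mul (by positivity)]
    congr 1
    rw [mul_pow, mul_pow, mul_inv, mul_inv]
    field_simp
  simp only [h3] at h2
  rw [lintegral_const_mul' _ _ ENNReal.ofReal_ne_top, smul_eq_mul] at h2
  have h4 : ENNReal.ofReal (r ^ 3) * ENNReal.ofReal |(r ^ 3)⁻¹| = 1 := by
    rw [← ENNReal.ofReal_mul (by positivity), abs_of_pos (by positivity), mul_inv_cancel₀
      (by positivity), ENNReal.ofReal_one]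
  have h5 : ENNReal.ofReal (r ^ 3) * ENNReal.ofReal (r ^ 4)⁻¹ = ENNReal.ofReal r⁻¹ := by
    rw [← ENNReal.ofReal_mul (by positivity)]
    congr 1; field_simp
  calc ∫⁻ w, aa w * aa (w - r • v)
      = (ENNReal.ofReal (r ^ 3) * ENNReal.ofReal |(r ^ 3)⁻¹|) * ∫⁻ w, aa w * aa (w - r • v) := by
        rw [h4, one_mul]
    _ = _ := by rw [mul_assoc, h2, ← mul_assoc, h5]

def e0 : E3 := EuclideanSpace.single 0 1

lemma norm_e0 : ‖e0‖ = 1 := by simp [e0]

lemma exists_iso (v : E3) : ∃ Q : E3 ≃ₗᵢ[ℝ] E3, Q (‖v‖ • e0) = v := by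
  refine ⟨Submodule.reflection (ℝ ∙ (‖v‖ • e0 - v))ᗮ, Submodule.reflection_sub ?_⟩
  rw [norm_smul, norm_e0, norm_norm, mul_one]

lemma II_eq {v : E3} (hv : v ≠ 0) : II v = ENNReal.ofReal ‖v‖⁻¹ * II e0 := by
  obtain ⟨Q, hQ⟩ := exists_iso v
  rw [← II_smul (norm_pos_iff.2 hv), ← II_iso Q (‖v‖ • e0), hQ]

lemma inv_sq_le_kap {w : E3} {t : ℝ} (h1 : ‖w‖ ≤ t) (h2 : 1 / 2 ≤ t) :
    (‖w‖ ^ 2)⁻¹ * (t ^ 2)⁻¹ ≤ 9 * kap w := by
  rcases eq_or_ne w 0 with hw | hw
  · subst hw; simp [kap_nonneg]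
  have hp : 0 < ‖w‖ := norm_pos_iff.2 hw
  set r := ‖w‖ with hr
  have e : r ^ (-(5 / 2) : ℝ) = (r ^ 2)⁻¹ * (√r)⁻¹ := by
    rw [Real.sqrt_eq_rpow, ← Real.rpow_natCast, ← Real.rpow_neg hp.le, ← Real.rpow_neg hp.le,
      ← Real.rpow_add hp]
    norm_num
  unfold kap
  rw [← hr, e]
  have hs : 0 < √r := Real.sqrt_pos.2 hp
  have hs2 : √r ≤ 1 + r := by
    rw [Real.sqrt_le_left (by linarith)]; nlinarith
  have ht : 0 < t := by linarith
  have key : (t ^ 2)⁻¹ ≤ 9 * ((√r)⁻¹ * (1 + r)⁻¹) := by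
    rw [← mul_inv, ← div_eq_mul_inv, inv_eq_one_div, div_le_div_iff₀ (by positivity)
      (by positivity)]
    have : 1 + r ≤ 3 * t := by linarith
    nlinarith
  calc (r ^ 2)⁻¹ * (t ^ 2)⁻¹ ≤ (r ^ 2)⁻¹ * (9 * ((√r)⁻¹ * (1 + r)⁻¹)) :=
        mul_le_mul_of_nonneg_left key (by positivity)
    _ = _ := by ring

lemma II_lt_top : II e0 < ⊤ := by
  have hi : Integrable (fun w : E3 => 9 * kap w + 9 * kap (w - e0)) :=
    (integrable_kap.const_mul 9).add ((integrable_kap.comp_sub_right e0).const_mul 9)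
  refine lt_of_le_of_lt ?_ hi.lintegral_lt_top
  unfold II
  refine lintegral_mono fun w => ?_
  unfold aa
  rw [← ENNReal.ofReal_mul (by positivity)]
  refine ENNReal.ofReal_le_ofReal ?_
  have ht : 1 ≤ ‖w‖ + ‖w - e0‖ := by
    have : e0 = w - (w - e0) := by abel
    rw [← norm_e0]; nth_rewrite 1 [this]; exact norm_sub_le _ _
  have k1 := kap_nonneg w
  have k2 := kap_nonneg (w - e0)
  rcases le_total ‖w‖ ‖w - e0‖ with h | h
  · have := inv_sq_le_kap h (by linarith)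
    linarith
  · have := inv_sq_le_kap h (by linarith)
    rw [mul_comm] at this
    linarith

lemma II_pos : II e0 ≠ 0 := by
  unfold II
  intro h
  have hm : Measurable (fun w : E3 => aa w * aa (w - e0)) :=
    measurable_aa.mul (measurable_aa.comp (measurable_id.sub measurable_const))
  rw [lintegral_eq_zero_iff hm] at h
  have : ∀ᵐ w : E3, False := by
    filter_upwards [h, ae_ne 0, ae_ne e0] with w hw h0 h1
    have p0 : 0 < ‖w‖ := norm_pos_iff.2 h0
    have p1 : 0 < ‖w - e0‖ := norm_pos_iff.2 (sub_ne_zero.2 h1)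
    simp only [aa, Pi.zero_apply, mul_eq_zero, ENNReal.ofReal_eq_zero] at hw
    rcases hw with hw | hw
    · exact absurd hw (not_le.2 (by positivity))
    · exact absurd hw (not_le.2 (by positivity))
  rw [eventually_false_iff_eq_bot, ae_eq_bot] at this
  exact (NeZero.ne (volume : Measure E3)) this

def LD (ρ σ : E3 → ℝ) : ℝ≥0∞ :=
  ∫⁻ x, ∫⁻ y, ENNReal.ofReal (ρ x) * (ENNReal.ofReal ‖x - y‖⁻¹ * ENNReal.ofReal (σ y))

def TT (ρ : E3 → ℝ) (w : E3) : ℝ≥0∞ := ∫⁻ x, ENNReal.ofReal (ρ x) * aa (w - x)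

lemma measurable_TT {ρ : E3 → ℝ} (hρ : Measurable ρ) : Measurable (TT ρ) := by
  unfold TT
  refine Measurable.lintegral_prod_right' (f := fun p : E3 × E3 =>
    ENNReal.ofReal (ρ p.2) * aa (p.1 - p.2)) ?_
  exact ((hρ.comp measurable_snd).ennreal_ofReal).mul
    (measurable_aa.comp (measurable_fst.sub measurable_snd))

lemma TT_mul {ρ σ : E3 → ℝ} (hρ : Measurable ρ) (hσ : Measurable σ) :
    ∫⁻ w, TT ρ w * TT σ w = II e0 * LD ρ σ := by
  have m1 : Measurable (fun p : E3 × E3 => ENNReal.ofReal (ρ p.2) * aa (p.1 - p.2)) :=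
    ((hρ.comp measurable_snd).ennreal_ofReal).mul
      (measurable_aa.comp (measurable_fst.sub measurable_snd))
  have m2 : Measurable (fun p : E3 × E3 => ENNReal.ofReal (σ p.2) * aa (p.1 - p.2)) :=
    ((hσ.comp measurable_snd).ennreal_ofReal).mul
      (measurable_aa.comp (measurable_fst.sub measurable_snd))
  have hT := measurable_TT hσ
  have s1 : ∀ w, TT ρ w * TT σ w = ∫⁻ x, (ENNReal.ofReal (ρ x) * aa (w - x)) * TT σ w := by
    intro w
    have hm : Measurable (fun x => ENNReal.ofReal (ρ x) * aa (w - x)) :=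
      m1.comp (measurable_const.prodMk measurable_id)
    rw [lintegral_mul_const _ hm]; rfl
  simp only [s1]
  rw [lintegral_lintegral_swap ((m1.mul (hT.comp measurable_fst)).aemeasurable)]
  unfold LD
  rw [← lintegral_const_mul' _ _ II_lt_top.ne]
  refine lintegral_congr fun x => ?_
  have s2 : ∀ w, ENNReal.ofReal (ρ x) * aa (w - x) * TT σ w =
      ∫⁻ y, (ENNReal.ofReal (ρ x) * aa (w - x)) * (ENNReal.ofReal (σ y) * aa (w - y)) := by
    intro w
    have hm : Measurable (fun y => ENNReal.ofReal (σ y) * aa (w - y)) :=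
      m2.comp (measurable_const.prodMk measurable_id)
    rw [lintegral_const_mul _ hm]; rfl
  simp only [s2]
  have m3 : Measurable (fun p : E3 × E3 => (ENNReal.ofReal (ρ x) * aa (p.1 - x)) *
      (ENNReal.ofReal (σ p.2) * aa (p.1 - p.2))) :=
    (measurable_const.mul (measurable_aa.comp (measurable_fst.sub measurable_const))).mul m2
  rw [lintegral_lintegral_swap m3.aemeasurable, ← lintegral_const_mul' _ _ II_lt_top.ne]
  refine lintegral_congr_ae ?_
  filter_upwards [ae_ne x] with y hy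
  have s3 : ∀ w, (ENNReal.ofReal (ρ x) * aa (w - x)) * (ENNReal.ofReal (σ y) * aa (w - y)) =
      (ENNReal.ofReal (ρ x) * ENNReal.ofReal (σ y)) * (aa (w - x) * aa ((w - x) - (y - x))) := by
    intro w
    rw [sub_sub_sub_cancel_right]; ring
  simp only [s3]
  rw [lintegral_const_mul' _ _ (ENNReal.mul_ne_top ENNReal.ofReal_ne_top ENNReal.ofReal_ne_top),
    lintegral_sub_right_eq_self (fun w => aa w * aa (w - (y - x))) x]
  have := II_eq (sub_ne_zero.2 hy)
  unfold II at this ⊢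
  rw [this, norm_sub_rev y x]
  ring

lemma ennreal_amgm (a b : ℝ≥0∞) : 2 * (a * b) ≤ a * a + b * b := by
  rcases eq_or_ne a ⊤ with ha | ha
  · subst ha; simp
  rcases eq_or_ne b ⊤ with hb | hb
  · subst hb; simp
  lift a to ℝ≥0 using ha
  lift b to ℝ≥0 using hb
  have : (2 : ℝ≥0) * (a * b) ≤ a * a + b * b := by
    rw [← NNReal.coe_le_coe]; push_cast; nlinarith [sq_nonneg ((a : ℝ) - b)]
  exact_mod_cast this

lemma LD_amgm {ρ σ : E3 → ℝ} (hρ : Measurable ρ) (hσ : Measurable σ) :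
    2 * LD ρ σ ≤ LD ρ ρ + LD σ σ := by
  have h : ∫⁻ w, 2 * (TT ρ w * TT σ w) ≤ ∫⁻ w, (TT ρ w * TT ρ w + TT σ w * TT σ w) :=
    lintegral_mono fun w => ennreal_amgm _ _
  have hm : Measurable (fun w => TT ρ w * TT ρ w) := (measurable_TT hρ).mul (measurable_TT hρ)
  rw [lintegral_const_mul' _ _ (by norm_num), lintegral_add_left hm, TT_mul hρ hσ, TT_mul hρ hρ, TT_mul hσ hσ,
    ← mul_add, mul_left_comm] at h
  exact (ENNReal.mul_le_mul_iff_right II_pos II_lt_top.ne).1 h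

lemma LD_eq {ρ σ : E3 → ℝ} (hρ : LL ρ) (hσ : LL σ) (h0 : ∀ x, 0 ≤ ρ x) (h1 : ∀ x, 0 ≤ σ x) :
    LD ρ σ = ENNReal.ofReal (DD ρ σ) := by
  unfold LD DD
  rw [ofReal_integral_eq_lintegral_ofReal (LL.int_mul_psi hρ.int hσ)
    (Eventually.of_forall fun x => mul_nonneg (h0 x) (psi_nonneg h1 x))]
  refine lintegral_congr fun x => ?_
  rw [lintegral_const_mul' _ _ ENNReal.ofReal_ne_top, ENNReal.ofReal_mul (h0 x)]
  congr 1
  unfold psi
  rw [ofReal_integral_eq_lintegral_ofReal (hσ.psi_int x)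
    (Eventually.of_forall fun y => mul_nonneg (inv_nonneg.2 (norm_nonneg _)) (h1 y))]
  refine lintegral_congr fun y => ?_
  rw [ENNReal.ofReal_mul (inv_nonneg.2 (norm_nonneg _))]

lemma DD_nonneg {ρ σ : E3 → ℝ} (h0 : ∀ x, 0 ≤ ρ x) (h1 : ∀ x, 0 ≤ σ x) : 0 ≤ DD ρ σ :=
  integral_nonneg fun x => mul_nonneg (h0 x) (psi_nonneg h1 x)

theorem DD_amgm {ρ σ : E3 → ℝ} (hρ : LL ρ) (hσ : LL σ) (h0 : ∀ x, 0 ≤ ρ x)
    (h1 : ∀ x, 0 ≤ σ x) : 2 * DD ρ σ ≤ DD ρ ρ + DD σ σ := by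
  have h := LD_amgm hρ.meas hσ.meas
  rw [LD_eq hρ hσ h0 h1, LD_eq hρ hρ h0 h0, LD_eq hσ hσ h1 h1,
    ← ENNReal.ofReal_add (DD_nonneg h0 h0) (DD_nonneg h1 h1),
    show (2 : ℝ≥0∞) = ENNReal.ofReal 2 by simp,
    ← ENNReal.ofReal_mul (by norm_num)] at h
  exact (ENNReal.ofReal_le_ofReal_iff (add_nonneg (DD_nonneg h0 h0) (DD_nonneg h1 h1))).1 h

end

end Pool.Agent.Lib.MP_689e73_mp
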