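import Mathlib

open MeasureTheory Filter Topology Set

namespace Pool.Agent.Lib.MP_689e73_mp

noncomputable section

/-- Physical space. -/
abbrev E3 := EuclideanSpace ℝ (Fin 3)

/-- Configurations of pairwise distinct nuclear positions. -/
def Omega (k : ℕ) : Set (Fin k → E3) := {R | ∀ i j, i ≠ j → R i ≠ R j}

/-- The nuclear potential. -/
def Vnuc {k : ℕ} (z : Fin k → ℝ) (R : Fin k → E3) (x : E3) : ℝ := ∑ i, z i * ‖x - R i‖⁻¹

/-- The nuclear repulsion energy. -/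
def Unuc {k : ℕ} (z : Fin k → ℝ) (R : Fin k → E3) : ℝ :=
  ∑ i, ∑ j, if i < j then z i * z j * ‖R i - R j‖⁻¹ else 0

/-- Admissible densities of total mass `lam`. -/
def Admissible (lam : ℝ) (ρ : E3 → ℝ) : Prop :=
  (∀ᵐ x, 0 ≤ ρ x) ∧ MemLp ρ (5 / 3) ∧ Integrable ρ ∧ ∫ x, ρ x = lam

/-- The Coulomb double integral of a density. -/
def coulomb (ρ : E3 → ℝ) : ℝ := ∫ x, ∫ y, ρ x * ρ y * ‖x - y‖⁻¹

/-- The Thomas-Fermi functional. -/
def TF {k : ℕ} (γ : ℝ) (z : Fin k → ℝ) (R : Fin k → E3) (ρ : E3 → ℝ) : ℝ :=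
  3 / 5 * γ * (∫ x, ρ x ^ (5 / 3 : ℝ)) - (∫ x, Vnuc z R x * ρ x)
    + 1 / 2 * coulomb ρ + Unuc z R

/-- The Thomas-Fermi energy. -/
def energy {k : ℕ} (γ lam : ℝ) (z : Fin k → ℝ) (R : Fin k → E3) : ℝ :=
  sInf (TF γ z R '' {ρ | Admissible lam ρ})

/-- The electronic part of the energy. -/
def elec {k : ℕ} (γ lam : ℝ) (z : Fin k → ℝ) (R : Fin k → E3) : ℝ :=
  energy γ lam z R - Unuc z R

/-- Minimisers of the Thomas-Fermi functional among admissible densities. -/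
def IsMinimiser {k : ℕ} (γ lam : ℝ) (z : Fin k → ℝ) (R : Fin k → E3) (ρ : E3 → ℝ) : Prop :=
  Admissible lam ρ ∧ ∀ σ, Admissible lam σ → TF γ z R ρ ≤ TF γ z R σ

/-- The Coulomb potential of a density. -/
def psi (ρ : E3 → ℝ) (x : E3) : ℝ := ∫ y, ‖x - y‖⁻¹ * ρ y

/-- The integrand of the force integral. -/
def forceDensity (ρ : E3 → ℝ) (c x : E3) : E3 := (ρ x / ‖x - c‖ ^ 3) • (x - c)

/-- `F` is the principal value limit of the force integral at `c`. -/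
def IsPVForce (ρ : E3 → ℝ) (c F : E3) : Prop :=
  (∀ a : ℝ, 0 < a → IntegrableOn (forceDensity ρ c) {x | a < ‖x - c‖}) ∧
    Tendsto (fun a : ℝ => ∫ x in {x | a < ‖x - c‖}, forceDensity ρ c x) (𝓝[>] 0) (𝓝 F)

/-- The Coulomb potential with the radial square root term added. -/
def corrected (γ ζ : ℝ) (ρ : E3 → ℝ) (c x : E3) : ℝ :=
  psi ρ x + 16 * Real.pi / 3 * (ζ / γ) ^ (3 / 2 : ℝ) * ‖x - c‖ ^ (1 / 2 : ℝ)

/-- `u` is differentiable on a punctured neighbourhood of `c` and its gradient tends to `G`. -/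
def IsGradientLimit (u : E3 → ℝ) (c G : E3) : Prop :=
  (∀ᶠ x in 𝓝[≠] c, DifferentiableAt ℝ u x) ∧ Tendsto (gradient u) (𝓝[≠] c) (𝓝 G)

end

end Pool.Agent.Lib.MP_689e73_mp
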