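import Pool.Agent.Lib.MP_689e73_mp.Coul

open MeasureTheory Filter Topology Set Metric
open scoped ENNReal NNReal

namespace Pool.Agent.Lib.MP_689e73_mp

noncomputable section

/-- Nonnegative densities of mass at most `lam`. -/
structure Good (lam : ℝ) (ρ : E3 → ℝ) : Prop where
  ll : LL ρ
  nn : ∀ x, 0 ≤ ρ x
  mass : N1 ρ ≤ lam

def EE {k : ℕ} (γ : ℝ) (z : Fin k → ℝ) (R : Fin k → E3) (ρ : E3 → ℝ) : ℝ :=
  3 / 5 * γ * KK ρ - ∑ i, z i * psi ρ (R i) + 1 / 2 * DD ρ ρ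

lemma LL.HK' {ρ : E3 → ℝ} (h : LL ρ) (h0 : ∀ x, 0 ≤ ρ x) :
    HI (fun x => ρ x ^ (5 / 3 : ℝ)) (KK ρ) :=
  h.HK.congr (Eventually.of_forall fun x => by rw [abs_of_nonneg (h0 x)])

lemma LL.HN' {ρ : E3 → ℝ} (h : LL ρ) (h0 : ∀ x, 0 ≤ ρ x) : HI ρ (N1 ρ) :=
  h.HN.congr (Eventually.of_forall fun x => by rw [abs_of_nonneg (h0 x)])

lemma abs_fun_eq {ρ : E3 → ℝ} (h0 : ∀ x, 0 ≤ ρ x) : (fun y => |ρ y|) = ρ :=
  funext fun y => abs_of_nonneg (h0 y)

lemma Good.zero {lam : ℝ} (h : 0 ≤ lam) : Good lam (fun _ => 0) :=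
  ⟨LL.zero, fun _ => le_rfl, by simpa [N1] using h⟩

lemma EE_zero {k : ℕ} (γ : ℝ) (z : Fin k → ℝ) (R : Fin k → E3) : EE γ z R (fun _ => 0) = 0 := by
  simp [EE, KK, psi, DD]

lemma Good.comb {lam : ℝ} {a b : E3 → ℝ} (ha : Good lam a) (hb : Good lam b) {t : ℝ}
    (h0 : 0 ≤ t) (h1 : t ≤ 1) : Good lam (fun x => a x + t * (b x - a x)) := by
  have hl : LL (fun x => a x + t * (b x - a x)) := ha.ll.add ((hb.ll.sub ha.ll).const_mul t)
  have hn : ∀ x, 0 ≤ a x + t * (b x - a x) := fun x => by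
    have := ha.nn x; have := hb.nn x; nlinarith
  refine ⟨hl, hn, ?_⟩
  have e := (hl.HN' hn).unique ((ha.ll.HN' ha.nn).add
    (((hb.ll.HN' hb.nn).sub (ha.ll.HN' ha.nn)).const_mul t))
  rw [e]
  have := ha.mass; have := hb.mass
  nlinarith

lemma N1_sub_le {lam : ℝ} {a b : E3 → ℝ} (ha : Good lam a) (hb : Good lam b) :
    N1 (fun x => a x - b x) ≤ 2 * lam := by
  have := (ha.ll.sub hb.ll).HN.le (ha.ll.HN.add hb.ll.HN)
    (Eventually.of_forall fun x => abs_sub _ _)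
  linarith [ha.mass, hb.mass]

lemma DD_add_left {a b c : E3 → ℝ} (ha : LL a) (hb : LL b) (hc : LL c) :
    DD (fun x => a x + b x) c = DD a c + DD b c :=
  ((ha.add hb).HD hc).eq ((ha.HD hc).add (hb.HD hc)) (Eventually.of_forall fun x => by ring)

lemma DD_sub_left {a b c : E3 → ℝ} (ha : LL a) (hb : LL b) (hc : LL c) :
    DD (fun x => a x - b x) c = DD a c - DD b c :=
  ((ha.sub hb).HD hc).eq ((ha.HD hc).sub (hb.HD hc)) (Eventually.of_forall fun x => by ring)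

lemma DD_smul_left {a c : E3 → ℝ} (ha : LL a) (hc : LL c) (t : ℝ) :
    DD (fun x => t * a x) c = t * DD a c :=
  ((ha.const_mul t).HD hc).eq ((ha.HD hc).const_mul t) (Eventually.of_forall fun x => by ring)

lemma DD_expand {a b : E3 → ℝ} (ha : LL a) (hb : LL b) (t : ℝ) :
    DD (fun x => a x + t * b x) (fun x => a x + t * b x) =
      DD a a + 2 * t * DD b a + t ^ 2 * DD b b := by
  have hc : LL (fun x => a x + t * b x) := ha.add (hb.const_mul t)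
  rw [DD_add_left ha (hb.const_mul t) hc, DD_smul_left hb hc, DD_symm ha hc, DD_symm hb hc,
    DD_add_left ha (hb.const_mul t) ha, DD_add_left ha (hb.const_mul t) hb, DD_smul_left hb ha,
    DD_smul_left hb hb, DD_symm ha hb]
  ring

lemma psi_comb {a b : E3 → ℝ} (ha : LL a) (hb : LL b) (t : ℝ) (y : E3) :
    psi (fun x => a x + t * b x) y = psi a y + t * psi b y := by
  rw [ha.psi_add (hb.const_mul t), psi_const_mul]

/-- Uniform lower bound. -/
lemma EE_lower {k : ℕ} {γ : ℝ} (hγ : 0 < γ) {z : Fin k → ℝ} (hz : ∀ i, 0 < z i) (lam : ℝ) :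
    ∃ C : ℝ, ∀ (R : Fin k → E3) (ρ : E3 → ℝ), Good lam ρ →
      3 / 10 * γ * KK ρ - C ≤ EE γ z R ρ := by
  set Z : ℝ := ∑ i, z i with hZ
  have hZ0 : 0 ≤ Z := Finset.sum_nonneg fun i _ => (hz i).le
  set θ : ℝ := 3 / 10 * γ / (Z + 1) with hθ
  have hθ0 : 0 < θ := by positivity
  refine ⟨Z * (θ ^ (-(3 / 2) : ℝ) * Ib 1 + lam), fun R ρ hρ => ?_⟩
  have h1 : ∀ x, psi ρ x ≤ θ * KK ρ + (θ ^ (-(3 / 2) : ℝ) * Ib 1 + lam) := fun x => by
    have := hρ.ll.psi_abs_le hθ0 one_pos x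
    rw [abs_fun_eq hρ.nn] at this
    have := hρ.mass
    simp only [inv_one, one_mul] at *
    linarith
  have h2 : ∑ i, z i * psi ρ (R i) ≤ Z * (θ * KK ρ + (θ ^ (-(3 / 2) : ℝ) * Ib 1 + lam)) := by
    rw [hZ, Finset.sum_mul]
    exact Finset.sum_le_sum fun i _ => mul_le_mul_of_nonneg_left (h1 _) (hz i).le
  have h3 := DD_nonneg hρ.nn hρ.nn
  have h4 : Z * θ ≤ 3 / 10 * γ := by
    rw [hθ, ← mul_div_assoc, div_le_iff₀ (by positivity)]; nlinarith
  have h5 := mul_le_mul_of_nonneg_right h4 (KK_nonneg ρ)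
  unfold EE
  nlinarith

/-- The midpoint inequality. -/
lemma midpoint {k : ℕ} {γ : ℝ} (hγ : 0 < γ) (z : Fin k → ℝ) {ε : ℝ} (hε : 0 < ε) :
    ∃ C : ℝ, 0 < C ∧ ∀ (lam : ℝ) (R : Fin k → E3) (a b : E3 → ℝ), Good lam a → Good lam b →
      KK (fun x => a x - b x) ≤ ε * (KK a + KK b) +
        C * ((EE γ z R a + EE γ z R b) / 2 - EE γ z R (fun x => a x + 1 / 2 * (b x - a x))) := by
  obtain ⟨C, hC, H⟩ := gap_bound hε
  refine ⟨C / (3 / 5 * γ), by positivity, fun lam R a b ha hb => ?_⟩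
  have hm := ha.comb hb (t := 1 / 2) (by norm_num) (by norm_num)
  have hg : HI (fun x => gap (a x) (b x))
      (1 / 2 * (KK a + KK b) - KK (fun x => a x + 1 / 2 * (b x - a x))) := by
    refine ((((ha.ll.HK' ha.nn).add (hb.ll.HK' hb.nn)).const_mul (1 / 2)).sub
      (hm.ll.HK' hm.nn)).congr (Eventually.of_forall fun x => ?_)
    unfold gap
    rw [show a x + 1 / 2 * (b x - a x) = (a x + b x) / 2 by ring]; ring
  have h1 := (ha.ll.sub hb.ll).HK.le ((((ha.ll.HK' ha.nn).add (hb.ll.HK' hb.nn)).const_mul ε).add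
    (hg.const_mul C)) (Eventually.of_forall fun x => H _ _ (ha.nn x) (hb.nn x))
  have h2 := DD_expand ha.ll (hb.ll.sub ha.ll) (1 / 2)
  have h3 : DD (fun x => b x - a x) (fun x => b x - a x) = DD b b - 2 * DD b a + DD a a := by
    rw [DD_sub_left hb.ll ha.ll (hb.ll.sub ha.ll), DD_symm hb.ll (hb.ll.sub ha.ll),
      DD_symm ha.ll (hb.ll.sub ha.ll), DD_sub_left hb.ll ha.ll hb.ll,
      DD_sub_left hb.ll ha.ll ha.ll, DD_symm ha.ll hb.ll]
    ring
  rw [h3, DD_sub_left hb.ll ha.ll ha.ll] at h2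
  have h4 := DD_amgm hb.ll ha.ll hb.nn ha.nn
  have h5 : ∑ i, z i * psi (fun x => a x + 1 / 2 * (b x - a x)) (R i) =
      (∑ i, z i * psi a (R i) + ∑ i, z i * psi b (R i)) / 2 := by
    rw [← Finset.sum_add_distrib, Finset.sum_div]
    refine Finset.sum_congr rfl fun i _ => ?_
    rw [psi_comb ha.ll (hb.ll.sub ha.ll), hb.ll.psi_sub ha.ll]; ring
  have h6 : 3 / 5 * γ * (1 / 2 * (KK a + KK b) - KK (fun x => a x + 1 / 2 * (b x - a x))) ≤
      (EE γ z R a + EE γ z R b) / 2 - EE γ z R (fun x => a x + 1 / 2 * (b x - a x)) := by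
    unfold EE
    rw [h5, h2]
    linarith
  have h7 : C * (1 / 2 * (KK a + KK b) - KK (fun x => a x + 1 / 2 * (b x - a x))) ≤
      C / (3 / 5 * γ) * ((EE γ z R a + EE γ z R b) / 2 -
        EE γ z R (fun x => a x + 1 / 2 * (b x - a x))) := by
    have := mul_le_mul_of_nonneg_left h6 (show 0 ≤ C / (3 / 5 * γ) by positivity)
    rwa [← mul_assoc, div_mul_cancel₀ _ (by positivity)] at this
  linarith

lemma stab {k : ℕ} {γ : ℝ} (hγ : 0 < γ) (z : Fin k → ℝ) (K : ℝ) {η : ℝ} (hη : 0 < η) :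
    ∃ δ : ℝ, 0 < δ ∧ ∀ (lam : ℝ) (R : Fin k → E3) (a b : E3 → ℝ), Good lam a → Good lam b →
      KK a ≤ K → KK b ≤ K →
      (EE γ z R a + EE γ z R b) / 2 - EE γ z R (fun x => a x + 1 / 2 * (b x - a x)) ≤ δ →
      KK (fun x => a x - b x) ≤ η := by
  obtain ⟨C, hC, H⟩ := midpoint hγ z (ε := η / (4 * (|K| + 1))) (by positivity)
  refine ⟨η / 2 / C, by positivity, fun lam R a b ha hb h1 h2 h3 => ?_⟩
  have h4 := H lam R a b ha hb
  have h5 : η / (4 * (|K| + 1)) * (KK a + KK b) ≤ η / 2 := by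
    have : KK a + KK b ≤ 2 * (|K| + 1) := by linarith [le_abs_self K]
    calc _ ≤ η / (4 * (|K| + 1)) * (2 * (|K| + 1)) :=
          mul_le_mul_of_nonneg_left this (by positivity)
      _ = η / 2 := by field_simp; ring
  rw [le_div_iff₀ hC] at h3
  linarith

lemma rpow_23_52 {b : ℝ} (hb : 0 ≤ b) : (b ^ (2 / 3 : ℝ)) ^ (5 / 2 : ℝ) = b ^ (5 / 3 : ℝ) := by
  rw [← Real.rpow_mul hb]; norm_num

lemma KK_diff_le {a b : E3 → ℝ} (ha : LL a) (ha0 : ∀ x, 0 ≤ a x) (hb : LL b)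
    (hb0 : ∀ x, 0 ≤ b x) {θ : ℝ} (hθ : 0 < θ) :
    |KK a - KK b| ≤ 5 / 3 * ((1 + θ) * KK (fun x => a x - b x) + θ ^ (-(3 / 2) : ℝ) * KK b) := by
  have j := (ha.HK' ha0).sub (hb.HK' hb0)
  rw [← j.2]
  refine abs_integral_le_integral_abs.trans ?_
  refine (HI.of j.1.abs).le ((((ha.sub hb).HK.const_mul (1 + θ)).add
    ((hb.HK' hb0).const_mul _)).const_mul (5 / 3)) (Eventually.of_forall fun x => ?_)
  have t := taylor53 (hb0 x) (ha0 x)
  have y := young53 hθ (abs_nonneg (a x - b x)) (Real.rpow_nonneg (hb0 x) (2 / 3))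
  rw [rpow_23_52 (hb0 x)] at y
  have p : |5 / 3 * b x ^ (2 / 3 : ℝ) * (a x - b x)| = 5 / 3 * (|a x - b x| * b x ^ (2 / 3 : ℝ)) := by
    rw [abs_mul, abs_of_nonneg (by have := hb0 x; positivity)]; ring
  have q := abs_add_le (a x ^ (5 / 3 : ℝ) - b x ^ (5 / 3 : ℝ) -
    5 / 3 * b x ^ (2 / 3 : ℝ) * (a x - b x)) (5 / 3 * b x ^ (2 / 3 : ℝ) * (a x - b x))
  rw [sub_add_cancel, p] at q
  linarith

section Limits

variable {ι : Type*} {l : Filter ι} {lam : ℝ} {a : ι → E3 → ℝ} {b : E3 → ℝ}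

lemma tendsto_KK (ha : ∀ n, Good lam (a n)) (hb : Good lam b)
    (h : Tendsto (fun n => KK (fun x => a n x - b x)) l (𝓝 0)) :
    Tendsto (fun n => KK (a n)) l (𝓝 (KK b)) := by
  rw [Metric.tendsto_nhds]
  intro ε hε
  have hK := KK_nonneg b
  set θ : ℝ := (ε / (4 * (KK b + 1))) ^ (-(2 / 3) : ℝ) with hθ
  have hθ0 : 0 < θ := by positivity
  have hθ' : θ ^ (-(3 / 2) : ℝ) = ε / (4 * (KK b + 1)) := by
    rw [hθ, ← Real.rpow_mul (by positivity)]; norm_num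
  filter_upwards [h.eventually (Iio_mem_nhds (show 0 < ε / 4 / (1 + θ) by positivity))] with n hn
  have h1 := KK_diff_le (ha n).ll (ha n).nn hb.ll hb.nn hθ0
  rw [hθ'] at h1
  have h2 : ε / (4 * (KK b + 1)) * KK b ≤ ε / 4 := by
    rw [div_mul_eq_mul_div, div_le_div_iff₀ (by positivity) (by norm_num)]; nlinarith
  have h3 : KK (fun x => a n x - b x) < ε / 4 / (1 + θ) := hn
  rw [lt_div_iff₀ (by positivity)] at h3
  rw [Real.dist_eq]
  linarith

lemma psi_unif (ha : ∀ n, Good lam (a n)) (hb : Good lam b)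
    (h : Tendsto (fun n => KK (fun x => a n x - b x)) l (𝓝 0)) {ε : ℝ} (hε : 0 < ε) :
    ∀ᶠ n in l, ∀ x, |psi (a n) x - psi b x| ≤ ε := by
  obtain ⟨η, hη, H⟩ := psi_small (2 * lam) hε
  filter_upwards [h.eventually (Iic_mem_nhds hη)] with n hn x
  rw [← (ha n).ll.psi_sub hb.ll]
  exact H _ ((ha n).ll.sub hb.ll) hn (N1_sub_le (ha n) hb) x

lemma tendsto_psi (ha : ∀ n, Good lam (a n)) (hb : Good lam b)
    (h : Tendsto (fun n => KK (fun x => a n x - b x)) l (𝓝 0)) {y : ι → E3} {y0 : E3}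
    (hy : Tendsto y l (𝓝 y0)) : Tendsto (fun n => psi (a n) (y n)) l (𝓝 (psi b y0)) := by
  rw [Metric.tendsto_nhds]
  intro ε hε
  have h1 := (hb.ll.continuous_psi.tendsto y0).comp hy
  rw [Metric.tendsto_nhds] at h1
  filter_upwards [psi_unif ha hb h (half_pos hε), h1 _ (half_pos hε)] with n h2 h3
  have h4 := h2 (y n)
  rw [Real.dist_eq] at h3 ⊢
  have := abs_sub_le (psi (a n) (y n)) (psi b (y n)) (psi b y0)
  simp only [Function.comp] at h3
  linarith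

lemma abs_DD_le {a c : E3 → ℝ} (ha : LL a) (hc : LL c) {ε : ℝ} (h : ∀ x, |psi c x| ≤ ε) :
    |DD a c| ≤ ε * N1 a := by
  have j := ha.HD hc
  rw [← j.2]
  refine abs_integral_le_integral_abs.trans ((HI.of j.1.abs).le (ha.HN.const_mul ε)
    (Eventually.of_forall fun x => ?_))
  rw [abs_mul, mul_comm]
  exact mul_le_mul_of_nonneg_right (h x) (abs_nonneg _)

lemma tendsto_DD (ha : ∀ n, Good lam (a n)) (hb : Good lam b)
    (h : Tendsto (fun n => KK (fun x => a n x - b x)) l (𝓝 0)) :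
    Tendsto (fun n => DD (a n) (a n)) l (𝓝 (DD b b)) := by
  rw [Metric.tendsto_nhds]
  intro ε hε
  have hl : 0 ≤ lam := (N1_nonneg b).trans hb.mass
  filter_upwards [psi_unif ha hb h (show 0 < ε / (2 * lam + 1) by positivity)] with n hn
  have hd := (ha n).ll.sub hb.ll
  have hn' : ∀ x, |psi (fun y => a n y - b y) x| ≤ ε / (2 * lam + 1) := fun x => by
    rw [(ha n).ll.psi_sub hb.ll]; exact hn x
  have h1 := abs_DD_le (ha n).ll hd hn'
  have h2 := abs_DD_le hb.ll hd hn'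
  rw [DD_symm (ha n).ll hd, DD_sub_left (ha n).ll hb.ll (ha n).ll] at h1
  rw [DD_symm hb.ll hd, DD_sub_left (ha n).ll hb.ll hb.ll, DD_symm (ha n).ll hb.ll] at h2
  have h3 := abs_sub_le (DD (a n) (a n)) (DD b (a n)) (DD b b)
  have h4 : ε / (2 * lam + 1) * N1 (a n) ≤ ε / (2 * lam + 1) * lam :=
    mul_le_mul_of_nonneg_left (ha n).mass (by positivity)
  have h5 : ε / (2 * lam + 1) * N1 b ≤ ε / (2 * lam + 1) * lam :=
    mul_le_mul_of_nonneg_left hb.mass (by positivity)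
  have h6 : 2 * (ε / (2 * lam + 1) * lam) < ε := by
    rw [div_mul_eq_mul_div, ← mul_div_assoc, div_lt_iff₀ (by positivity)]; nlinarith
  rw [Real.dist_eq]
  linarith

lemma tendsto_EE {k : ℕ} (γ : ℝ) (z : Fin k → ℝ) (R : Fin k → E3)
    (ha : ∀ n, Good lam (a n)) (hb : Good lam b)
    (h : Tendsto (fun n => KK (fun x => a n x - b x)) l (𝓝 0)) :
    Tendsto (fun n => EE γ z R (a n)) l (𝓝 (EE γ z R b)) := by
  unfold EE
  exact (((tendsto_KK ha hb h).const_mul _).sub (tendsto_finsetSum _ fun i _ =>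
    (tendsto_psi ha hb h tendsto_const_nhds).const_mul _)).add ((tendsto_DD ha hb h).const_mul _)

end Limits

lemma eLpNorm_eq_KK {σ : E3 → ℝ} (h : MemLp σ (5 / 3)) :
    (eLpNorm σ (5 / 3) volume).toReal = KK σ ^ (3 / 5 : ℝ) := by
  rw [h.eLpNorm_eq_integral_rpow_norm p_ne_zero p_ne_top, p_toReal,
    ENNReal.toReal_ofReal (by
      exact Real.rpow_nonneg (integral_nonneg fun _ => by positivity) _)]
  simp only [Real.norm_eq_abs, KK]
  norm_num

lemma fact_p : Fact ((1 : ℝ≥0∞) ≤ 5 / 3) := ⟨by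
  rw [← ENNReal.toReal_le_toReal (by simp) p_ne_top, p_toReal]; norm_num⟩

/-- Completeness. -/
lemma cauchy_limit {lam : ℝ} {a : ℕ → E3 → ℝ} (ha : ∀ n, Good lam (a n))
    (hc : ∀ η : ℝ, 0 < η → ∃ N : ℕ, ∀ n ≥ N, ∀ m ≥ N, KK (fun x => a n x - a m x) ≤ η) :
    ∃ g : E3 → ℝ, Good lam g ∧ Tendsto (fun n => KK (fun x => a n x - g x)) atTop (𝓝 0) := by
  have := fact_p
  set F : ℕ → Lp ℝ (5 / 3) (volume : Measure E3) := fun n => (ha n).ll.lp.toLp (a n) with hF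
  have hFa : ∀ n, (F n : E3 → ℝ) =ᵐ[volume] a n := fun n => (ha n).ll.lp.coeFn_toLp
  have hcs : CauchySeq F := by
    rw [Metric.cauchySeq_iff]
    intro ε hε
    obtain ⟨N, hN⟩ := hc ((ε / 2) ^ (5 / 3 : ℝ)) (by positivity)
    refine ⟨N, fun m hm n hn => ?_⟩
    have hd := ((ha m).ll.sub (ha n).ll).lp
    rw [Lp.dist_def, eLpNorm_congr_ae ((hFa m).sub (hFa n))]
    have e : (a m - a n) = fun x => a m x - a n x := rfl
    rw [e, eLpNorm_eq_KK hd]
    calc _ ≤ ((ε / 2) ^ (5 / 3 : ℝ)) ^ (3 / 5 : ℝ) :=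
          Real.rpow_le_rpow (KK_nonneg _) (hN m hm n hn) (by norm_num)
      _ = ε / 2 := by rw [← Real.rpow_mul (by positivity)]; norm_num
      _ < ε := half_lt_self hε
  obtain ⟨G, hG⟩ := cauchySeq_tendsto_of_complete hcs
  obtain ⟨ns, -, hns⟩ := (tendstoInMeasure_of_tendsto_Lp hG).exists_seq_tendsto_ae
  have hGm := Lp.aestronglyMeasurable G
  set g : E3 → ℝ := fun x => max (hGm.mk G x) 0 with hg
  have hgm : Measurable g := hGm.stronglyMeasurable_mk.measurable.max measurable_const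
  have hlim : ∀ᵐ x, Tendsto (fun i => a (ns i) x) atTop (𝓝 (G x)) := by
    filter_upwards [hns, ae_all_iff.2 hFa] with x h1 h2
    simpa only [h2] using h1
  have hGg : (G : E3 → ℝ) =ᵐ[volume] g := by
    filter_upwards [hlim, hGm.ae_eq_mk] with x h1 h2
    have : 0 ≤ G x := ge_of_tendsto' h1 fun i => (ha _).nn x
    simp only [hg]
    rw [← h2, max_eq_left this]
  have hgn : ∀ x, 0 ≤ g x := fun x => le_max_right _ _
  have hl : 0 ≤ lam := (N1_nonneg _).trans (ha 0).mass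
  have hfat : ∫⁻ x, ENNReal.ofReal (g x) ≤ ENNReal.ofReal lam := by
    have h1 := lintegral_liminf_le (μ := (volume : Measure E3)) (u := atTop)
      (f := fun i x => ENNReal.ofReal (a (ns i) x)) (fun i => (ha _).ll.meas.ennreal_ofReal)
    have h2 : ∫⁻ x, ENNReal.ofReal (g x) =
        ∫⁻ x, liminf (fun i => ENNReal.ofReal (a (ns i) x)) atTop := by
      refine lintegral_congr_ae ?_
      filter_upwards [hlim, hGg] with x h1 h2
      rw [← h2]
      exact ((ENNReal.continuous_ofReal.tendsto _).comp h1).liminf_eq.symm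
    rw [h2]
    refine h1.trans (liminf_le_of_frequently_le' (Frequently.of_forall fun i => ?_))
    rw [← ofReal_integral_eq_lintegral_ofReal (ha _).ll.int
      (Eventually.of_forall (ha _).nn), ((ha _).ll.HN' (ha _).nn).2]
    exact ENNReal.ofReal_le_ofReal (ha _).mass
  have hgi : Integrable g := by
    refine ⟨hgm.aestronglyMeasurable, ?_⟩
    rw [hasFiniteIntegral_iff_ofReal (Eventually.of_forall hgn)]
    exact hfat.trans_lt ENNReal.ofReal_lt_top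
  have hgl : LL g := ⟨hgm, hgi, (Lp.memLp G).ae_eq hGg⟩
  refine ⟨g, ⟨hgl, hgn, ?_⟩, ?_⟩
  · rw [← ofReal_integral_eq_lintegral_ofReal hgi (Eventually.of_forall hgn),
      (hgl.HN' hgn).2] at hfat
    exact (ENNReal.ofReal_le_ofReal_iff hl).1 hfat
  · have h1 : Tendsto (fun n => dist (F n) G) atTop (𝓝 0) := tendsto_iff_dist_tendsto_zero.1 hG
    have h2 : ∀ n, KK (fun x => a n x - g x) = dist (F n) G ^ (5 / 3 : ℝ) := fun n => by
      have hd := ((ha n).ll.sub hgl).lp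
      rw [Lp.dist_def, eLpNorm_congr_ae ((hFa n).sub hGg)]
      have e : (a n - g) = fun x => a n x - g x := rfl
      rw [e, eLpNorm_eq_KK hd, ← Real.rpow_mul (KK_nonneg _)]
      norm_num
    simp only [h2]
    have := h1.rpow_const (p := 5 / 3) (Or.inr (by norm_num))
    rwa [Real.zero_rpow (by norm_num)] at this

/-- Relaxed minimisers. -/
def RMin {k : ℕ} (γ lam : ℝ) (z : Fin k → ℝ) (R : Fin k → E3) (g : E3 → ℝ) : Prop :=
  Good lam g ∧ ∀ σ, Good lam σ → EE γ z R g ≤ EE γ z R σ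

lemma KK_bound {k : ℕ} {γ : ℝ} (hγ : 0 < γ) {z : Fin k → ℝ} (hz : ∀ i, 0 < z i) (lam : ℝ) :
    ∃ K : ℝ, ∀ (R : Fin k → E3) (ρ : E3 → ℝ), Good lam ρ → EE γ z R ρ ≤ 1 → KK ρ ≤ K := by
  obtain ⟨C, hC⟩ := EE_lower hγ hz lam
  refine ⟨(1 + C) / (3 / 10 * γ), fun R ρ hρ h => ?_⟩
  have := hC R ρ hρ
  rw [le_div_iff₀ (by positivity)]
  linarith

theorem exists_RMin {k : ℕ} {γ : ℝ} (hγ : 0 < γ) {z : Fin k → ℝ} (hz : ∀ i, 0 < z i) {lam : ℝ}
    (hl : 0 ≤ lam) (R : Fin k → E3) : ∃ g, RMin γ lam z R g := by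
  obtain ⟨C, hC⟩ := EE_lower hγ hz lam
  obtain ⟨K, hK⟩ := KK_bound hγ hz lam
  set S : Set ℝ := EE γ z R '' {ρ | Good lam ρ} with hS
  have hne : S.Nonempty := ⟨_, ⟨_, Good.zero hl, rfl⟩⟩
  have hbd : BddBelow S := ⟨-C, by
    rintro _ ⟨ρ, hρ, rfl⟩
    have := hC R ρ hρ
    have := mul_nonneg (show 0 ≤ 3 / 10 * γ by positivity) (KK_nonneg ρ)
    linarith⟩
  have hm : ∀ ρ, Good lam ρ → sInf S ≤ EE γ z R ρ := fun ρ hρ => csInf_le hbd ⟨ρ, hρ, rfl⟩
  have hm0 : sInf S ≤ 0 := by simpa [EE_zero] using hm _ (Good.zero hl)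
  have hex : ∀ n : ℕ, ∃ ρ, Good lam ρ ∧ EE γ z R ρ < sInf S + 1 / ((n : ℝ) + 1) := fun n => by
    obtain ⟨_, ⟨ρ, hρ, rfl⟩, h⟩ := exists_lt_of_csInf_lt hne
      (show sInf S < sInf S + 1 / ((n : ℝ) + 1) by
        have : (0 : ℝ) < 1 / ((n : ℝ) + 1) := by positivity
        linarith)
    exact ⟨ρ, hρ, h⟩
  choose a ha hE using hex
  have hKa : ∀ n, KK (a n) ≤ K := fun n => hK R _ (ha n) (by
    have h1 : 1 / ((n : ℝ) + 1) ≤ 1 := by
      rw [div_le_one (by positivity)]; linarith [Nat.cast_nonneg (α := ℝ) n]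
    linarith [hE n])
  have ht : Tendsto (fun n : ℕ => 1 / ((n : ℝ) + 1)) atTop (𝓝 0) :=
    tendsto_one_div_add_atTop_nhds_zero_nat
  obtain ⟨g, hg, hlim⟩ := cauchy_limit ha (fun η hη => by
    obtain ⟨δ, hδ, H⟩ := stab hγ z K hη
    obtain ⟨N, hN⟩ := eventually_atTop.1 (ht.eventually (Iic_mem_nhds hδ))
    refine ⟨N, fun n hn m hm' => H lam R _ _ (ha n) (ha m) (hKa n) (hKa m) ?_⟩
    have h1 := hm _ ((ha n).comb (ha m) (t := 1 / 2) (by norm_num) (by norm_num))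
    have h2 : 1 / ((n : ℝ) + 1) ≤ δ := hN n hn
    have h3 : 1 / ((m : ℝ) + 1) ≤ δ := hN m hm'
    linarith [hE n, hE m])
  refine ⟨g, hg, fun σ hσ => le_trans ?_ (hm σ hσ)⟩
  have h2 : Tendsto (fun n : ℕ => sInf S + 1 / ((n : ℝ) + 1)) atTop (𝓝 (sInf S + 0)) :=
    ht.const_add _
  rw [add_zero] at h2
  exact le_of_tendsto_of_tendsto' (tendsto_EE γ z R ha hg hlim) h2 fun n => (hE n).le

end

end Pool.Agent.Lib.MP_689e73_mp
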