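import Pool.Agent.Lib.MP_689e73_mp.Kernel

open MeasureTheory Filter Topology Set Metric
open scoped ENNReal NNReal RealInnerProductSpace

namespace Pool.Agent.Lib.MP_689e73_mp

noncomputable section

lemma ftc_bound {H H' : ℝ → E3 → ℝ} {B L ε : ℝ}
    (hder : ∀ᵐ x, ∀ t ∈ Icc (0 : ℝ) 1, HasDerivAt (fun t => H t x) (H' t x) t)
    (hmeas : Measurable (fun p : ℝ × E3 => H' p.1 p.2))
    (hdom : ∀ t ∈ Icc (0 : ℝ) 1, ∃ κ : E3 → ℝ, HI κ B ∧ ∀ᵐ x, |H' t x| ≤ κ x)
    (hp : ∀ t ∈ Icc (0 : ℝ) 1, |(∫ x, H' t x) - L| ≤ ε) :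
    ∃ q : ℝ, HI (fun x => H 1 x - H 0 x) q ∧ |q - L| ≤ ε := by
  set ν : Measure ℝ := volume.restrict (Ioc (0 : ℝ) 1) with hν
  have hνu : ν.real univ = 1 := by simp [hν, Measure.real]
  have hae : ∀ᵐ t ∂ν, t ∈ Icc (0 : ℝ) 1 :=
    (ae_restrict_mem measurableSet_Ioc).mono fun t ht => Ioc_subset_Icc_self ht
  have hi1 : ∀ t ∈ Icc (0 : ℝ) 1, Integrable (H' t) ∧ ∫ x, ‖H' t x‖ ≤ B := by
    intro t ht
    obtain ⟨κ, h1, h2⟩ := hdom t ht
    have hm : Measurable (H' t) := hmeas.comp (measurable_const.prodMk measurable_id)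
    have hi : Integrable (H' t) := h1.1.mono' hm.aestronglyMeasurable h2
    exact ⟨hi, (HI.of hi.norm).le h1 h2⟩
  have hint : Integrable (fun p : ℝ × E3 => H' p.1 p.2) (ν.prod volume) := by
    rw [integrable_prod_iff hmeas.aestronglyMeasurable]
    refine ⟨hae.mono fun t ht => (hi1 t ht).1, ?_⟩
    refine Integrable.mono' (integrable_const B)
      (hmeas.norm.stronglyMeasurable.integral_prod_right').aestronglyMeasurable
      (hae.mono fun t ht => ?_)
    rw [Real.norm_of_nonneg (integral_nonneg fun _ => norm_nonneg _)]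
    exact (hi1 t ht).2
  have hftc : ∀ᵐ x, ∫ t, H' t x ∂ν = H 1 x - H 0 x := by
    filter_upwards [hder, hint.prod_left_ae] with x h1 h2
    rw [← intervalIntegral.integral_eq_sub_of_hasDerivAt (f := fun t => H t x)
      (f' := fun t => H' t x) (by rwa [uIcc_of_le zero_le_one])
      ((intervalIntegrable_iff_integrableOn_Ioc_of_le zero_le_one).2 h2),
      intervalIntegral.integral_of_le zero_le_one]
  refine ⟨_, (HI.of hint.integral_prod_right).congr hftc, ?_⟩
  rw [← integral_integral_swap (f := fun t x => H' t x) hint]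
  have e : (∫ t, ∫ x, H' t x ∂volume ∂ν) - L = ∫ t, ((∫ x, H' t x) - L) ∂ν := by
    rw [integral_sub hint.integral_prod_left (integrable_const L), integral_const, hνu, one_smul]
  rw [e, ← Real.norm_eq_abs]
  have := norm_integral_le_of_norm_le_const (μ := ν) (f := fun t => (∫ x, H' t x) - L) (C := ε)
    (hae.mono fun t ht => hp t ht)
  rwa [hνu, mul_one] at this

/-- The gradient kernel. -/
def kv (v : E3) : E3 := (‖v‖ ^ 3)⁻¹ • v

lemma norm_kv (v : E3) : ‖kv v‖ = (‖v‖ ^ 2)⁻¹ := by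
  unfold kv
  rw [norm_smul, Real.norm_of_nonneg (by positivity)]
  rcases eq_or_ne v 0 with h | h
  · subst h; simp
  · have : ‖v‖ ≠ 0 := norm_ne_zero_iff.2 h
    field_simp

lemma measurable_kv : Measurable kv :=
  ((measurable_norm.pow_const 3).inv).smul measurable_id

lemma continuousAt_kv {v : E3} (hv : v ≠ 0) : ContinuousAt kv v :=
  ((continuous_norm.pow 3).continuousAt.inv₀ (pow_ne_zero _ (norm_ne_zero_iff.2 hv))).smul
    continuousAt_id

lemma kv_neg (v : E3) : kv (-v) = -kv v := by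
  unfold kv; rw [norm_neg, smul_neg]

lemma hasDerivAt_inv_norm (x a h : E3) {t : ℝ} (hx : x - (a + t • h) ≠ 0) :
    HasDerivAt (fun t : ℝ => ‖x - (a + t • h)‖⁻¹) ⟪h, kv (x - (a + t • h))⟫ t := by
  have h1 : HasDerivAt (fun t : ℝ => x - (a + t • h)) (-h) t := by
    have := (((hasDerivAt_id t).smul_const h).const_add a).const_sub x
    simpa using this
  have hp : 0 < ‖x - (a + t • h)‖ := norm_pos_iff.2 hx
  have h2 := h1.norm_sq
  have h3 := (h2.sqrt (by positivity)).inv (by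
    rw [Real.sqrt_sq hp.le]; exact hp.ne')
  have e : (fun t : ℝ => ‖x - (a + t • h)‖⁻¹) = (fun t : ℝ => √(‖x - (a + t • h)‖ ^ 2))⁻¹ := by
    funext s
    simp only [Pi.inv_apply]
    rw [Real.sqrt_sq (norm_nonneg _)]
  rw [e]
  refine h3.congr_deriv ?_
  simp only [Real.sqrt_sq hp.le]
  unfold kv
  rw [inner_neg_right, real_inner_smul_right, real_inner_comm]
  field_simp

lemma ae_off_line (a h : E3) : ∀ᵐ x : E3, ∀ t : ℝ, x - (a + t • h) ≠ 0 := by
  have h1 : (volume : Measure E3) (Submodule.span ℝ {h} : Submodule ℝ E3) = 0 := by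
    refine Measure.addHaar_submodule _ _ fun htop => ?_
    have h2 := finrank_span_le_card (R := ℝ) ({h} : Set E3)
    rw [htop, finrank_top, finrank_E3] at h2
    simp at h2
  have h2 : ∀ᵐ x : E3, x ∉ (Submodule.span ℝ {h} : Submodule ℝ E3) := compl_mem_ae_iff.2 h1
  have h3 := (measurePreserving_sub_right (volume : Measure E3) a).quasiMeasurePreserving.ae h2
  filter_upwards [h3] with x hx t ht
  apply hx
  rw [Submodule.mem_span_singleton]
  refine ⟨t, ?_⟩
  rw [sub_eq_zero] at ht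
  rw [ht]; abel

lemma kap_eq {y : E3} (hy : y ≠ 0) : kap y = (‖y‖ ^ 2 * √‖y‖ * (1 + ‖y‖))⁻¹ := by
  have hp : 0 < ‖y‖ := norm_pos_iff.2 hy
  have e : ‖y‖ ^ (-(5 / 2) : ℝ) = (‖y‖ ^ 2)⁻¹ * (√‖y‖)⁻¹ := by
    rw [Real.sqrt_eq_rpow, ← Real.rpow_natCast, ← Real.rpow_neg hp.le, ← Real.rpow_neg hp.le,
      ← Real.rpow_add hp]
    norm_num
  unfold kap
  rw [e, mul_inv, mul_inv]

def Ikap : ℝ := ∫ y, kap y

lemma HI_kap (c : E3) : HI (fun x => kap (x - c)) Ikap :=
  ⟨integrable_kap.comp_sub_right c, integral_sub_right_eq_self kap c⟩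

end

end Pool.Agent.Lib.MP_689e73_mp
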