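import Pool.Agent.Lib.MP_689e73_mp.Stab
import Pool.Agent.Lib.MP_689e73_mp.FTC

open MeasureTheory Filter Topology Set Metric
open scoped ENNReal NNReal RealInnerProductSpace

namespace Pool.Agent.Lib.MP_689e73_mp

noncomputable section

variable {k : ℕ}

def ph (z : Fin k → ℝ) (S : Fin k → E3) (w : E3 → ℝ) (i : Fin k) (x : E3) : ℝ :=
  gp (Vnuc z S x - w x) - gp (z i * ‖x - S i‖⁻¹ - 1)

def Phi (z : Fin k → ℝ) (S : Fin k → E3) (w : E3 → ℝ) (i : Fin k) : E3 :=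
  ∫ x, ph z S w i x • kv (x - S i)

def Sep (d : ℝ) (S : Fin k → E3) : Prop := ∀ i j, i ≠ j → d ≤ ‖S i - S j‖

lemma Vnuc_le {z : Fin k → ℝ} (hz : ∀ i, 0 < z i) {S : Fin k → E3} {x : E3} {r : ℝ} (hr : 0 < r)
    (h : ∀ j, r ≤ ‖x - S j‖) : Vnuc z S x ≤ (∑ j, z j) * r⁻¹ := by
  unfold Vnuc
  rw [Finset.sum_mul]
  exact Finset.sum_le_sum fun j _ => mul_le_mul_of_nonneg_left (inv_anti₀ hr (h j)) (hz j).le

lemma Vnuc_near {z : Fin k → ℝ} (hz : ∀ i, 0 < z i) {S : Fin k → E3} {x : E3} {d : ℝ} (hd : 0 < d)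
    (hS : Sep d S) {i : Fin k} (hx : ‖x - S i‖ ≤ d / 2) :
    (∀ j, ‖x - S i‖ ≤ ‖x - S j‖) ∧
      |Vnuc z S x - z i * ‖x - S i‖⁻¹| ≤ (∑ j, z j) * (d / 2)⁻¹ := by
  have h1 : ∀ j, j ≠ i → d / 2 ≤ ‖x - S j‖ := fun j hj => by
    have a := hS j i hj
    have b : S j - S i = (x - S i) - (x - S j) := by abel
    have c := norm_sub_le (x - S i) (x - S j)
    rw [← b] at c
    linarith
  refine ⟨fun j => ?_, ?_⟩
  · by_cases hj : j = i
    · rw [hj]
    · exact hx.trans (h1 j hj)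
  · unfold Vnuc
    rw [← Finset.add_sum_erase _ _ (Finset.mem_univ i), add_sub_cancel_left,
      abs_of_nonneg (Finset.sum_nonneg fun j _ => mul_nonneg (hz j).le (by positivity)),
      Finset.sum_mul]
    refine le_trans (Finset.sum_le_sum fun j hj => mul_le_mul_of_nonneg_left
      (inv_anti₀ (half_pos hd) (h1 j (Finset.ne_of_mem_erase hj))) (hz j).le) ?_
    exact Finset.sum_le_sum_of_subset_of_nonneg (Finset.erase_subset _ _)
      fun j _ _ => mul_nonneg (hz j).le (by positivity)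

lemma z_le_sum {z : Fin k → ℝ} (hz : ∀ i, 0 < z i) (i : Fin k) : z i ≤ ∑ j, z j :=
  Finset.single_le_sum (fun j _ => (hz j).le) (Finset.mem_univ i)

lemma ph_dom {z : Fin k → ℝ} (hz : ∀ i, 0 < z i) {d : ℝ} (hd : 0 < d) (M : ℝ) :
    ∃ C : ℝ, 0 ≤ C ∧ ∀ (S : Fin k → E3) (w : E3 → ℝ), Sep d S → (∀ x, 0 ≤ w x ∧ w x ≤ M) →
      ∀ i x, (∀ j, x ≠ S j) → ‖ph z S w i x • kv (x - S i)‖ ≤ C * ∑ j, kap (x - S j) := by
  set Z : ℝ := ∑ j, z j with hZ
  have hZ0 : 0 ≤ Z := Finset.sum_nonneg fun i _ => (hz i).le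
  set B0 : ℝ := Z * (d / 2)⁻¹ + |M| + 1 with hB0
  have hB : 0 ≤ B0 := by positivity
  set C1 : ℝ := 2 * √Z * B0 * (1 + d / 2) with hC1
  set C2 : ℝ := √Z ^ 3 * (1 + 2 / d) with hC2
  have hC10 : 0 ≤ C1 := by positivity
  have hC20 : 0 ≤ C2 := by positivity
  refine ⟨C1 + C2, by positivity, fun S w hS hw i x hx => ?_⟩
  have hpos : ∀ j, 0 < ‖x - S j‖ := fun j => norm_pos_iff.2 (sub_ne_zero.2 (hx j))
  have hsum : ∀ j, kap (x - S j) ≤ ∑ j, kap (x - S j) := fun j =>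
    Finset.single_le_sum (f := fun j => kap (x - S j)) (fun j _ => kap_nonneg _) (Finset.mem_univ j)
  have hzi := z_le_sum hz i
  rw [norm_smul, norm_kv, Real.norm_eq_abs]
  suffices h : ∃ j, ∃ C, 0 ≤ C ∧ C ≤ C1 + C2 ∧
      |ph z S w i x| * (‖x - S i‖ ^ 2)⁻¹ ≤ C * kap (x - S j) by
    obtain ⟨j, C, h0, h1, h2⟩ := h
    exact h2.trans (mul_le_mul h1 (hsum j) (kap_nonneg _) (by positivity))
  have hsq : ∀ r : ℝ, 0 < r → √(Z * r⁻¹) = √Z * (√r)⁻¹ := fun r hr => by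
    rw [Real.sqrt_mul hZ0, Real.sqrt_inv]
  by_cases hc : ‖x - S i‖ ≤ d / 2
  · obtain ⟨a1, a2⟩ := Vnuc_near hz hd hS hc
    refine ⟨i, C1, hC10, by linarith, ?_⟩
    set r := ‖x - S i‖ with hr
    have hr0 : 0 < r := hpos i
    have b0 : 0 ≤ Z * r⁻¹ := by positivity
    have b1 : max (Vnuc z S x - w x) 0 ≤ Z * r⁻¹ :=
      max_le (by linarith [Vnuc_le hz hr0 a1, (hw x).1]) b0
    have b2 : max (z i * r⁻¹ - 1) 0 ≤ Z * r⁻¹ :=
      max_le (by nlinarith [inv_pos.2 hr0]) b0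
    have b3 := gp_lip b1 b2
    have b4 : |Vnuc z S x - w x - (z i * r⁻¹ - 1)| ≤ B0 := by
      have := (hw x).1; have := (hw x).2; have := le_abs_self M
      rw [abs_le] at a2 ⊢
      constructor <;> linarith [a2.1, a2.2, abs_nonneg M]
    rw [hsq r hr0] at b3
    have b5 : |ph z S w i x| ≤ 2 * (√Z * (√r)⁻¹) * B0 :=
      b3.trans (mul_le_mul_of_nonneg_left b4 (by positivity))
    have hs : 0 < √r := Real.sqrt_pos.2 hr0
    rw [kap_eq (sub_ne_zero.2 (hx i)), ← hr]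
    calc |ph z S w i x| * (r ^ 2)⁻¹ ≤ 2 * (√Z * (√r)⁻¹) * B0 * (r ^ 2)⁻¹ :=
          mul_le_mul_of_nonneg_right b5 (by positivity)
      _ = 2 * √Z * B0 * (1 + r) * (r ^ 2 * √r * (1 + r))⁻¹ := by field_simp
      _ ≤ C1 * (r ^ 2 * √r * (1 + r))⁻¹ := by
          rw [hC1]; gcongr
  · push Not at hc
    obtain ⟨j, -, hj⟩ := Finset.exists_min_image Finset.univ (fun j => ‖x - S j‖)
      ⟨i, Finset.mem_univ i⟩
    refine ⟨j, C2, hC20, by linarith, ?_⟩
    set r := ‖x - S j‖ with hr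
    set t := ‖x - S i‖ with ht
    have hr0 : 0 < r := hpos j
    have ht0 : 0 < t := hpos i
    have hrt : r ≤ t := hj i (Finset.mem_univ i)
    have b0 : 0 ≤ Z * r⁻¹ := by positivity
    have b1 : gp (Vnuc z S x - w x) ≤ gp (Z * r⁻¹) :=
      gp_mono (by linarith [Vnuc_le hz hr0 fun l => hj l (Finset.mem_univ l), (hw x).1])
    have b2 : gp (z i * t⁻¹ - 1) ≤ gp (Z * r⁻¹) := gp_mono (by
      have := inv_anti₀ hr0 hrt
      have := mul_le_mul hzi this (by positivity) hZ0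
      linarith)
    have b3 : |ph z S w i x| ≤ (√Z * (√r)⁻¹) ^ 3 := by
      rw [← hsq r hr0, ← rpow_three_halves b0, ← gp_of_nonneg b0, abs_le]
      unfold ph
      rw [← ht]
      constructor <;> linarith [gp_nonneg (Vnuc z S x - w x), gp_nonneg (z i * t⁻¹ - 1)]
    have hs : 0 < √r := Real.sqrt_pos.2 hr0
    have b4 : (t ^ 2)⁻¹ ≤ (1 + 2 / d) * (r * (1 + r))⁻¹ := by
      rw [← div_eq_mul_inv, inv_eq_one_div, div_le_div_iff₀ (by positivity) (by positivity)]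
      have c1 : 1 ≤ 2 / d * t := by
        rw [div_mul_eq_mul_div, le_div_iff₀ hd]; linarith
      have c2 : 1 + r ≤ (1 + 2 / d) * t := by linarith
      nlinarith [mul_le_mul hrt c2 (by positivity) ht0.le]
    rw [kap_eq (sub_ne_zero.2 (hx j)), ← hr]
    have e : √r ^ 2 = r := Real.sq_sqrt hr0.le
    calc |ph z S w i x| * (t ^ 2)⁻¹ ≤ (√Z * (√r)⁻¹) ^ 3 * ((1 + 2 / d) * (r * (1 + r))⁻¹) :=
          mul_le_mul b3 b4 (by positivity) (by positivity)
      _ = C2 * (√r ^ 2 * r * √r * (1 + r))⁻¹ := by rw [hC2]; field_simp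
      _ = C2 * (r ^ 2 * √r * (1 + r))⁻¹ := by rw [e, ← sq]

lemma measurable_gp : Measurable gp := continuous_gp.measurable

lemma measurable_ph_kv (z : Fin k → ℝ) (S : Fin k → E3) {w : E3 → ℝ} (hw : Measurable w)
    (i : Fin k) : Measurable (fun x => ph z S w i x • kv (x - S i)) := by
  unfold ph
  exact ((measurable_gp.comp ((measurable_Vnuc z S).sub hw)).sub (measurable_gp.comp
    (((measurable_id.sub measurable_const).norm.inv.const_mul _).sub measurable_const))).smul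
    (measurable_kv.comp (measurable_id.sub measurable_const))

lemma ae_ne_all (S : Fin k → E3) : ∀ᵐ x : E3, ∀ j, x ≠ S j := ae_all_iff.2 fun j => ae_ne (S j)

lemma HI_sum_kap (S : Fin k → E3) (C : ℝ) :
    HI (fun x => C * ∑ j, kap (x - S j)) (C * ∑ _j : Fin k, Ikap) :=
  (HI.sum Finset.univ fun j _ => HI_kap (S j)).const_mul C

lemma integrable_ph_kv {z : Fin k → ℝ} (hz : ∀ i, 0 < z i) {d : ℝ} (hd : 0 < d) {M : ℝ}
    {S : Fin k → E3} {w : E3 → ℝ} (hS : Sep d S) (hw : ∀ x, 0 ≤ w x ∧ w x ≤ M)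
    (hm : Measurable w) (i : Fin k) : Integrable (fun x => ph z S w i x • kv (x - S i)) := by
  obtain ⟨C, -, hC⟩ := ph_dom hz hd M
  exact (HI_sum_kap S C).1.mono' (measurable_ph_kv z S hm i).aestronglyMeasurable
    ((ae_ne_all S).mono fun x hx => hC S w hS hw i x hx)

lemma tendsto_Phi {z : Fin k → ℝ} (hz : ∀ i, 0 < z i) {d : ℝ} (hd : 0 < d) {M : ℝ} {ι : Type*}
    {l : Filter ι} [l.IsCountablyGenerated] {S : ι → Fin k → E3} {w : ι → E3 → ℝ}
    {S0 : Fin k → E3} {w0 : E3 → ℝ} (hS : Tendsto S l (𝓝 S0)) (hsep : ∀ᶠ n in l, Sep d (S n))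
    (hsep0 : Sep d S0) (hm : ∀ n, Measurable (w n)) (hm0 : Measurable w0)
    (hw : ∀ᶠ n in l, ∀ x, 0 ≤ w n x ∧ w n x ≤ M) (hw0 : ∀ x, 0 ≤ w0 x ∧ w0 x ≤ M)
    (hlim : ∀ x, Tendsto (fun n => w n x) l (𝓝 (w0 x))) (i : Fin k) :
    Tendsto (fun n => Phi z (S n) (w n) i) l (𝓝 (Phi z S0 w0 i)) := by
  obtain ⟨C, -, hC⟩ := ph_dom hz hd M
  have hv : ∀ x j, Tendsto (fun n => x - S n j) l (𝓝 (x - S0 j)) := fun x j =>
    (((continuous_apply j).tendsto S0).comp hS).const_sub x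
  unfold Phi
  refine pratt (k := fun n x => C * ∑ j, kap (x - S n j)) (k0 := fun x => C * ∑ j, kap (x - S0 j))
    (Eventually.of_forall fun n => (measurable_ph_kv z _ (hm n) i).aestronglyMeasurable)
    (measurable_ph_kv z _ hm0 i).aestronglyMeasurable
    (Eventually.of_forall fun n => (HI_sum_kap _ C).1) (HI_sum_kap _ C).1 ?_ ?_ ?_ ?_ ?_
  · filter_upwards [hsep, hw] with n h1 h2
    exact (ae_ne_all (S n)).mono fun x hx => hC _ _ h1 h2 i x hx
  · exact (ae_ne_all S0).mono fun x hx => hC _ _ hsep0 hw0 i x hx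
  · filter_upwards [ae_ne_all S0] with x hx
    have hn : ∀ j, Tendsto (fun n => ‖x - S n j‖⁻¹) l (𝓝 ‖x - S0 j‖⁻¹) := fun j =>
      (hv x j).norm.inv₀ (norm_ne_zero_iff.2 (sub_ne_zero.2 (hx j)))
    unfold ph Vnuc
    exact (((continuous_gp.tendsto _).comp ((tendsto_finsetSum _ fun j _ =>
      (hn j).const_mul (z j)).sub (hlim x))).sub ((continuous_gp.tendsto _).comp
      (((hn i).const_mul (z i)).sub_const 1))).smul
      ((continuousAt_kv (sub_ne_zero.2 (hx i))).tendsto.comp (hv x i))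
  · filter_upwards [ae_ne_all S0] with x hx
    exact (tendsto_finsetSum _ fun j _ =>
      (continuousAt_kap (sub_ne_zero.2 (hx j))).tendsto.comp (hv x j)).const_mul C
  · simp only [(HI_sum_kap _ C).2]
    exact tendsto_const_nhds

lemma sep_of_mem {S0 : Fin k → E3} (h : S0 ∈ Omega k) :
    ∃ d : ℝ, 0 < d ∧ ∀ᶠ S in 𝓝 S0, Sep d S := by
  have h1 : ∀ᶠ d in 𝓝[>] (0 : ℝ), ∀ i j, i ≠ j → d < ‖S0 i - S0 j‖ := by
    refine eventually_all.2 fun i => eventually_all.2 fun j => ?_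
    by_cases hij : i = j
    · exact Eventually.of_forall fun d h' => absurd hij h'
    · have : 0 < ‖S0 i - S0 j‖ := norm_pos_iff.2 (sub_ne_zero.2 (h i j hij))
      filter_upwards [Ioo_mem_nhdsGT this] with d hd _
      exact hd.2
  obtain ⟨d, h2, h3⟩ := (h1.and self_mem_nhdsWithin).exists
  refine ⟨d, h3, eventually_all.2 fun i => eventually_all.2 fun j => ?_⟩
  by_cases hij : i = j
  · exact Eventually.of_forall fun S h' => absurd hij h'
  · have hc : Continuous (fun S : Fin k → E3 => ‖S i - S j‖) :=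
      ((continuous_apply i).sub (continuous_apply j)).norm
    filter_upwards [(hc.tendsto S0).eventually (Ioi_mem_nhds (h2 i j hij))] with S hS _
    exact le_of_lt hS

lemma isOpen_Omega (k : ℕ) : IsOpen (Omega k) := by
  rw [isOpen_iff_mem_nhds]
  intro S0 h
  obtain ⟨d, hd, H⟩ := sep_of_mem h
  filter_upwards [H] with S hS i j hij he
  have := hS i j hij
  rw [he, sub_self, norm_zero] at this
  linarith

lemma integrable_fp_rad {ζ : ℝ} (hζ : 0 < ζ) : Integrable (fun y : E3 => fp (ζ * ‖y‖⁻¹ - 1)) := by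
  refine ((integrable_bM ζ).const_mul (ζ ^ (5 / 2 : ℝ))).mono'
    (continuous_fp.measurable.comp ((measurable_norm.inv.const_mul ζ).sub
      measurable_const)).aestronglyMeasurable (Eventually.of_forall fun y => ?_)
  rw [Real.norm_of_nonneg (fp_nonneg _)]
  unfold bM
  by_cases hy : y ∈ ball (0 : E3) ζ
  · rw [indicator_of_mem hy]
    have h0 : 0 ≤ ζ * ‖y‖⁻¹ := by positivity
    calc fp (ζ * ‖y‖⁻¹ - 1) ≤ fp (ζ * ‖y‖⁻¹) := fp_mono (by linarith)
      _ = _ := by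
        rw [fp_of_nonneg h0, Real.mul_rpow hζ.le (by positivity), Real.inv_rpow (norm_nonneg _),
          Real.rpow_neg (norm_nonneg _)]
  · rw [indicator_of_notMem hy, mul_zero, fp_of_nonpos]
    have h1 : ζ ≤ ‖y‖ := by simpa using hy
    have := mul_le_mul_of_nonneg_left (inv_anti₀ hζ h1) hζ.le
    rw [mul_inv_cancel₀ hζ.ne'] at this
    linarith

lemma HI_fp_rad {ζ : ℝ} (hζ : 0 < ζ) (c : E3) :
    HI (fun x => fp (ζ * ‖x - c‖⁻¹ - 1)) (∫ y : E3, fp (ζ * ‖y‖⁻¹ - 1)) :=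
  ⟨(integrable_fp_rad hζ).comp_sub_right c,
    integral_sub_right_eq_self (fun y : E3 => fp (ζ * ‖y‖⁻¹ - 1)) c⟩

/-- The difference of the dual functional along a segment. -/
lemma seg_estimate {z : Fin k → ℝ} (hz : ∀ i, 0 < z i) {d : ℝ} (hd : 0 < d) {M : ℝ}
    {R h : Fin k → E3} {w : E3 → ℝ} (hw : ∀ x, 0 ≤ w x ∧ w x ≤ M) (hm : Measurable w)
    (hS : ∀ t ∈ Icc (0 : ℝ) 1, Sep d (R + t • h)) {P : Fin k → E3} {ε : ℝ}
    (hP : ∀ t ∈ Icc (0 : ℝ) 1, ∀ i, ‖Phi z (R + t • h) w i - P i‖ ≤ ε) :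
    ∃ q : ℝ, HI (fun x => fp (Vnuc z (R + h) x - w x) - fp (Vnuc z R x - w x)) q ∧
      |q - 5 / 2 * ∑ i, z i * ⟪h i, P i⟫| ≤ 5 / 2 * ((∑ i, z i) * (‖h‖ * ε)) := by
  obtain ⟨C, hC0, hC⟩ := ph_dom hz hd M
  have hhi : ∀ i, ‖h i‖ ≤ ‖h‖ := fun i => norm_le_pi_norm h i
  refine Exists.elim (ftc_bound
    (H := fun t x => fp (Vnuc z (R + t • h) x - w x) -
      ∑ i, fp (z i * ‖x - (R + t • h) i‖⁻¹ - 1))
    (H' := fun t x => 5 / 2 * ∑ i, z i * ⟪h i, ph z (R + t • h) w i x • kv (x - (R + t • h) i)⟫)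
    (B := 5 / 2 * ((∑ i, z i) * ‖h‖) * C * ∑ _j : Fin k, Ikap)
    (L := 5 / 2 * ∑ i, z i * ⟪h i, P i⟫) (ε := 5 / 2 * ((∑ i, z i) * (‖h‖ * ε))) ?_ ?_ ?_ ?_)
    (fun q hqb => ?_)
  · filter_upwards [ae_all_iff.2 fun i => ae_off_line (R i) (h i)] with x hx t _
    have a : ∀ i, HasDerivAt (fun t : ℝ => z i * ‖x - (R + t • h) i‖⁻¹)
        (z i * ⟪h i, kv (x - (R + t • h) i)⟫) t := fun i =>
      (hasDerivAt_inv_norm x (R i) (h i) (hx i t)).const_mul (z i)
    have b : HasDerivAt (fun t : ℝ => Vnuc z (R + t • h) x - w x)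
        (∑ i, z i * ⟪h i, kv (x - (R + t • h) i)⟫) t := by
      unfold Vnuc
      exact (HasDerivAt.fun_sum fun i _ => a i).sub_const _
    have c := ((hasDerivAt_fp _).comp t b).sub (HasDerivAt.fun_sum (u := Finset.univ) fun i _ =>
      (hasDerivAt_fp _).comp t ((a i).sub_const 1))
    refine c.congr_deriv ?_
    rw [Finset.mul_sum, Finset.mul_sum, ← Finset.sum_sub_distrib]
    refine Finset.sum_congr rfl fun i _ => ?_
    rw [real_inner_smul_right]
    unfold ph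
    ring
  · have m1 : ∀ i, Measurable (fun p : ℝ × E3 => p.2 - (R + p.1 • h) i) := fun i =>
      measurable_snd.sub (measurable_const.add (measurable_fst.smul measurable_const))
    have m2 : ∀ i, Measurable (fun p : ℝ × E3 => z i * ‖p.2 - (R + p.1 • h) i‖⁻¹) := fun i =>
      (m1 i).norm.inv.const_mul _
    have m3 : Measurable (fun p : ℝ × E3 => Vnuc z (R + p.1 • h) p.2) :=
      Finset.measurable_sum Finset.univ fun j _ => m2 j
    have m4 : Measurable (fun p : ℝ × E3 => w p.2) := hm.comp measurable_snd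
    have m5 : Measurable (fun p : ℝ × E3 => gp (Vnuc z (R + p.1 • h) p.2 - w p.2)) :=
      measurable_gp.comp (m3.sub m4)
    have m6 : ∀ i, Measurable (fun p : ℝ × E3 => gp (z i * ‖p.2 - (R + p.1 • h) i‖⁻¹ - 1)) :=
      fun i => measurable_gp.comp ((m2 i).sub measurable_const)
    have m7 : ∀ i, Measurable (fun p : ℝ × E3 => ph z (R + p.1 • h) w i p.2) :=
      fun i => m5.sub (m6 i)
    have m8 : ∀ i, Measurable (fun p : ℝ × E3 => kv (p.2 - (R + p.1 • h) i)) :=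
      fun i => measurable_kv.comp (m1 i)
    have m9 : ∀ i, Measurable (fun p : ℝ × E3 =>
        ⟪h i, ph z (R + p.1 • h) w i p.2 • kv (p.2 - (R + p.1 • h) i)⟫) :=
      fun i => Measurable.inner measurable_const ((m7 i).smul (m8 i))
    exact (Finset.measurable_sum Finset.univ fun i _ => (m9 i).const_mul (z i)).const_mul _
  · intro t ht
    refine ⟨_, HI_sum_kap (R + t • h) _, ?_⟩
    filter_upwards [ae_ne_all (R + t • h)] with x hx
    rw [abs_mul, abs_of_pos (by norm_num : (0 : ℝ) < 5 / 2), mul_assoc, mul_assoc]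
    refine mul_le_mul_of_nonneg_left ((Finset.abs_sum_le_sum_abs _ _).trans ?_) (by norm_num)
    rw [Finset.sum_mul, Finset.sum_mul]
    refine Finset.sum_le_sum fun i _ => ?_
    rw [abs_mul, abs_of_pos (hz i), mul_assoc]
    refine mul_le_mul_of_nonneg_left ((abs_real_inner_le_norm _ _).trans ?_) (hz i).le
    exact mul_le_mul (hhi i) (hC _ _ (hS t ht) hw i x hx) (norm_nonneg _) (norm_nonneg _)
  · intro t ht
    have hi := fun i => integrable_ph_kv hz hd (hS t ht) hw hm i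
    have j : HI (fun x => 5 / 2 * ∑ i, z i * ⟪h i, ph z (R + t • h) w i x •
        kv (x - (R + t • h) i)⟫) (5 / 2 * ∑ i, z i * ⟪h i, Phi z (R + t • h) w i⟫) :=
      (HI.sum Finset.univ fun i _ => (show HI _ _ from
        ⟨(hi i).const_inner (h i), integral_inner (hi i) (h i)⟩).const_mul (z i)).const_mul _
    rw [j.2, ← mul_sub, abs_mul, abs_of_pos (by norm_num : (0 : ℝ) < 5 / 2),
      ← Finset.sum_sub_distrib]
    refine mul_le_mul_of_nonneg_left ((Finset.abs_sum_le_sum_abs _ _).trans ?_) (by norm_num)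
    rw [Finset.sum_mul]
    refine Finset.sum_le_sum fun i _ => ?_
    rw [← mul_sub, ← inner_sub_right, abs_mul, abs_of_pos (hz i)]
    refine mul_le_mul_of_nonneg_left ((abs_real_inner_le_norm _ _).trans ?_) (hz i).le
    exact mul_le_mul (hhi i) (hP t ht i) (norm_nonneg _) (norm_nonneg _)
  · obtain ⟨hq, hb⟩ := hqb
    refine ⟨q, ?_, hb⟩
    have j := (hq.add (HI.sum Finset.univ fun i _ => HI_fp_rad (hz i) ((R + h) i))).sub
      (HI.sum Finset.univ fun i _ => HI_fp_rad (hz i) (R i))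
    rw [add_sub_cancel_right] at j
    refine j.congr (Eventually.of_forall fun x => ?_)
    simp only [one_smul, zero_smul, add_zero]
    ring

def Lf (z : Fin k → ℝ) (c : ℝ) (P : Fin k → E3) : (Fin k → E3) →L[ℝ] ℝ :=
  ∑ i, (c * z i) • (innerSL ℝ (P i)).comp (ContinuousLinearMap.proj i)

lemma Lf_apply (z : Fin k → ℝ) (c : ℝ) (P h : Fin k → E3) :
    Lf z c P h = c * ∑ i, z i * ⟪h i, P i⟫ := by
  unfold Lf
  rw [sum_apply, Finset.mul_sum]
  refine Finset.sum_congr rfl fun i _ => ?_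
  simp only [smul_apply, ContinuousLinearMap.comp_apply,
    ContinuousLinearMap.proj_apply, innerSL_apply_apply, smul_eq_mul]
  rw [real_inner_comm]; ring

lemma continuous_Lf (z : Fin k → ℝ) (c : ℝ) : Continuous (Lf z c) := by
  unfold Lf
  refine continuous_finsetSum _ fun i _ => ?_
  have h1 : Continuous (fun P : Fin k → E3 => innerSL ℝ (P i)) :=
    (innerSL ℝ).continuous.comp (continuous_apply i)
  have h2 : Continuous (fun P : Fin k → E3 => (innerSL ℝ (P i)).comp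
      (ContinuousLinearMap.proj (R := ℝ) (φ := fun _ : Fin k => E3) i)) :=
    h1.clm_comp continuous_const
  exact h2.const_smul (c * z i)

section Family

variable {γ lam : ℝ} {z : Fin k → ℝ} {ρ : (Fin k → E3) → E3 → ℝ}

lemma joint_Phi (hγ : 0 < γ) (hl : 0 < lam) (hz : ∀ i, 0 < z i)
    (hρ : ∀ R, RMin γ lam z R (ρ R)) {R0 : Fin k → E3} (h0 : R0 ∈ Omega k) (i : Fin k) :
    Tendsto (fun p : (Fin k → E3) × (Fin k → E3) => Phi z p.1 (ww γ lam z p.2 (ρ p.2)) i)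
      (𝓝 R0 ×ˢ 𝓝 R0) (𝓝 (Phi z R0 (ww γ lam z R0 (ρ R0)) i)) := by
  obtain ⟨d, hd, hs⟩ := sep_of_mem h0
  obtain ⟨M, hM⟩ := ww_bdd hγ hl hz hρ R0
  exact tendsto_Phi (M := M) hz hd tendsto_fst (tendsto_fst.eventually hs) hs.self_of_nhds
    (fun p => (continuous_ww (hρ p.2)).measurable) (continuous_ww (hρ R0)).measurable
    ((tendsto_snd.eventually hM).mono fun p hp x => ⟨ww_nonneg hγ hl (hρ p.2) x, hp x⟩)
    (fun x => ⟨ww_nonneg hγ hl (hρ R0) x, hM.self_of_nhds x⟩)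
    (fun x => (tendsto_ww hγ hl hz hρ R0 x).comp tendsto_snd) i

theorem hasFDerivAt_elec (hγ : 0 < γ) (hl : 0 < lam) (hz : ∀ i, 0 < z i) (hZ : lam ≤ ∑ i, z i)
    (hρ : ∀ R, RMin γ lam z R (ρ R)) {R0 : Fin k → E3} (h0 : R0 ∈ Omega k) :
    HasFDerivAt (elec γ lam z)
      (Lf z (-γ ^ (-(3 / 2) : ℝ)) (fun i => Phi z R0 (ww γ lam z R0 (ρ R0)) i)) R0 := by
  set P : Fin k → E3 := fun i => Phi z R0 (ww γ lam z R0 (ρ R0)) i with hP
  set c : ℝ := γ ^ (-(3 / 2) : ℝ) with hc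
  have hc0 : 0 < c := by positivity
  set Z : ℝ := ∑ j, z j with hZd
  have hZ0 : 0 < Z := hl.trans_le hZ
  rw [hasFDerivAt_iff_isLittleO, Asymptotics.isLittleO_iff]
  intro η hη
  obtain ⟨d, hd, hs⟩ := sep_of_mem h0
  obtain ⟨M, hM⟩ := ww_bdd hγ hl hz hρ R0
  set ε : ℝ := η / (c * Z) with hε
  have hε0 : 0 < ε := by positivity
  have hj : ∀ᶠ p : (Fin k → E3) × (Fin k → E3) in 𝓝 R0 ×ˢ 𝓝 R0, ∀ i,
      ‖Phi z p.1 (ww γ lam z p.2 (ρ p.2)) i - P i‖ ≤ ε := eventually_all.2 fun i =>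
    (tendsto_iff_norm_sub_tendsto_zero.1 (joint_Phi hγ hl hz hρ h0 i)).eventually
      (Iic_mem_nhds hε0)
  obtain ⟨pa, hpa, pb, hpb, hpp⟩ := eventually_prod_iff.1 hj
  obtain ⟨δ, hδ, hball⟩ := Metric.eventually_nhds_iff_ball.1 (hs.and (hM.and (hpa.and hpb)))
  have key : ∀ R ∈ ball R0 δ, ∀ S ∈ ball R0 δ,
      elec γ lam z R + Lf z (-c) P (S - R) - η * ‖S - R‖ ≤ elec γ lam z S := by
    intro R hR S hS
    have hseg : ∀ t ∈ Icc (0 : ℝ) 1, R + t • (S - R) ∈ ball R0 δ := fun t ht =>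
      (convex_ball R0 δ).add_smul_sub_mem hR hS ht
    obtain ⟨q, hq, hb⟩ := seg_estimate (M := M) (R := R) (h := S - R) (P := P) (ε := ε) hz hd
      (fun x => ⟨ww_nonneg hγ hl (hρ R) x, (hball R hR).2.1 x⟩) (continuous_ww (hρ R)).measurable
      (fun t ht => (hball _ (hseg t ht)).1)
      (fun t ht => hpp (hball _ (hseg t ht)).2.2.1 (hball R hR).2.2.2)
    rw [add_sub_cancel] at hq
    have h1 := support_ineq hγ hl hZ (hρ R) (hρ S) hq
    rw [elec_eq hγ hZ (hρ R), elec_eq hγ hZ (hρ S), Lf_apply]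
    have h2 := mul_le_mul_of_nonneg_left ((le_abs_self _).trans hb) (show 0 ≤ 2 / 5 * c by positivity)
    have h3 : 2 / 5 * c * (5 / 2 * (Z * (‖S - R‖ * ε))) = η * ‖S - R‖ := by
      rw [hε]; field_simp
    rw [← hZd, h3] at h2
    linarith
  filter_upwards [ball_mem_nhds R0 hδ] with S hS
  have a := key R0 (mem_ball_self hδ) S hS
  have b := key S hS R0 (mem_ball_self hδ)
  rw [← neg_sub S R0, map_neg, norm_neg] at b
  rw [Real.norm_eq_abs, abs_le]
  constructor <;> linarith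

theorem contDiffOn_elec (hγ : 0 < γ) (hl : 0 < lam) (hz : ∀ i, 0 < z i) (hZ : lam ≤ ∑ i, z i) :
    ContDiffOn ℝ 1 (elec γ lam z) (Omega k) := by
  choose ρ hρ using fun R => exists_RMin hγ hz hl.le R
  intro R0 h0
  refine ContDiffAt.contDiffWithinAt (contDiffAt_one_iff.2 ⟨fun R => Lf z (-γ ^ (-(3 / 2) : ℝ))
    (fun i => Phi z R (ww γ lam z R (ρ R)) i), Omega k, (isOpen_Omega k).mem_nhds h0, ?_,
    fun R hR => hasFDerivAt_elec hγ hl hz hZ hρ hR⟩)
  intro R hR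
  have h1 : Tendsto (fun S : Fin k → E3 => fun i => Phi z S (ww γ lam z S (ρ S)) i) (𝓝 R)
      (𝓝 fun i => Phi z R (ww γ lam z R (ρ R)) i) := by
    refine tendsto_pi_nhds.2 fun i => ?_
    have h2 : Tendsto (fun S : Fin k → E3 => (S, S)) (𝓝 R) (𝓝 R ×ˢ 𝓝 R) :=
      tendsto_id.prodMk tendsto_id
    have h3 := (joint_Phi hγ hl hz hρ hR i).comp h2
    exact h3
  have h4 := ((continuous_Lf z (-γ ^ (-(3 / 2) : ℝ))).tendsto _).comp h1
  exact ContinuousAt.continuousWithinAt h4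

theorem hasGradientAt_elec (hγ : 0 < γ) (hl : 0 < lam) (hz : ∀ i, 0 < z i) (hZ : lam ≤ ∑ i, z i)
    {R : Fin k → E3} (hR : R ∈ Omega k) {g : E3 → ℝ} (hg : RMin γ lam z R g) (i : Fin k) :
    HasGradientAt (fun y => elec γ lam z (Function.update R i y))
      (-z i • (γ ^ (-(3 / 2) : ℝ) • Phi z R (ww γ lam z R g) i)) (R i) := by
  choose ρ hρ using fun R => exists_RMin hγ hz hl.le R
  have hρ' : ∀ S, RMin γ lam z S (Function.update ρ R g S) := fun S => by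
    by_cases h : S = R
    · subst h; rwa [Function.update_self]
    · rw [Function.update_of_ne h]; exact hρ S
  have h1 := hasFDerivAt_elec hγ hl hz hZ hρ' hR
  rw [Function.update_self] at h1
  have h2 := hasFDerivAt_update (𝕜 := ℝ) R (i := i) (R i)
  rw [← Function.update_eq_self i R] at h1
  have h3 := h1.comp (R i) h2
  rw [Function.update_eq_self] at h3
  rw [hasGradientAt_iff_hasFDerivAt]
  refine h3.congr_fderiv ?_
  ext v
  rw [ContinuousLinearMap.comp_apply, Lf_apply, Finset.sum_eq_single i]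
  · simp only [ContinuousLinearMap.pi_apply, Pi.single_eq_same, ContinuousLinearMap.id_apply,
      InnerProductSpace.toDual_apply_apply, real_inner_smul_left]
    rw [real_inner_comm]; ring
  · intro j _ hj
    simp [Pi.single_eq_of_ne hj]
  · intro h; exact absurd (Finset.mem_univ i) h

end Family

end

end Pool.Agent.Lib.MP_689e73_mp
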