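import Mathlib

open Filter Topology Set

namespace Pool.Agent.Lib.MP_689e73_mp

noncomputable section

def fp (u : ℝ) : ℝ := (max u 0) ^ (5 / 2 : ℝ)
def gp (u : ℝ) : ℝ := (max u 0) ^ (3 / 2 : ℝ)

lemma fp_nonneg (u : ℝ) : 0 ≤ fp u := Real.rpow_nonneg (le_max_right _ _) _
lemma gp_nonneg (u : ℝ) : 0 ≤ gp u := Real.rpow_nonneg (le_max_right _ _) _

lemma continuous_fp : Continuous fp :=
  (continuous_id.max continuous_const).rpow_const (fun _ => Or.inr (by norm_num))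
lemma continuous_gp : Continuous gp :=
  (continuous_id.max continuous_const).rpow_const (fun _ => Or.inr (by norm_num))

lemma gp_mono {u v : ℝ} (h : u ≤ v) : gp u ≤ gp v :=
  Real.rpow_le_rpow (le_max_right _ _) (max_le_max h le_rfl) (by norm_num)

lemma gp_of_nonneg {u : ℝ} (h : 0 ≤ u) : gp u = u ^ (3 / 2 : ℝ) := by
  simp [gp, max_eq_left h]

lemma fp_of_nonneg {u : ℝ} (h : 0 ≤ u) : fp u = u ^ (5 / 2 : ℝ) := by
  simp [fp, max_eq_left h]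

lemma fp_of_nonpos {u : ℝ} (h : u ≤ 0) : fp u = 0 := by
  simp [fp, max_eq_right h]

lemma gp_of_nonpos {u : ℝ} (h : u ≤ 0) : gp u = 0 := by
  simp [gp, max_eq_right h]

lemma fp_mono {u v : ℝ} (h : u ≤ v) : fp u ≤ fp v :=
  Real.rpow_le_rpow (le_max_right _ _) (max_le_max h le_rfl) (by norm_num)

lemma young_sharp {θ a b : ℝ} (hθ : 0 < θ) (ha : 0 ≤ a) (hb : 0 ≤ b) :
    a * b ≤ 3 / 5 * θ * a ^ (5 / 3 : ℝ) + 2 / 5 * θ ^ (-(3 / 2) : ℝ) * b ^ (5 / 2 : ℝ) := by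
  have hc : (5 / 3 : ℝ).HolderConjugate (5 / 2) := by
    rw [Real.holderConjugate_iff]; norm_num
  have h1 : 0 ≤ θ ^ (3 / 5 : ℝ) * a := by positivity
  have h2 : 0 ≤ θ ^ (-(3 / 5) : ℝ) * b := by positivity
  have := Real.young_inequality_of_nonneg h1 h2 hc
  have e0 : θ ^ (3 / 5 : ℝ) * a * (θ ^ (-(3 / 5) : ℝ) * b) = a * b := by
    have : θ ^ (3 / 5 : ℝ) * θ ^ (-(3 / 5) : ℝ) = 1 := by
      rw [← Real.rpow_add hθ]; norm_num
    calc _ = (θ ^ (3 / 5 : ℝ) * θ ^ (-(3 / 5) : ℝ)) * (a * b) := by ring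
      _ = _ := by rw [this, one_mul]
  have e1 : (θ ^ (3 / 5 : ℝ) * a) ^ (5 / 3 : ℝ) = θ * a ^ (5 / 3 : ℝ) := by
    rw [Real.mul_rpow (by positivity) ha, ← Real.rpow_mul hθ.le]; norm_num
  have e2 : (θ ^ (-(3 / 5) : ℝ) * b) ^ (5 / 2 : ℝ) = θ ^ (-(3 / 2) : ℝ) * b ^ (5 / 2 : ℝ) := by
    rw [Real.mul_rpow (by positivity) hb, ← Real.rpow_mul hθ.le]; norm_num
  rw [e0, e1, e2] at this
  linarith

lemma young53 {θ a b : ℝ} (hθ : 0 < θ) (ha : 0 ≤ a) (hb : 0 ≤ b) :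
    a * b ≤ θ * a ^ (5 / 3 : ℝ) + θ ^ (-(3 / 2) : ℝ) * b ^ (5 / 2 : ℝ) := by
  have := young_sharp hθ ha hb
  have h1 : 0 ≤ θ * a ^ (5 / 3 : ℝ) := by positivity
  have h2 : 0 ≤ θ ^ (-(3 / 2) : ℝ) * b ^ (5 / 2 : ℝ) := by positivity
  nlinarith

lemma young_TF {γ a : ℝ} (hγ : 0 < γ) (ha : 0 ≤ a) (u : ℝ) :
    a * u ≤ 3 / 5 * γ * a ^ (5 / 3 : ℝ) + 2 / 5 * γ ^ (-(3 / 2) : ℝ) * fp u := by
  have := young_sharp hγ ha (le_max_right u 0)
  have h2 : a * u ≤ a * max u 0 := mul_le_mul_of_nonneg_left (le_max_left _ _) ha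
  unfold fp
  linarith

lemma eq_gp {γ a u : ℝ} (hγ : 0 < γ) (ha : 0 ≤ a) (h : γ * a ^ (2 / 3 : ℝ) = max u 0) :
    a = γ ^ (-(3 / 2) : ℝ) * gp u := by
  unfold gp
  rw [← h, Real.mul_rpow hγ.le (by positivity), ← Real.rpow_mul ha, ← mul_assoc,
    ← Real.rpow_add hγ]
  norm_num

lemma young_TF_eq {γ a u : ℝ} (hγ : 0 < γ) (ha : 0 ≤ a) (h : γ * a ^ (2 / 3 : ℝ) = max u 0) :
    a * u = 3 / 5 * γ * a ^ (5 / 3 : ℝ) + 2 / 5 * γ ^ (-(3 / 2) : ℝ) * fp u := by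
  have h53 : a ^ (5 / 3 : ℝ) = a * a ^ (2 / 3 : ℝ) := by
    rw [show (5 / 3 : ℝ) = 1 + 2 / 3 by norm_num, Real.rpow_add' ha (by norm_num), Real.rpow_one]
  have hf : γ ^ (-(3 / 2) : ℝ) * fp u = γ * a ^ (5 / 3 : ℝ) := by
    unfold fp
    rw [← h, Real.mul_rpow hγ.le (by positivity), ← Real.rpow_mul ha, ← mul_assoc,
      ← Real.rpow_add hγ]
    norm_num
  have hu : a * u = a * max u 0 := by
    rcases le_total 0 u with hu | hu
    · rw [max_eq_left hu]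
    · rw [max_eq_right hu] at h ⊢
      have : a ^ (2 / 3 : ℝ) = 0 := by
        rcases mul_eq_zero.1 h with h | h
        · exact absurd h hγ.ne'
        · exact h
      have ha0 : a = 0 := by
        rw [Real.rpow_eq_zero ha (by norm_num)] at this
        exact this
      simp [ha0]
  rw [hu, ← h, mul_assoc (2 / 5 : ℝ), hf, h53]
  ring

lemma hasDerivAt_fp (u : ℝ) : HasDerivAt fp (5 / 2 * gp u) u := by
  rcases lt_trichotomy u 0 with hu | hu | hu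
  · have : fp =ᶠ[𝓝 u] fun _ => (0 : ℝ) := by
      filter_upwards [Iio_mem_nhds hu] with v hv
      exact fp_of_nonpos (le_of_lt hv)
    rw [gp_of_nonpos hu.le, mul_zero]
    exact (hasDerivAt_const u (0 : ℝ)).congr_of_eventuallyEq this
  · subst hu
    rw [gp_of_nonpos le_rfl, mul_zero, hasDerivAt_iff_isLittleO_nhds_zero]
    simp only [zero_add, fp_of_nonpos le_rfl, sub_zero, smul_zero]
    rw [Asymptotics.isLittleO_iff]
    intro c hc
    have ht : Tendsto gp (𝓝 0) (𝓝 0) := by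
      have := continuous_gp.tendsto 0
      rwa [gp_of_nonpos le_rfl] at this
    filter_upwards [ht.eventually (Iio_mem_nhds hc)] with v hv
    have hv' : gp v < c := hv
    have e : fp v = max v 0 * gp v := by
      unfold fp gp
      rw [show (5 / 2 : ℝ) = 1 + 3 / 2 by norm_num, Real.rpow_add' (le_max_right _ _) (by norm_num),
        Real.rpow_one]
    rw [Real.norm_of_nonneg (fp_nonneg v), e, Real.norm_eq_abs]
    have h1 : max v 0 ≤ |v| := max_le (le_abs_self v) (abs_nonneg v)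
    have h2 := gp_nonneg v
    have h3 : 0 ≤ max v 0 := le_max_right _ _
    nlinarith [abs_nonneg v]
  · have : fp =ᶠ[𝓝 u] fun v => v ^ (5 / 2 : ℝ) := by
      filter_upwards [Ioi_mem_nhds hu] with v hv
      exact fp_of_nonneg (le_of_lt hv)
    rw [gp_of_nonneg hu.le]
    have h := Real.hasDerivAt_rpow_const (x := u) (p := 5 / 2) (Or.inl hu.ne')
    rw [show (5 / 2 : ℝ) - 1 = 3 / 2 by norm_num] at h
    exact h.congr_of_eventuallyEq this

lemma rpow_three_halves {a : ℝ} (ha : 0 ≤ a) : a ^ (3 / 2 : ℝ) = √a ^ 3 := by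
  rw [Real.sqrt_eq_rpow, ← Real.rpow_natCast, ← Real.rpow_mul ha]; norm_num

lemma gp_lip {u v B : ℝ} (hu : max u 0 ≤ B) (hv : max v 0 ≤ B) :
    |gp u - gp v| ≤ 2 * √B * |u - v| := by
  have hu0 : 0 ≤ max u 0 := le_max_right _ _
  have hv0 : 0 ≤ max v 0 := le_max_right _ _
  unfold gp
  rw [rpow_three_halves hu0, rpow_three_halves hv0]
  have hd : |max u 0 - max v 0| ≤ |u - v| := abs_max_sub_max_le_abs u v 0
  set α := √(max u 0) with hα
  set β := √(max v 0) with hβ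
  have hα0 : 0 ≤ α := Real.sqrt_nonneg _
  have hβ0 : 0 ≤ β := Real.sqrt_nonneg _
  have hαB : α ≤ √B := Real.sqrt_le_sqrt hu
  have hβB : β ≤ √B := Real.sqrt_le_sqrt hv
  have e1 : max u 0 = α ^ 2 := (Real.sq_sqrt hu0).symm
  have e2 : max v 0 = β ^ 2 := (Real.sq_sqrt hv0).symm
  rw [e1, e2] at hd
  have f1 : α ^ 3 - β ^ 3 = (α - β) * (α ^ 2 + α * β + β ^ 2) := by ring
  have f2 : α ^ 2 - β ^ 2 = (α - β) * (α + β) := by ring
  rw [f2, abs_mul, abs_of_nonneg (by positivity : 0 ≤ α + β)] at hd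
  rw [f1, abs_mul, abs_of_nonneg (by positivity : 0 ≤ α ^ 2 + α * β + β ^ 2)]
  have g1 : α ^ 2 + α * β + β ^ 2 ≤ (α + β) * (2 * √B) := by nlinarith [mul_nonneg hα0 hβ0]
  have h0 := abs_nonneg (α - β)
  calc |α - β| * (α ^ 2 + α * β + β ^ 2) ≤ |α - β| * ((α + β) * (2 * √B)) :=
        mul_le_mul_of_nonneg_left g1 h0
    _ = (|α - β| * (α + β)) * (2 * √B) := by ring
    _ ≤ |u - v| * (2 * √B) := mul_le_mul_of_nonneg_right hd (by positivity)
    _ = _ := by ring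

lemma abs_rpow_sub_le {a b : ℝ} (ha : 0 ≤ a) (hb : 0 ≤ b) :
    |b ^ (2 / 3 : ℝ) - a ^ (2 / 3 : ℝ)| ≤ |b - a| ^ (2 / 3 : ℝ) := by
  have key : ∀ x y : ℝ, 0 ≤ x → x ≤ y →
      |y ^ (2 / 3 : ℝ) - x ^ (2 / 3 : ℝ)| ≤ |y - x| ^ (2 / 3 : ℝ) := by
    intro x y hx hxy
    have h1 : x ^ (2 / 3 : ℝ) ≤ y ^ (2 / 3 : ℝ) := Real.rpow_le_rpow hx hxy (by norm_num)
    have h2 := Real.rpow_add_le_add_rpow (p := 2 / 3) hx (sub_nonneg.2 hxy) (by norm_num)
      (by norm_num)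
    rw [add_sub_cancel] at h2
    rw [abs_of_nonneg (sub_nonneg.2 h1), abs_of_nonneg (sub_nonneg.2 hxy)]
    linarith
  rcases le_total a b with h | h
  · exact key a b ha h
  · rw [abs_sub_comm, abs_sub_comm b a]; exact key b a hb h

lemma taylor53 {a b : ℝ} (ha : 0 ≤ a) (hb : 0 ≤ b) :
    |b ^ (5 / 3 : ℝ) - a ^ (5 / 3 : ℝ) - 5 / 3 * a ^ (2 / 3 : ℝ) * (b - a)|
      ≤ 5 / 3 * |b - a| ^ (5 / 3 : ℝ) := by
  have hd : ∀ x ∈ uIcc a b, HasDerivWithinAt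
      (fun x : ℝ => x ^ (5 / 3 : ℝ) - 5 / 3 * a ^ (2 / 3 : ℝ) * x)
      (5 / 3 * (x ^ (2 / 3 : ℝ) - a ^ (2 / 3 : ℝ))) (uIcc a b) x := by
    intro x _
    have h := Real.hasDerivAt_rpow_const (x := x) (p := 5 / 3) (Or.inr (by norm_num))
    rw [show (5 / 3 : ℝ) - 1 = 2 / 3 by norm_num] at h
    exact ((h.sub ((hasDerivAt_id x).const_mul (5 / 3 * a ^ (2 / 3 : ℝ)))).congr_deriv
      (by ring)).hasDerivWithinAt
  have hb' : ∀ x ∈ uIcc a b, ‖(5 / 3 * (x ^ (2 / 3 : ℝ) - a ^ (2 / 3 : ℝ)) : ℝ)‖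
      ≤ 5 / 3 * |b - a| ^ (2 / 3 : ℝ) := by
    intro x hx
    have hx0 : 0 ≤ x := le_trans (le_min ha hb) hx.1
    have hxa : |x - a| ≤ |b - a| := abs_sub_left_of_mem_uIcc hx
    rw [Real.norm_eq_abs, abs_mul, abs_of_pos (by norm_num : (0 : ℝ) < 5 / 3)]
    have := (abs_rpow_sub_le ha hx0).trans
      (Real.rpow_le_rpow (abs_nonneg _) hxa (by norm_num : (0 : ℝ) ≤ 2 / 3))
    linarith
  have := (convex_uIcc a b).norm_image_sub_le_of_norm_hasDerivWithin_le hd hb'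
    left_mem_uIcc right_mem_uIcc
  rw [Real.norm_eq_abs, Real.norm_eq_abs] at this
  have e : |b - a| ^ (5 / 3 : ℝ) = |b - a| ^ (2 / 3 : ℝ) * |b - a| := by
    rw [show (5 / 3 : ℝ) = 2 / 3 + 1 by norm_num, Real.rpow_add' (abs_nonneg _) (by norm_num),
      Real.rpow_one]
  rw [e]
  calc _ = |b ^ (5 / 3 : ℝ) - 5 / 3 * a ^ (2 / 3 : ℝ) * b -
        (a ^ (5 / 3 : ℝ) - 5 / 3 * a ^ (2 / 3 : ℝ) * a)| := by congr 1; ring
    _ ≤ _ := this
    _ = _ := by ring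

def gap (a b : ℝ) : ℝ := (a ^ (5 / 3 : ℝ) + b ^ (5 / 3 : ℝ)) / 2 - ((a + b) / 2) ^ (5 / 3 : ℝ)

lemma gap_pos {a b : ℝ} (ha : 0 ≤ a) (hb : 0 ≤ b) (hab : a ≠ b) : 0 < gap a b := by
  have h0 := strictConvexOn_rpow (p := 5 / 3) (by norm_num)
  have h := h0.2 (show a ∈ Ici (0 : ℝ) from ha) (show b ∈ Ici (0 : ℝ) from hb) hab
    (show (0 : ℝ) < 1 / 2 by norm_num) (show (0 : ℝ) < 1 / 2 by norm_num) (by norm_num)
  simp only [smul_eq_mul] at h
  unfold gap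
  have e : (a + b) / 2 = 1 / 2 * a + 1 / 2 * b := by ring
  rw [e]
  linarith

lemma gap_nonneg {a b : ℝ} (ha : 0 ≤ a) (hb : 0 ≤ b) : 0 ≤ gap a b := by
  by_cases hab : a = b
  · subst hab; simp [gap]
  · exact (gap_pos ha hb hab).le

lemma gap_smul {s a b : ℝ} (hs : 0 ≤ s) (ha : 0 ≤ a) (hb : 0 ≤ b) :
    gap (s * a) (s * b) = s ^ (5 / 3 : ℝ) * gap a b := by
  unfold gap
  have e : (s * a + s * b) / 2 = s * ((a + b) / 2) := by ring
  rw [e, Real.mul_rpow hs ha, Real.mul_rpow hs hb, Real.mul_rpow hs (by positivity)]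
  ring

lemma continuous_gap : Continuous (fun p : ℝ × ℝ => gap p.1 p.2) := by
  unfold gap
  have h : Continuous (fun x : ℝ => x ^ (5 / 3 : ℝ)) :=
    continuous_id.rpow_const (fun _ => Or.inr (by norm_num))
  exact (((h.comp continuous_fst).add (h.comp continuous_snd)).div_const 2).sub
    (h.comp ((continuous_fst.add continuous_snd).div_const 2))

lemma gap_bound {ε : ℝ} (hε : 0 < ε) : ∃ C : ℝ, 0 < C ∧ ∀ a b : ℝ, 0 ≤ a → 0 ≤ b →
    |a - b| ^ (5 / 3 : ℝ) ≤ ε * (a ^ (5 / 3 : ℝ) + b ^ (5 / 3 : ℝ)) + C * gap a b := by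
  -- normalise by the maximum
  set δ : ℝ := min (ε ^ (3 / 5 : ℝ)) (1 / 2) with hδ
  have hδ0 : 0 < δ := lt_min (by positivity) (by norm_num)
  have hδε : δ ^ (5 / 3 : ℝ) ≤ ε := by
    calc δ ^ (5 / 3 : ℝ) ≤ (ε ^ (3 / 5 : ℝ)) ^ (5 / 3 : ℝ) :=
          Real.rpow_le_rpow hδ0.le (min_le_left _ _) (by norm_num)
      _ = ε := by rw [← Real.rpow_mul hε.le]; norm_num
  have hK : IsCompact (Icc (0 : ℝ) (1 - δ)) := isCompact_Icc
  have hne : (Icc (0 : ℝ) (1 - δ)).Nonempty := ⟨0, le_rfl, by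
    have : δ ≤ 1 / 2 := min_le_right _ _
    linarith⟩
  have hc : ContinuousOn (fun t : ℝ => gap 1 t) (Icc (0 : ℝ) (1 - δ)) :=
    (continuous_gap.comp (continuous_const.prodMk continuous_id)).continuousOn
  obtain ⟨t0, ht0, hmin⟩ := hK.exists_isMinOn hne hc
  have hm : 0 < gap 1 t0 := gap_pos zero_le_one ht0.1 (by
    intro h; have := ht0.2; linarith)
  set m := gap 1 t0 with hmdef
  have key : ∀ a b : ℝ, 0 ≤ b → b ≤ a →
      |a - b| ^ (5 / 3 : ℝ) ≤ ε * (a ^ (5 / 3 : ℝ) + b ^ (5 / 3 : ℝ)) + 1 / m * gap a b := by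
    intro a b hb hba
    have ha : 0 ≤ a := hb.trans hba
    have hg := gap_nonneg ha hb
    have hA : 0 ≤ a ^ (5 / 3 : ℝ) := by positivity
    have hB : 0 ≤ b ^ (5 / 3 : ℝ) := by positivity
    rcases ha.eq_or_lt with ha0 | ha0
    · have hb0 : b = 0 := le_antisymm (ha0 ▸ hba) hb
      subst ha0; subst hb0
      simp [gap]
    by_cases hcase : a - b ≤ δ * a
    · have : |a - b| ^ (5 / 3 : ℝ) ≤ ε * a ^ (5 / 3 : ℝ) := by
        rw [abs_of_nonneg (sub_nonneg.2 hba)]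
        calc (a - b) ^ (5 / 3 : ℝ) ≤ (δ * a) ^ (5 / 3 : ℝ) :=
              Real.rpow_le_rpow (sub_nonneg.2 hba) hcase (by norm_num)
          _ = δ ^ (5 / 3 : ℝ) * a ^ (5 / 3 : ℝ) := Real.mul_rpow hδ0.le ha
          _ ≤ _ := mul_le_mul_of_nonneg_right hδε hA
      have h2 : 0 ≤ 1 / m * gap a b := by positivity
      nlinarith [mul_nonneg hε.le hB]
    · push Not at hcase
      have ht : b / a ∈ Icc (0 : ℝ) (1 - δ) := by
        refine ⟨by positivity, ?_⟩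
        rw [div_le_iff₀ ha0]; nlinarith
      have h1 : m ≤ gap 1 (b / a) := hmin ht
      have h2 : gap a b = a ^ (5 / 3 : ℝ) * gap 1 (b / a) := by
        rw [← gap_smul ha zero_le_one ht.1, mul_one, mul_div_cancel₀ _ ha0.ne']
      have h3 : |a - b| ^ (5 / 3 : ℝ) ≤ a ^ (5 / 3 : ℝ) := by
        rw [abs_of_nonneg (sub_nonneg.2 hba)]
        exact Real.rpow_le_rpow (sub_nonneg.2 hba) (by linarith) (by norm_num)
      have h4 : a ^ (5 / 3 : ℝ) ≤ 1 / m * gap a b := by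
        rw [h2, one_div, ← mul_assoc, mul_comm m⁻¹, mul_assoc]
        have : 1 ≤ m⁻¹ * gap 1 (b / a) := by
          rw [← div_eq_inv_mul, le_div_iff₀ hm]; linarith
        nlinarith
      nlinarith [mul_nonneg hε.le hB, mul_nonneg hε.le hA]
  refine ⟨1 / m, by positivity, fun a b ha hb => ?_⟩
  rcases le_total b a with h | h
  · exact key a b hb h
  · have := key b a ha h
    have e : gap b a = gap a b := by unfold gap; rw [add_comm b a, add_comm (b ^ (5 / 3 : ℝ))]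
    rw [abs_sub_comm, e, add_comm (b ^ (5 / 3 : ℝ))] at this
    exact this

end

end Pool.Agent.Lib.MP_689e73_mp
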