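import Pool.Agent.Lib.MP_689e73_mp.Defs
import Pool.Agent.Lib.MP_689e73_mp.Ineq

open MeasureTheory Filter Topology Set Metric

namespace Pool.Agent.Lib.MP_689e73_mp

noncomputable section

lemma finrank_E3 : Module.finrank ℝ E3 = 3 := by simp [E3]

lemma integrableOn_rpow_ball {α : ℝ} (hα : α < 3) (r : ℝ) :
    IntegrableOn (fun y : E3 => ‖y‖ ^ (-α)) (ball 0 r) := by
  refine integrableOn_ball_of_norm_le_rpow (C := 1) (α := α) (by rw [finrank_E3]; norm_num)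
    (by rw [finrank_E3]; exact_mod_cast hα) (Eventually.of_forall fun y => ?_) ?_
  · rw [Real.norm_of_nonneg (by positivity), one_mul]
  · exact (measurable_norm.pow_const _).aestronglyMeasurable

/-- The dominating kernel. -/
def kap (y : E3) : ℝ := ‖y‖ ^ (-(5 / 2) : ℝ) * (1 + ‖y‖)⁻¹

lemma kap_nonneg (y : E3) : 0 ≤ kap y := by unfold kap; positivity

lemma measurable_kap : Measurable kap := by
  unfold kap
  exact (measurable_norm.pow_const _).mul (measurable_const.add measurable_norm).inv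

lemma integrable_kap : Integrable kap := by
  rw [← integrableOn_univ, ← union_compl_self (ball (0 : E3) 1)]
  refine IntegrableOn.union ?_ ?_
  · refine Integrable.mono' (integrableOn_rpow_ball (α := 5 / 2) (by norm_num) 1)
      measurable_kap.aestronglyMeasurable (Eventually.of_forall fun y => ?_)
    rw [Real.norm_of_nonneg (kap_nonneg y)]
    unfold kap
    have h1 : (1 + ‖y‖)⁻¹ ≤ 1 := inv_le_one_of_one_le₀ (by linarith [norm_nonneg y])
    have h2 : 0 ≤ ‖y‖ ^ (-(5 / 2) : ℝ) := by positivity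
    nlinarith
  · have hint : Integrable (fun y : E3 => (1 + ‖y‖) ^ (-(7 / 2) : ℝ)) := by
      have := integrable_one_add_norm (E := E3) (μ := volume) (r := 7 / 2)
        (by rw [finrank_E3]; norm_num)
      exact this
    refine Integrable.mono' ((hint.const_mul ((2 : ℝ) ^ (5 / 2 : ℝ))).integrableOn)
      measurable_kap.aestronglyMeasurable ?_
    refine (ae_restrict_iff' measurableSet_ball.compl).2 (Eventually.of_forall fun y hy => ?_)
    have hy1 : 1 ≤ ‖y‖ := by simpa using hy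
    rw [Real.norm_of_nonneg (kap_nonneg y)]
    unfold kap
    have hp : 0 < 1 + ‖y‖ := by linarith
    have h1 : ‖y‖ ^ (-(5 / 2) : ℝ) ≤ ((1 + ‖y‖) / 2) ^ (-(5 / 2) : ℝ) :=
      Real.rpow_le_rpow_of_nonpos (by positivity) (by linarith) (by norm_num)
    have h2 : ((1 + ‖y‖) / 2) ^ (-(5 / 2) : ℝ) = 2 ^ (5 / 2 : ℝ) * (1 + ‖y‖) ^ (-(5 / 2) : ℝ) := by
      rw [Real.div_rpow hp.le (by norm_num), Real.rpow_neg (by norm_num : (0 : ℝ) ≤ 2)]
      field_simp
    have h3 : (1 + ‖y‖) ^ (-(7 / 2) : ℝ) = (1 + ‖y‖) ^ (-(5 / 2) : ℝ) * (1 + ‖y‖)⁻¹ := by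
      rw [← Real.rpow_neg_one, ← Real.rpow_add hp]; norm_num
    rw [h3, ← mul_assoc, ← h2]
    exact mul_le_mul_of_nonneg_right h1 (by positivity)

lemma continuousAt_kap {y : E3} (hy : y ≠ 0) : ContinuousAt kap y := by
  unfold kap
  have h : ‖y‖ ≠ 0 := norm_ne_zero_iff.2 hy
  refine (continuous_norm.continuousAt.rpow_const (Or.inl h)).mul ?_
  exact (continuous_const.add continuous_norm).continuousAt.inv₀
    (by have := norm_nonneg y; simp only [Pi.add_apply]; positivity)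

lemma ae_ne (c : E3) : ∀ᵐ y : E3, y ≠ c := by
  have : (volume : Measure E3) {c} = 0 := measure_singleton c
  exact compl_mem_ae_iff.2 this

/-- Generalised dominated convergence. -/
lemma pratt {ι X F : Type*} [MeasurableSpace X] {μ : Measure X} [NormedAddCommGroup F]
    [NormedSpace ℝ F] {l : Filter ι} [l.IsCountablyGenerated]
    {g : ι → X → F} {g0 : X → F} {k : ι → X → ℝ} {k0 : X → ℝ}
    (hg : ∀ᶠ n in l, AEStronglyMeasurable (g n) μ) (hg0 : AEStronglyMeasurable g0 μ)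
    (hk : ∀ᶠ n in l, Integrable (k n) μ) (hk0 : Integrable k0 μ)
    (hb : ∀ᶠ n in l, ∀ᵐ x ∂μ, ‖g n x‖ ≤ k n x) (hb0 : ∀ᵐ x ∂μ, ‖g0 x‖ ≤ k0 x)
    (hgl : ∀ᵐ x ∂μ, Tendsto (fun n => g n x) l (𝓝 (g0 x)))
    (hkl : ∀ᵐ x ∂μ, Tendsto (fun n => k n x) l (𝓝 (k0 x)))
    (hI : Tendsto (fun n => ∫ x, k n x ∂μ) l (𝓝 (∫ x, k0 x ∂μ))) :
    Tendsto (fun n => ∫ x, g n x ∂μ) l (𝓝 (∫ x, g0 x ∂μ)) := by
  have hk0n : ∀ᵐ x ∂μ, 0 ≤ k0 x := hb0.mono fun x hx => (norm_nonneg _).trans hx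
  have hg0i : Integrable g0 μ := hk0.mono' hg0 hb0
  have A : Tendsto (fun n => ∫ x, min ‖g n x - g0 x‖ (2 * k0 x) ∂μ) l (𝓝 (∫ _x, (0 : ℝ) ∂μ)) := by
    refine tendsto_integral_filter_of_dominated_convergence (fun x => 2 * k0 x) ?_ ?_
      (hk0.const_mul 2) ?_
    · filter_upwards [hg] with n hn
      exact ((hn.sub hg0).norm.aemeasurable.min
        (hk0.const_mul 2).aestronglyMeasurable.aemeasurable).aestronglyMeasurable
    · refine Eventually.of_forall fun n => hk0n.mono fun x hx => ?_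
      rw [Real.norm_of_nonneg (le_min (norm_nonneg _) (by linarith))]
      exact min_le_right _ _
    · filter_upwards [hgl, hk0n] with x hx hx0
      have h1 : Tendsto (fun n => ‖g n x - g0 x‖) l (𝓝 0) := tendsto_iff_norm_sub_tendsto_zero.1 hx
      have := h1.min (tendsto_const_nhds (x := 2 * k0 x))
      rwa [min_eq_left (by linarith)] at this
  have B : Tendsto (fun n => ∫ x, min (k n x) (k0 x) ∂μ) l (𝓝 (∫ x, k0 x ∂μ)) := by
    refine tendsto_integral_filter_of_dominated_convergence k0 ?_ ?_ hk0 ?_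
    · filter_upwards [hk] with n hn
      exact (hn.aestronglyMeasurable.aemeasurable.min
        hk0.aestronglyMeasurable.aemeasurable).aestronglyMeasurable
    · filter_upwards [hb] with n hn
      filter_upwards [hn, hk0n] with x hx hx0
      rw [Real.norm_of_nonneg (le_min ((norm_nonneg _).trans hx) hx0)]
      exact min_le_right _ _
    · filter_upwards [hkl] with x hx
      have := hx.min (tendsto_const_nhds (x := k0 x))
      rwa [min_self] at this
  have C : Tendsto (fun n => ∫ x, min ‖g n x - g0 x‖ (2 * k0 x) ∂μ +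
      (∫ x, k n x ∂μ - ∫ x, min (k n x) (k0 x) ∂μ)) l (𝓝 0) := by
    have := A.add (hI.sub B)
    simpa using this
  rw [tendsto_iff_norm_sub_tendsto_zero]
  refine squeeze_zero' (Eventually.of_forall fun n => norm_nonneg _) ?_ C
  filter_upwards [hg, hk, hb] with n hn hkn hbn
  have hgi : Integrable (g n) μ := hkn.mono' hn hbn
  have hm1 : Integrable (fun x => min ‖g n x - g0 x‖ (2 * k0 x)) μ :=
    (hgi.sub hg0i).norm.inf (hk0.const_mul 2)
  have hm2 : Integrable (fun x => min (k n x) (k0 x)) μ := hkn.inf hk0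
  have hm3 : Integrable (fun x => k n x - min (k n x) (k0 x)) μ := hkn.sub hm2
  rw [← integral_sub hgi hg0i, ← integral_sub hkn hm2, ← integral_add hm1 hm3]
  refine (norm_integral_le_integral_norm _).trans (integral_mono_ae (hgi.sub hg0i).norm
    (hm1.add hm3) ?_)
  filter_upwards [hbn, hb0] with x hx hx0
  have h1 : ‖g n x - g0 x‖ ≤ k n x + k0 x := (norm_sub_le _ _).trans (add_le_add hx hx0)
  have h2 := norm_nonneg (g0 x)
  rcases le_total ‖g n x - g0 x‖ (2 * k0 x) with h | h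
  · rw [min_eq_left h]; have := min_le_left (k n x) (k0 x); linarith
  · rw [min_eq_right h]
    rcases le_total (k n x) (k0 x) with h' | h'
    · rw [min_eq_left h']; linarith
    · rw [min_eq_right h']; linarith

/-- A function with a given finite integral. -/
def HI (f : E3 → ℝ) (a : ℝ) : Prop := Integrable f ∧ ∫ x, f x = a

lemma HI.of {f : E3 → ℝ} (hf : Integrable f) : HI f (∫ x, f x) := ⟨hf, rfl⟩

lemma HI.add {f g : E3 → ℝ} {a b : ℝ} (h : HI f a) (h' : HI g b) :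
    HI (fun x => f x + g x) (a + b) :=
  ⟨h.1.add h'.1, by rw [integral_add h.1 h'.1, h.2, h'.2]⟩

lemma HI.sub {f g : E3 → ℝ} {a b : ℝ} (h : HI f a) (h' : HI g b) :
    HI (fun x => f x - g x) (a - b) :=
  ⟨h.1.sub h'.1, by rw [integral_sub h.1 h'.1, h.2, h'.2]⟩

lemma HI.const_mul {f : E3 → ℝ} {a : ℝ} (h : HI f a) (c : ℝ) :
    HI (fun x => c * f x) (c * a) :=
  ⟨h.1.const_mul c, by rw [integral_const_mul, h.2]⟩

lemma HI.sum {ι : Type*} (s : Finset ι) {f : ι → E3 → ℝ} {a : ι → ℝ}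
    (h : ∀ i ∈ s, HI (f i) (a i)) : HI (fun x => ∑ i ∈ s, f i x) (∑ i ∈ s, a i) :=
  ⟨integrable_finsetSum s fun i hi => (h i hi).1, by
    rw [integral_finsetSum s fun i hi => (h i hi).1]
    exact Finset.sum_congr rfl fun i hi => (h i hi).2⟩

lemma HI.le {f g : E3 → ℝ} {a b : ℝ} (h : HI f a) (h' : HI g b) (hle : ∀ᵐ x, f x ≤ g x) :
    a ≤ b := by
  rw [← h.2, ← h'.2]; exact integral_mono_ae h.1 h'.1 hle

lemma HI.congr {f g : E3 → ℝ} {a : ℝ} (h : HI f a) (he : ∀ᵐ x, f x = g x) : HI g a :=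
  ⟨h.1.congr he, by rw [← h.2]; exact (integral_congr_ae he).symm⟩

lemma HI.unique {f : E3 → ℝ} {a b : ℝ} (h : HI f a) (h' : HI f b) : a = b := by
  rw [← h.2, h'.2]

lemma HI.eq {f g : E3 → ℝ} {a b : ℝ} (h : HI f a) (h' : HI g b) (he : ∀ᵐ x, f x = g x) :
    a = b := (h.congr he).unique h'

lemma HI.zero : HI (fun _ => 0) 0 := ⟨integrable_zero _ _ _, integral_zero _ _⟩

/-- Truncated singular kernel. -/
def bM (M : ℝ) (y : E3) : ℝ := indicator (ball 0 M) (fun y : E3 => ‖y‖ ^ (-(5 / 2) : ℝ)) y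

lemma bM_nonneg (M : ℝ) (y : E3) : 0 ≤ bM M y :=
  indicator_nonneg (fun _ _ => by positivity) _

lemma integrable_bM (M : ℝ) : Integrable (bM M) :=
  (integrable_indicator_iff measurableSet_ball).2 (integrableOn_rpow_ball (by norm_num) M)

def Ib (M : ℝ) : ℝ := ∫ y, bM M y

lemma Ib_nonneg (M : ℝ) : 0 ≤ Ib M := integral_nonneg (bM_nonneg M)

lemma Ib_small {η : ℝ} (hη : 0 < η) : ∃ δ : ℝ, 0 < δ ∧ Ib δ ≤ η := by
  have h : Tendsto (fun δ : ℝ => ∫ y, bM δ y) (𝓝[>] 0) (𝓝 (∫ _y : E3, (0 : ℝ))) := by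
    refine tendsto_integral_filter_of_dominated_convergence (bM 1) ?_ ?_ (integrable_bM 1) ?_
    · exact Eventually.of_forall fun δ => (integrable_bM δ).aestronglyMeasurable
    · filter_upwards [Ioo_mem_nhdsGT (zero_lt_one' ℝ)] with δ hδ
      refine Eventually.of_forall fun y => ?_
      rw [Real.norm_of_nonneg (bM_nonneg _ _)]
      exact indicator_le_indicator_of_subset (ball_subset_ball hδ.2.le)
        (fun _ => by positivity) y
    · filter_upwards [ae_ne 0] with y hy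
      refine tendsto_const_nhds.congr' ?_
      have : 0 < ‖y‖ := norm_pos_iff.2 hy
      filter_upwards [Ioo_mem_nhdsGT this] with δ hδ
      unfold bM
      rw [indicator_of_notMem]
      simp only [mem_ball_zero_iff, not_lt]
      exact hδ.2.le
  rw [integral_zero] at h
  have := (h.eventually (Iic_mem_nhds hη)).and self_mem_nhdsWithin
  obtain ⟨δ, h1, h2⟩ := this.exists
  exact ⟨δ, h2, h1⟩

/-- The working class of (signed) densities. -/
structure LL (σ : E3 → ℝ) : Prop where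
  meas : Measurable σ
  int : Integrable σ
  lp : MemLp σ (5 / 3)

def KK (σ : E3 → ℝ) : ℝ := ∫ x, |σ x| ^ (5 / 3 : ℝ)
def N1 (σ : E3 → ℝ) : ℝ := ∫ x, |σ x|

lemma KK_nonneg (σ : E3 → ℝ) : 0 ≤ KK σ := integral_nonneg fun _ => by positivity
lemma N1_nonneg (σ : E3 → ℝ) : 0 ≤ N1 σ := integral_nonneg fun _ => abs_nonneg _

lemma p_toReal : (5 / 3 : ENNReal).toReal = 5 / 3 := by
  rw [ENNReal.toReal_div]; norm_num

lemma p_ne_zero : (5 / 3 : ENNReal) ≠ 0 := by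
  intro h; have := p_toReal; rw [h] at this; norm_num at this

lemma p_ne_top : (5 / 3 : ENNReal) ≠ ⊤ := by
  intro h; have := p_toReal; rw [h] at this; norm_num at this

lemma memLp_iff {σ : E3 → ℝ} (hσ : AEStronglyMeasurable σ) :
    MemLp σ (5 / 3) ↔ Integrable (fun x => |σ x| ^ (5 / 3 : ℝ)) := by
  have := memLp_norm_rpow_iff (p := 5 / 3) hσ p_ne_zero p_ne_top
  rw [ENNReal.div_self p_ne_zero p_ne_top, memLp_one_iff_integrable, p_toReal] at this
  simpa [Real.norm_eq_abs] using this.symm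

lemma LL.intK {σ : E3 → ℝ} (h : LL σ) : Integrable (fun x => |σ x| ^ (5 / 3 : ℝ)) :=
  (memLp_iff h.meas.aestronglyMeasurable).1 h.lp

lemma LL.add {σ τ : E3 → ℝ} (h : LL σ) (h' : LL τ) : LL (fun x => σ x + τ x) :=
  ⟨h.meas.add h'.meas, h.int.add h'.int, h.lp.add h'.lp⟩

lemma LL.sub {σ τ : E3 → ℝ} (h : LL σ) (h' : LL τ) : LL (fun x => σ x - τ x) :=
  ⟨h.meas.sub h'.meas, h.int.sub h'.int, h.lp.sub h'.lp⟩

lemma LL.const_mul {σ : E3 → ℝ} (h : LL σ) (c : ℝ) : LL (fun x => c * σ x) :=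
  ⟨h.meas.const_mul c, h.int.const_mul c, h.lp.const_mul c⟩

lemma LL.abs {σ : E3 → ℝ} (h : LL σ) : LL (fun x => |σ x|) :=
  ⟨h.meas.abs, h.int.abs, h.lp.abs⟩

lemma LL.zero : LL (fun _ => 0) :=
  ⟨measurable_const, integrable_zero _ _ _, MemLp.zero⟩

lemma near_bound {θ M : ℝ} (hθ : 0 < θ) (x y : E3) (a : ℝ) :
    indicator (ball x M) (fun y => ‖x - y‖⁻¹) y * |a|
      ≤ θ * |a| ^ (5 / 3 : ℝ) + θ ^ (-(3 / 2) : ℝ) * bM M (y - x) := by
  by_cases hy : y ∈ ball x M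
  · have hy' : y - x ∈ ball (0 : E3) M := by simpa [dist_eq_norm] using hy
    unfold bM
    rw [indicator_of_mem hy, indicator_of_mem hy', mul_comm]
    have := young53 hθ (abs_nonneg a) (inv_nonneg.2 (norm_nonneg (x - y)))
    rw [norm_sub_rev y x, Real.rpow_neg (norm_nonneg _), ← Real.inv_rpow (norm_nonneg _)]
    exact this
  · rw [indicator_of_notMem hy, zero_mul]
    have := bM_nonneg M (y - x)
    positivity

lemma ker_bound {θ M : ℝ} (hθ : 0 < θ) (hM : 0 < M) (x y : E3) (a : ℝ) :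
    ‖x - y‖⁻¹ * |a|
      ≤ θ * |a| ^ (5 / 3 : ℝ) + θ ^ (-(3 / 2) : ℝ) * bM M (y - x) + M⁻¹ * |a| := by
  have h := near_bound (M := M) hθ x y a
  by_cases hy : y ∈ ball x M
  · rw [indicator_of_mem hy] at h
    have : 0 ≤ M⁻¹ * |a| := by positivity
    linarith
  · rw [indicator_of_notMem hy, zero_mul] at h
    have h1 : M ≤ ‖x - y‖ := by
      rw [norm_sub_rev]; simpa [dist_eq_norm] using hy
    have h2 : ‖x - y‖⁻¹ ≤ M⁻¹ := inv_anti₀ hM h1
    nlinarith [abs_nonneg a]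

lemma integrable_bM_sub (M : ℝ) (x : E3) : Integrable (fun y => bM M (y - x)) :=
  (integrable_bM M).comp_sub_right x

lemma integral_bM_sub (M : ℝ) (x : E3) : ∫ y, bM M (y - x) = Ib M :=
  integral_sub_right_eq_self (bM M) x

lemma HI_bM (M : ℝ) (x : E3) : HI (fun y => bM M (y - x)) (Ib M) :=
  ⟨integrable_bM_sub M x, integral_bM_sub M x⟩

lemma LL.HK {σ : E3 → ℝ} (h : LL σ) : HI (fun x => |σ x| ^ (5 / 3 : ℝ)) (KK σ) := HI.of h.intK

lemma LL.HN {σ : E3 → ℝ} (h : LL σ) : HI (fun x => |σ x|) (N1 σ) := HI.of h.int.abs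

lemma measurable_ker (x : E3) : Measurable (fun y : E3 => ‖x - y‖⁻¹) :=
  (measurable_const.sub measurable_id).norm.inv

lemma LL.psi_int {σ : E3 → ℝ} (h : LL σ) (x : E3) :
    Integrable (fun y => ‖x - y‖⁻¹ * σ y) := by
  refine Integrable.mono' (((h.intK.const_mul 1).add
    ((integrable_bM_sub 1 x).const_mul ((1 : ℝ) ^ (-(3 / 2) : ℝ)))).add
    (h.int.abs.const_mul (1 : ℝ)⁻¹)) ((measurable_ker x).mul h.meas).aestronglyMeasurable
    (Eventually.of_forall fun y => ?_)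
  rw [norm_mul, Real.norm_of_nonneg (inv_nonneg.2 (norm_nonneg _)), Real.norm_eq_abs]
  exact ker_bound one_pos one_pos x y (σ y)

lemma LL.psi_abs_le {σ : E3 → ℝ} (h : LL σ) {θ M : ℝ} (hθ : 0 < θ) (hM : 0 < M) (x : E3) :
    psi (fun y => |σ y|) x ≤ θ * KK σ + θ ^ (-(3 / 2) : ℝ) * Ib M + M⁻¹ * N1 σ := by
  exact (HI.of (h.abs.psi_int x)).le (((h.HK.const_mul θ).add
    ((HI_bM M x).const_mul _)).add (h.HN.const_mul M⁻¹))
    (Eventually.of_forall fun y => ker_bound hθ hM x y (σ y))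

lemma LL.Hpsi {σ : E3 → ℝ} (h : LL σ) (x : E3) : HI (fun y => ‖x - y‖⁻¹ * σ y) (psi σ x) :=
  HI.of (h.psi_int x)

lemma abs_psi_le_psi_abs (σ : E3 → ℝ) (x : E3) : |psi σ x| ≤ psi (fun y => |σ y|) x := by
  unfold psi
  refine (abs_integral_le_integral_abs).trans (le_of_eq ?_)
  congr 1; ext y
  rw [abs_mul, abs_of_nonneg (inv_nonneg.2 (norm_nonneg _))]

lemma LL.abs_psi_le {σ : E3 → ℝ} (h : LL σ) {θ M : ℝ} (hθ : 0 < θ) (hM : 0 < M) (x : E3) :
    |psi σ x| ≤ θ * KK σ + θ ^ (-(3 / 2) : ℝ) * Ib M + M⁻¹ * N1 σ :=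
  (abs_psi_le_psi_abs σ x).trans (h.psi_abs_le hθ hM x)

lemma psi_nonneg {σ : E3 → ℝ} (h : ∀ x, 0 ≤ σ x) (x : E3) : 0 ≤ psi σ x :=
  integral_nonneg fun y => mul_nonneg (inv_nonneg.2 (norm_nonneg _)) (h y)

lemma LL.psi_sub {σ τ : E3 → ℝ} (h : LL σ) (h' : LL τ) (x : E3) :
    psi (fun y => σ y - τ y) x = psi σ x - psi τ x := by
  unfold psi
  rw [← integral_sub (h.psi_int x) (h'.psi_int x)]
  congr 1; ext y; ring

lemma LL.psi_add {σ τ : E3 → ℝ} (h : LL σ) (h' : LL τ) (x : E3) :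
    psi (fun y => σ y + τ y) x = psi σ x + psi τ x := by
  unfold psi
  rw [← integral_add (h.psi_int x) (h'.psi_int x)]
  congr 1; ext y; ring

lemma psi_const_mul (σ : E3 → ℝ) (c : ℝ) (x : E3) :
    psi (fun y => c * σ y) x = c * psi σ x := by
  unfold psi
  rw [← integral_const_mul]
  congr 1; ext y; ring

lemma ker_diff_bound {δ : ℝ} (hδ : 0 < δ) {x x' : E3} (hx : ‖x - x'‖ ≤ δ) (y : E3) :
    |‖x - y‖⁻¹ - ‖x' - y‖⁻¹| ≤ indicator (ball x (2 * δ)) (fun y => ‖x - y‖⁻¹) y +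
      indicator (ball x' (2 * δ)) (fun y => ‖x' - y‖⁻¹) y + ‖x - x'‖ / δ ^ 2 := by
  have n1 : 0 ≤ indicator (ball x (2 * δ)) (fun y => ‖x - y‖⁻¹) y :=
    indicator_nonneg (fun _ _ => by positivity) _
  have n2 : 0 ≤ indicator (ball x' (2 * δ)) (fun y => ‖x' - y‖⁻¹) y :=
    indicator_nonneg (fun _ _ => by positivity) _
  have t1 : ‖x' - y‖ ≤ ‖x - x'‖ + ‖x - y‖ := by
    have : x' - y = (x - y) - (x - x') := by abel
    rw [this, add_comm]; exact norm_sub_le _ _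
  have t2 : ‖x - y‖ ≤ ‖x - x'‖ + ‖x' - y‖ := by
    have : x - y = (x - x') + (x' - y) := by abel
    rw [this]; exact norm_add_le _ _
  by_cases hc : δ ≤ ‖x - y‖ ∧ δ ≤ ‖x' - y‖
  · obtain ⟨h1, h2⟩ := hc
    have p1 : 0 < ‖x - y‖ := hδ.trans_le h1
    have p2 : 0 < ‖x' - y‖ := hδ.trans_le h2
    have : |‖x - y‖⁻¹ - ‖x' - y‖⁻¹| ≤ ‖x - x'‖ / δ ^ 2 := by
      rw [inv_sub_inv p1.ne' p2.ne', abs_div, abs_of_pos (mul_pos p1 p2)]
      refine div_le_div₀ (norm_nonneg _) (abs_le.2 ⟨by linarith, by linarith⟩) (by positivity) ?_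
      nlinarith
    linarith
  · have hlt : ‖x - y‖ < 2 * δ ∧ ‖x' - y‖ < 2 * δ := by
      rcases not_and_or.1 hc with h | h
      · push Not at h; constructor <;> linarith
      · push Not at h; constructor <;> linarith
    have m1 : y ∈ ball x (2 * δ) := by rw [mem_ball, dist_eq_norm, norm_sub_rev]; exact hlt.1
    have m2 : y ∈ ball x' (2 * δ) := by rw [mem_ball, dist_eq_norm, norm_sub_rev]; exact hlt.2
    rw [indicator_of_mem m1, indicator_of_mem m2]
    have a1 : 0 ≤ ‖x - y‖⁻¹ := by positivity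
    have a2 : 0 ≤ ‖x' - y‖⁻¹ := by positivity
    have a3 : 0 ≤ ‖x - x'‖ / δ ^ 2 := by positivity
    rw [abs_le]; constructor <;> linarith

lemma LL.psi_diff_le {σ : E3 → ℝ} (h : LL σ) {θ δ : ℝ} (hθ : 0 < θ) (hδ : 0 < δ) {x x' : E3}
    (hx : ‖x - x'‖ ≤ δ) :
    |psi σ x - psi σ x'| ≤ 2 * (θ * KK σ + θ ^ (-(3 / 2) : ℝ) * Ib (2 * δ))
      + ‖x - x'‖ / δ ^ 2 * N1 σ := by
  have i1 := h.HK.const_mul θ
  have i2 := (HI_bM (2 * δ) x).const_mul (θ ^ (-(3 / 2) : ℝ))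
  have i2' := (HI_bM (2 * δ) x').const_mul (θ ^ (-(3 / 2) : ℝ))
  have i3 := h.HN.const_mul (‖x - x'‖ / δ ^ 2)
  have j := (h.Hpsi x).sub (h.Hpsi x')
  rw [← j.2]
  refine abs_integral_le_integral_abs.trans ?_
  have := (HI.of j.1.abs).le (((i1.add i2).add (i1.add i2')).add i3)
    (Eventually.of_forall fun y => by
      rw [← sub_mul, abs_mul]
      have a := ker_diff_bound hδ hx y
      have b := near_bound (M := 2 * δ) hθ x y (σ y)
      have c := near_bound (M := 2 * δ) hθ x' y (σ y)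
      have d := mul_le_mul_of_nonneg_right a (abs_nonneg (σ y))
      nlinarith)
  linarith

/-- Uniform equicontinuity of Coulomb potentials on bounded families. -/
lemma psi_equicont (K N : ℝ) {ε : ℝ} (hε : 0 < ε) : ∃ δ : ℝ, 0 < δ ∧ ∀ σ : E3 → ℝ, LL σ →
    KK σ ≤ K → N1 σ ≤ N → ∀ x x' : E3, ‖x - x'‖ ≤ δ → |psi σ x - psi σ x'| ≤ ε := by
  set θ : ℝ := ε / (6 * (|K| + 1)) with hθ
  have hθ0 : 0 < θ := by positivity
  have hθ' : 0 < θ ^ (-(3 / 2) : ℝ) := by positivity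
  obtain ⟨δ2, hδ2, hI⟩ := Ib_small (η := ε / 6 / θ ^ (-(3 / 2) : ℝ)) (by positivity)
  set δ1 := δ2 / 2 with hδ1
  have hδ10 : 0 < δ1 := by positivity
  refine ⟨min δ1 (ε / 3 * δ1 ^ 2 / (|N| + 1)), lt_min hδ10 (by positivity), ?_⟩
  intro σ hσ hK hN x x' hx
  have h := hσ.psi_diff_le hθ0 hδ10 (hx.trans (min_le_left _ _))
  have e : 2 * δ1 = δ2 := by rw [hδ1]; ring
  rw [e] at h
  have a1 : θ * KK σ ≤ ε / 6 := by
    have : KK σ ≤ |K| + 1 := by linarith [le_abs_self K]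
    calc θ * KK σ ≤ θ * (|K| + 1) := mul_le_mul_of_nonneg_left this hθ0.le
      _ = ε / 6 := by rw [hθ]; field_simp
  have a2 : θ ^ (-(3 / 2) : ℝ) * Ib δ2 ≤ ε / 6 := by
    rw [le_div_iff₀ hθ'] at hI; linarith
  have a3 : ‖x - x'‖ / δ1 ^ 2 * N1 σ ≤ ε / 3 := by
    have h1 : ‖x - x'‖ ≤ ε / 3 * δ1 ^ 2 / (|N| + 1) := hx.trans (min_le_right _ _)
    have h2 : N1 σ ≤ |N| + 1 := by linarith [le_abs_self N]
    calc ‖x - x'‖ / δ1 ^ 2 * N1 σ ≤ (ε / 3 * δ1 ^ 2 / (|N| + 1)) / δ1 ^ 2 * (|N| + 1) := by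
          gcongr
          exact N1_nonneg σ
      _ = ε / 3 := by field_simp
  linarith

lemma LL.continuous_psi {σ : E3 → ℝ} (h : LL σ) : Continuous (psi σ) := by
  rw [Metric.continuous_iff]
  intro x ε hε
  obtain ⟨δ, hδ, H⟩ := psi_equicont (KK σ) (N1 σ) (half_pos hε)
  refine ⟨δ, hδ, fun y hy => ?_⟩
  have := H σ h le_rfl le_rfl y x (by rw [← dist_eq_norm]; exact hy.le)
  rw [Real.dist_eq]; linarith

/-- Uniform smallness of the potential of a density that is small in the 5/3 norm. -/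
lemma psi_small (N : ℝ) {ε : ℝ} (hε : 0 < ε) : ∃ η : ℝ, 0 < η ∧ ∀ σ : E3 → ℝ, LL σ →
    KK σ ≤ η → N1 σ ≤ N → ∀ x : E3, |psi σ x| ≤ ε := by
  set M : ℝ := 3 * (|N| + 1) / ε with hM
  have hM0 : 0 < M := by positivity
  have hI := Ib_nonneg M
  set θ : ℝ := (ε / (3 * (Ib M + 1))) ^ (-(2 / 3) : ℝ) with hθ
  have hθ0 : 0 < θ := by positivity
  have hθ' : θ ^ (-(3 / 2) : ℝ) = ε / (3 * (Ib M + 1)) := by
    rw [hθ, ← Real.rpow_mul (by positivity)]; norm_num
  refine ⟨ε / 3 / θ, by positivity, fun σ hσ hK hN x => ?_⟩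
  have h := hσ.abs_psi_le hθ0 hM0 x
  have a1 : θ * KK σ ≤ ε / 3 := by rw [le_div_iff₀ hθ0] at hK; linarith
  have a2 : θ ^ (-(3 / 2) : ℝ) * Ib M ≤ ε / 3 := by
    rw [hθ', div_mul_eq_mul_div, div_le_div_iff₀ (by positivity) (by norm_num)]
    nlinarith
  have a3 : M⁻¹ * N1 σ ≤ ε / 3 := by
    have h2 : N1 σ ≤ |N| + 1 := by linarith [le_abs_self N]
    calc M⁻¹ * N1 σ ≤ M⁻¹ * (|N| + 1) := mul_le_mul_of_nonneg_left h2 (by positivity)
      _ = ε / 3 := by rw [hM]; field_simp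
  linarith

end

end Pool.Agent.Lib.MP_689e73_mp
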