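import Pool.Agent.Lib.MP_689e73_mp.Force
import Pool.Agent.Lib.MP_689e73_mp.Newton

open MeasureTheory Filter Topology Set Metric
open scoped ENNReal NNReal RealInnerProductSpace

namespace Pool.Agent.Lib.MP_689e73_mp

noncomputable section

lemma forceDensity_eq (ρ : E3 → ℝ) (c x : E3) : forceDensity ρ c x = ρ x • kv (x - c) := by
  unfold forceDensity kv
  rw [smul_smul, div_eq_mul_inv]

lemma pv_of_radial {ρ : E3 → ℝ} (hρ : Integrable ρ) (c : E3) (β : ℝ → ℝ)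
    (hint : Integrable (fun x => (ρ x - β ‖x - c‖) • kv (x - c))) :
    IsPVForce ρ c (∫ x, (ρ x - β ‖x - c‖) • kv (x - c)) := by
  have hms : ∀ a : ℝ, MeasurableSet {x : E3 | a < ‖x - c‖} := fun a =>
    measurableSet_lt measurable_const (measurable_id.sub measurable_const).norm
  have hkm : Measurable (fun x : E3 => kv (x - c)) :=
    measurable_kv.comp (measurable_id.sub measurable_const)
  have h1 : ∀ a : ℝ, 0 < a → IntegrableOn (forceDensity ρ c) {x | a < ‖x - c‖} := by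
    intro a ha
    have e : forceDensity ρ c = fun x => ρ x • kv (x - c) := funext (forceDensity_eq ρ c)
    rw [e]
    refine Integrable.mono' ((hρ.norm.mul_const (a ^ 2)⁻¹).integrableOn)
      ((hρ.aestronglyMeasurable.smul hkm.aestronglyMeasurable).restrict)
      ((ae_restrict_iff' (hms a)).2 (Eventually.of_forall fun x hx => ?_))
    rw [norm_smul, norm_kv]
    have hx' : a < ‖x - c‖ := hx
    exact mul_le_mul_of_nonneg_left (inv_anti₀ (by positivity) (by gcongr)) (norm_nonneg _)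
  refine ⟨h1, ?_⟩
  have h2 : ∀ a : ℝ, ∫ x in {x | a < ‖x - c‖}, β ‖x - c‖ • kv (x - c) = 0 := by
    intro a
    rw [← integral_indicator (hms a)]
    set f : E3 → E3 := indicator {x | a < ‖x - c‖} (fun x => β ‖x - c‖ • kv (x - c)) with hf
    have e1 := integral_sub_left_eq_self f (volume : Measure E3) (c + c)
    have e2 : ∀ x, f (c + c - x) = -f x := by
      intro x
      have e3 : c + c - x - c = -(x - c) := by abel
      by_cases hx : x ∈ {x : E3 | a < ‖x - c‖}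
      · have hx' : c + c - x ∈ {x : E3 | a < ‖x - c‖} := by
          change a < ‖c + c - x - c‖
          rw [e3, norm_neg]; exact hx
        rw [hf, indicator_of_mem hx, indicator_of_mem hx', e3, norm_neg, kv_neg, smul_neg]
      · have hx' : c + c - x ∉ {x : E3 | a < ‖x - c‖} := by
          change ¬ a < ‖c + c - x - c‖
          rw [e3, norm_neg]; exact hx
        rw [hf, indicator_of_notMem hx, indicator_of_notMem hx', neg_zero]
    simp only [e2] at e1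
    rw [integral_neg] at e1
    have e4 : (2 : ℝ) • ∫ x, f x = 0 := by
      rw [two_smul]; nth_rewrite 1 [← e1]; exact neg_add_cancel _
    exact (smul_eq_zero.1 e4).resolve_left two_ne_zero
  have h3 : ∀ a : ℝ, 0 < a → ∫ x, indicator {x | a < ‖x - c‖}
      (fun x => (ρ x - β ‖x - c‖) • kv (x - c)) x =
      ∫ x in {x | a < ‖x - c‖}, forceDensity ρ c x := by
    intro a ha
    have i1 := (h1 a ha).sub hint.integrableOn
    have e : ∀ x, forceDensity ρ c x - (ρ x - β ‖x - c‖) • kv (x - c) = β ‖x - c‖ • kv (x - c) := by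
      intro x; rw [forceDensity_eq, ← sub_smul, sub_sub_cancel]
    have i2 := integral_sub (h1 a ha) (hint.integrableOn (s := {x | a < ‖x - c‖}))
    simp only [e] at i2
    rw [h2 a] at i2
    rw [integral_indicator (hms a)]
    exact (sub_eq_zero.1 i2.symm).symm
  refine Tendsto.congr' (eventually_mem_nhdsWithin.mono fun a ha => h3 a ha) ?_
  refine tendsto_integral_filter_of_dominated_convergence
    (fun x => ‖(ρ x - β ‖x - c‖) • kv (x - c)‖)
    (Eventually.of_forall fun a => hint.aestronglyMeasurable.indicator (hms a))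
    (Eventually.of_forall fun a => Eventually.of_forall fun x => norm_indicator_le_norm_self _ _)
    hint.norm ?_
  filter_upwards [ae_ne c] with x hx
  refine tendsto_const_nhds.congr' ?_
  have : 0 < ‖x - c‖ := norm_pos_iff.2 (sub_ne_zero.2 hx)
  filter_upwards [Ioo_mem_nhdsGT this] with a ha
  rw [indicator_of_mem (show x ∈ {x : E3 | a < ‖x - c‖} from ha.2)]

def Gam (τ : E3 → ℝ) (x : E3) : E3 := ∫ y, τ y • kv (y - x)

section Grad

variable {τ : E3 → ℝ} {c : E3} {δ C : ℝ}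

lemma tau_dom (hδ : 0 < δ) (hδ1 : δ ≤ 1) (hC : 0 ≤ C)
    (hb : ∀ᵐ y, ‖y - c‖ < δ → |τ y| ≤ C * (√‖y - c‖)⁻¹) {x : E3} (hx : x ∈ ball c (δ / 2)) :
    ∀ᵐ y, ‖τ y • kv (y - x)‖ ≤
      2 * C * kap (y - c) + 2 * C * kap (y - x) + ((δ / 2) ^ 2)⁻¹ * |τ y| := by
  filter_upwards [hb, ae_ne c, ae_ne x] with y h1 h2 h3
  have k1 : 0 ≤ 2 * C * kap (y - c) := mul_nonneg (by positivity) (kap_nonneg _)
  have k2 : 0 ≤ 2 * C * kap (y - x) := mul_nonneg (by positivity) (kap_nonneg _)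
  have k3 : 0 ≤ ((δ / 2) ^ 2)⁻¹ * |τ y| := by positivity
  rw [norm_smul, norm_kv, Real.norm_eq_abs]
  have key : ∀ v : E3, v ≠ 0 → ‖v‖ ≤ 1 → C * (√‖v‖)⁻¹ * (‖v‖ ^ 2)⁻¹ ≤ 2 * C * kap v := by
    intro v hv hv1
    have hp : 0 < ‖v‖ := norm_pos_iff.2 hv
    have hs : 0 < √‖v‖ := Real.sqrt_pos.2 hp
    rw [kap_eq hv]
    calc C * (√‖v‖)⁻¹ * (‖v‖ ^ 2)⁻¹ = (1 + ‖v‖) * C * (‖v‖ ^ 2 * √‖v‖ * (1 + ‖v‖))⁻¹ := by
          field_simp
      _ ≤ _ := by gcongr; linarith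
  have p1 : 0 < ‖y - c‖ := norm_pos_iff.2 (sub_ne_zero.2 h2)
  have p2 : 0 < ‖y - x‖ := norm_pos_iff.2 (sub_ne_zero.2 h3)
  by_cases hy : ‖y - c‖ < δ
  · have a := h1 hy
    rcases le_total ‖y - c‖ ‖y - x‖ with h | h
    · have b := key _ (sub_ne_zero.2 h2) (by linarith)
      have e : |τ y| * (‖y - x‖ ^ 2)⁻¹ ≤ C * (√‖y - c‖)⁻¹ * (‖y - c‖ ^ 2)⁻¹ :=
        mul_le_mul a (inv_anti₀ (by positivity) (by gcongr)) (by positivity) (by positivity)
      linarith
    · have b := key _ (sub_ne_zero.2 h3) (by linarith)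
      have a' : |τ y| ≤ C * (√‖y - x‖)⁻¹ := a.trans (mul_le_mul_of_nonneg_left
        (inv_anti₀ (Real.sqrt_pos.2 p2) (Real.sqrt_le_sqrt h)) hC)
      have e := mul_le_mul_of_nonneg_right a' (show 0 ≤ (‖y - x‖ ^ 2)⁻¹ by positivity)
      linarith
  · have a : δ / 2 ≤ ‖y - x‖ := by
      have b : y - c = (y - x) + (x - c) := by abel
      have b1 := norm_add_le (y - x) (x - c)
      rw [← b] at b1
      rw [mem_ball, dist_eq_norm] at hx
      push Not at hy
      linarith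
    have e : |τ y| * (‖y - x‖ ^ 2)⁻¹ ≤ |τ y| * ((δ / 2) ^ 2)⁻¹ :=
      mul_le_mul_of_nonneg_left (inv_anti₀ (by positivity) (by gcongr)) (abs_nonneg _)
    linarith

lemma HI_tau_dom (hτ : LL τ) (c x : E3) (δ C : ℝ) :
    HI (fun y => 2 * C * kap (y - c) + 2 * C * kap (y - x) + ((δ / 2) ^ 2)⁻¹ * |τ y|)
      (2 * C * Ikap + 2 * C * Ikap + ((δ / 2) ^ 2)⁻¹ * N1 τ) :=
  (((HI_kap c).const_mul _).add ((HI_kap x).const_mul _)).add (hτ.HN.const_mul _)

lemma meas_tau_kv (hτ : LL τ) (x : E3) : Measurable (fun y => τ y • kv (y - x)) :=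
  hτ.meas.smul (measurable_kv.comp (measurable_id.sub measurable_const))

lemma int_tau_kv (hτ : LL τ) (hδ : 0 < δ) (hδ1 : δ ≤ 1) (hC : 0 ≤ C)
    (hb : ∀ᵐ y, ‖y - c‖ < δ → |τ y| ≤ C * (√‖y - c‖)⁻¹) {x : E3} (hx : x ∈ ball c (δ / 2)) :
    Integrable (fun y => τ y • kv (y - x)) :=
  (HI_tau_dom hτ c x δ C).1.mono' (meas_tau_kv hτ x).aestronglyMeasurable
    (tau_dom hδ hδ1 hC hb hx)

lemma continuousAt_Gam (hτ : LL τ) (hδ : 0 < δ) (hδ1 : δ ≤ 1) (hC : 0 ≤ C)
    (hb : ∀ᵐ y, ‖y - c‖ < δ → |τ y| ≤ C * (√‖y - c‖)⁻¹) {x : E3} (hx : x ∈ ball c (δ / 2)) :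
    Tendsto (Gam τ) (𝓝 x) (𝓝 (Gam τ x)) := by
  unfold Gam
  have hv : ∀ y : E3, Tendsto (fun u : E3 => y - u) (𝓝 x) (𝓝 (y - x)) := fun y =>
    tendsto_id.const_sub y
  refine pratt
    (k := fun u y => 2 * C * kap (y - c) + 2 * C * kap (y - u) + ((δ / 2) ^ 2)⁻¹ * |τ y|)
    (k0 := fun y => 2 * C * kap (y - c) + 2 * C * kap (y - x) + ((δ / 2) ^ 2)⁻¹ * |τ y|)
    (Eventually.of_forall fun u => (meas_tau_kv hτ u).aestronglyMeasurable)
    (meas_tau_kv hτ x).aestronglyMeasurable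
    (Eventually.of_forall fun u => (HI_tau_dom hτ c u δ C).1) (HI_tau_dom hτ c x δ C).1
    ?_ (tau_dom hδ hδ1 hC hb hx) ?_ ?_ ?_
  · filter_upwards [isOpen_ball.mem_nhds hx] with u hu
    exact tau_dom hδ hδ1 hC hb hu
  · filter_upwards [ae_ne x] with y hy
    exact ((continuousAt_kv (sub_ne_zero.2 hy)).tendsto.comp (hv y)).const_smul (τ y)
  · filter_upwards [ae_ne x] with y hy
    exact ((((continuousAt_kap (sub_ne_zero.2 hy)).tendsto.comp (hv y)).const_mul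
      (2 * C)).const_add _).add_const _
  · simp only [(HI_tau_dom hτ c _ δ C).2]
    exact tendsto_const_nhds

lemma hasGradientAt_psi (hτ : LL τ) (hδ : 0 < δ) (hδ1 : δ ≤ 1) (hC : 0 ≤ C)
    (hb : ∀ᵐ y, ‖y - c‖ < δ → |τ y| ≤ C * (√‖y - c‖)⁻¹) {x : E3} (hx : x ∈ ball c (δ / 2)) :
    HasGradientAt (psi τ) (Gam τ x) x := by
  rw [hasGradientAt_iff_hasFDerivAt, hasFDerivAt_iff_isLittleO, Asymptotics.isLittleO_iff]
  intro ε hε
  have h1 : ∀ᶠ u in 𝓝 x, u ∈ ball c (δ / 2) ∧ ‖Gam τ u - Gam τ x‖ ≤ ε :=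
    (Eventually.and (isOpen_ball.mem_nhds hx) ((tendsto_iff_norm_sub_tendsto_zero.1
      (continuousAt_Gam hτ hδ hδ1 hC hb hx)).eventually (Iic_mem_nhds hε)))
  obtain ⟨η, hη, hball⟩ := Metric.eventually_nhds_iff_ball.1 h1
  filter_upwards [ball_mem_nhds x hη] with u hu
  set h := u - x with hh
  have hseg : ∀ t ∈ Icc (0 : ℝ) 1, x + t • h ∈ ball x η := fun t ht =>
    (convex_ball x η).add_smul_sub_mem (mem_ball_self hη) hu ht
  refine Exists.elim (ftc_bound (H := fun t y => ‖y - (x + t • h)‖⁻¹ * τ y)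
    (H' := fun t y => ⟪h, τ y • kv (y - (x + t • h))⟫)
    (B := ‖h‖ * (2 * C * Ikap + 2 * C * Ikap + ((δ / 2) ^ 2)⁻¹ * N1 τ))
    (L := ⟪h, Gam τ x⟫) (ε := ‖h‖ * ε) ?_ ?_ ?_ ?_) (fun q hqb => ?_)
  · filter_upwards [ae_off_line x h] with y hy t _
    refine ((hasDerivAt_inv_norm y x h (hy t)).mul_const (τ y)).congr_deriv ?_
    rw [real_inner_smul_right]; ring
  · have m1 : Measurable (fun p : ℝ × E3 => p.2 - (x + p.1 • h)) :=
      measurable_snd.sub (measurable_const.add (measurable_fst.smul measurable_const))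
    have m2 : Measurable (fun p : ℝ × E3 => kv (p.2 - (x + p.1 • h))) := measurable_kv.comp m1
    have m3 : Measurable (fun p : ℝ × E3 => τ p.2) := hτ.meas.comp measurable_snd
    exact Measurable.inner measurable_const (m3.smul m2)
  · intro t ht
    refine ⟨_, (HI_tau_dom hτ c (x + t • h) δ C).const_mul ‖h‖, ?_⟩
    filter_upwards [tau_dom hδ hδ1 hC hb (hball _ (hseg t ht)).1] with y hy
    exact (abs_real_inner_le_norm _ _).trans (mul_le_mul_of_nonneg_left hy (norm_nonneg _))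
  · intro t ht
    rw [integral_inner (int_tau_kv hτ hδ hδ1 hC hb (hball _ (hseg t ht)).1), ← inner_sub_right]
    exact (abs_real_inner_le_norm _ _).trans
      (mul_le_mul_of_nonneg_left (hball _ (hseg t ht)).2 (norm_nonneg _))
  · obtain ⟨hq, hb2⟩ := hqb
    have e : q = psi τ u - psi τ x := hq.eq ((hτ.Hpsi u).sub (hτ.Hpsi x))
      (Eventually.of_forall fun y => by
        simp only [one_smul, zero_smul, add_zero, hh, add_sub_cancel]
        rw [norm_sub_rev y u, norm_sub_rev y x])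
    rw [e] at hb2
    rw [InnerProductSpace.toDual_apply_apply, real_inner_comm, Real.norm_eq_abs, mul_comm]
    exact hb2

end Grad

variable {k : ℕ}

theorem gradient_limit {γ lam : ℝ} {z : Fin k → ℝ} (hγ : 0 < γ) (hl : 0 < lam)
    (hz : ∀ i, 0 < z i) (hZ : lam ≤ ∑ i, z i) {R : Fin k → E3} (hR : R ∈ Omega k) {g : E3 → ℝ}
    (hg : RMin γ lam z R g) (i : Fin k) :
    ∃ G, IsPVForce g (R i) G ∧ IsGradientLimit (corrected γ (z i) g (R i)) (R i) G := by
  obtain ⟨d, hd, hs⟩ := sep_of_mem hR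
  have hS := hs.self_of_nhds
  obtain ⟨B, hB⟩ := hg.1.ll.psi_bdd
  rw [abs_fun_eq hg.1.nn] at hB
  set M : ℝ := B + mu γ lam z R g with hM
  have hw : ∀ x, 0 ≤ ww γ lam z R g x ∧ ww γ lam z R g x ≤ M := fun x =>
    ⟨ww_nonneg hγ hl hg x, by unfold ww; linarith [hB x]⟩
  have hM0 : 0 ≤ M := (hw 0).1.trans (hw 0).2
  set c := R i with hc
  set c1 : ℝ := (z i / γ) ^ (3 / 2 : ℝ) with hc1
  set Z : ℝ := ∑ j, z j with hZd
  have hZ0 : 0 < Z := hl.trans_le hZ
  set τ : E3 → ℝ := fun y => g y - c1 * prof ‖y - c‖ with hτd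
  have hτ : LL τ := hg.1.ll.sub ((LL_prof c).const_mul c1)
  set δ : ℝ := min (d / 2) 1 with hδd
  have hδ : 0 < δ := lt_min (half_pos hd) one_pos
  have hδ1 : δ ≤ 1 := min_le_right _ _
  set C : ℝ := γ ^ (-(3 / 2) : ℝ) * (2 * √Z * (Z * (d / 2)⁻¹ + M)) with hCd
  have hC : 0 ≤ C := by positivity
  have hb : ∀ᵐ y, ‖y - c‖ < δ → |τ y| ≤ C * (√‖y - c‖)⁻¹ := by
    filter_upwards [rho_eq hγ hl hZ hg, ae_ne c] with y h1 h2 h3
    obtain ⟨a1, a2⟩ := Vnuc_near hz hd hS (i := i) (x := y) (h3.le.trans (min_le_left _ _))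
    rw [← hc] at a1 a2
    set r := ‖y - c‖ with hr
    have hr0 : 0 < r := norm_pos_iff.2 (sub_ne_zero.2 h2)
    have hzi := z_le_sum hz i
    have hz0 := hz i
    have b0 : 0 ≤ Z * r⁻¹ := by positivity
    have b1 : max (Vnuc z R y - ww γ lam z R g y) 0 ≤ Z * r⁻¹ :=
      max_le (by linarith [Vnuc_le hz hr0 a1, (hw y).1]) b0
    have b2 : max (z i * r⁻¹) 0 ≤ Z * r⁻¹ := max_le (by gcongr) b0
    have b3 := gp_lip b1 b2
    have b4 : |Vnuc z R y - ww γ lam z R g y - z i * r⁻¹| ≤ Z * (d / 2)⁻¹ + M := by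
      have := (hw y).1; have := (hw y).2
      rw [abs_le] at a2 ⊢
      constructor <;> linarith [a2.1, a2.2]
    rw [Real.sqrt_mul hZ0.le, Real.sqrt_inv] at b3
    have b5 := b3.trans (mul_le_mul_of_nonneg_left b4 (by positivity))
    have e : c1 * prof r = γ ^ (-(3 / 2) : ℝ) * gp (z i * r⁻¹) := by
      unfold prof
      rw [indicator_of_mem (show r ∈ Iio (1 : ℝ) from h3.trans_le hδ1), gp_of_nonneg (by positivity),
        hc1, Real.div_rpow hz0.le hγ.le, Real.mul_rpow hz0.le (by positivity),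
        Real.inv_rpow hr0.le, Real.rpow_neg hr0.le, Real.rpow_neg hγ.le]
      ring
    have e2 : τ y = γ ^ (-(3 / 2) : ℝ) *
        (gp (Vnuc z R y - ww γ lam z R g y) - gp (z i * r⁻¹)) := by
      simp only [hτd]
      rw [← hr, e, mul_sub, ← h1]
    rw [e2, abs_mul, abs_of_pos (by positivity), hCd, mul_assoc]
    refine mul_le_mul_of_nonneg_left (b5.trans (le_of_eq (by ring))) (by positivity)
  have hcb : c ∈ ball c (δ / 2) := mem_ball_self (half_pos hδ)
  refine ⟨Gam τ c, pv_of_radial hg.1.ll.int c (fun r => c1 * prof r)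
    (int_tau_kv hτ hδ hδ1 hC hb hcb), ?_⟩
  have hgrad : ∀ᶠ x in 𝓝[≠] c, HasGradientAt (corrected γ (z i) g c) (Gam τ x) x := by
    have ho : IsOpen (ball c (δ / 2) ∩ {c}ᶜ) := isOpen_ball.inter isOpen_compl_singleton
    filter_upwards [inter_mem_nhdsWithin _ (ball_mem_nhds c (half_pos hδ))] with x hx
    have h1 := (hasGradientAt_psi hτ hδ hδ1 hC hb hx.2).hasFDerivAt.add_const (c1 * (8 * Real.pi))
    rw [hasGradientAt_iff_hasFDerivAt]
    refine h1.congr_of_eventuallyEq ?_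
    filter_upwards [ho.mem_nhds ⟨hx.2, hx.1⟩] with u hu
    have h2 : ‖u - c‖ < 1 := by
      have := hu.1
      rw [mem_ball, dist_eq_norm] at this
      linarith
    have h3 := newton c u hu.2 h2
    have h4 := hg.1.ll.psi_sub ((LL_prof c).const_mul c1) u
    rw [psi_const_mul, h3] at h4
    unfold corrected
    rw [h4, ← hc1]
    ring
  refine ⟨hgrad.mono fun x hx => hx.differentiableAt, ?_⟩
  exact ((continuousAt_Gam hτ hδ hδ1 hC hb hcb).mono_left nhdsWithin_le_nhds).congr'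
    (hgrad.mono fun x hx => hx.gradient.symm)

theorem pv_force {γ lam : ℝ} {z : Fin k → ℝ} (hγ : 0 < γ) (hl : 0 < lam)
    (hz : ∀ i, 0 < z i) (hZ : lam ≤ ∑ i, z i) {R : Fin k → E3} (hR : R ∈ Omega k) {g : E3 → ℝ}
    (hg : RMin γ lam z R g) (i : Fin k) :
    IsPVForce g (R i) (γ ^ (-(3 / 2) : ℝ) • Phi z R (ww γ lam z R g) i) := by
  obtain ⟨d, hd, hs⟩ := sep_of_mem hR
  obtain ⟨B, hB⟩ := hg.1.ll.psi_bdd
  rw [abs_fun_eq hg.1.nn] at hB
  have hw : ∀ x, 0 ≤ ww γ lam z R g x ∧ ww γ lam z R g x ≤ B + mu γ lam z R g := fun x =>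
    ⟨ww_nonneg hγ hl hg x, by unfold ww; linarith [hB x]⟩
  have hi := integrable_ph_kv hz hd hs.self_of_nhds hw (continuous_ww hg).measurable i
  have he : ∀ᵐ x, γ ^ (-(3 / 2) : ℝ) • (ph z R (ww γ lam z R g) i x • kv (x - R i)) =
      (g x - γ ^ (-(3 / 2) : ℝ) * gp (z i * ‖x - R i‖⁻¹ - 1)) • kv (x - R i) := by
    filter_upwards [rho_eq hγ hl hZ hg] with x hx
    unfold ph
    rw [smul_smul, mul_sub, ← hx]
  have h := pv_of_radial hg.1.ll.int (R i) (fun r => γ ^ (-(3 / 2) : ℝ) * gp (z i * r⁻¹ - 1))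
    ((hi.smul (γ ^ (-(3 / 2) : ℝ))).congr he)
  rw [← integral_congr_ae he, integral_smul] at h
  exact h

lemma IsPVForce.congr {ρ g : E3 → ℝ} (he : ρ =ᵐ[volume] g) {c F : E3} (h : IsPVForce g c F) :
    IsPVForce ρ c F := by
  have e : forceDensity g c =ᵐ[volume] forceDensity ρ c :=
    he.mono fun x hx => by unfold forceDensity; rw [hx]
  refine ⟨fun a ha => (h.1 a ha).congr_fun_ae (ae_restrict_of_ae e), h.2.congr fun a => ?_⟩
  exact integral_congr_ae (ae_restrict_of_ae e)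

theorem main (k : ℕ) (z : Fin k → ℝ) (hz : ∀ i, 0 < z i) (γ : ℝ) (hγ : 0 < γ)
    (lam : ℝ) (hlam : 0 < lam) (hlamZ : lam ≤ ∑ i, z i) :
    ContDiffOn ℝ 1 (elec γ lam z) (Omega k) ∧
    ∀ R ∈ Omega k, (∃ ρ, IsMinimiser γ lam z R ρ) ∧
      ∀ ρ, IsMinimiser γ lam z R ρ → ∀ i, ∃ F G : E3,
        IsPVForce ρ (R i) F ∧ IsGradientLimit (corrected γ (z i) ρ (R i)) (R i) G ∧
        HasGradientAt (fun y => elec γ lam z (Function.update R i y)) (-z i • F) (R i) ∧
        -z i • F = -z i • G := by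
  refine ⟨contDiffOn_elec hγ hlam hz hlamZ, fun R hR => ⟨?_, fun ρ hρ i => ?_⟩⟩
  · obtain ⟨g, hg⟩ := exists_RMin hγ hz hlam.le R
    exact ⟨g, hg.isMin hγ hlamZ⟩
  · obtain ⟨g, hg, he⟩ := hρ.rep hγ hlam hz hlamZ
    obtain ⟨G, h1, h2⟩ := gradient_limit hγ hlam hz hlamZ hR hg i
    have h3 := pv_force hγ hlam hz hlamZ hR hg i
    have h4 := tendsto_nhds_unique h3.2 h1.2
    refine ⟨_, G, h3.congr he, ?_, hasGradientAt_elec hγ hlam hz hlamZ hR hg i, by rw [h4]⟩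
    have e : corrected γ (z i) ρ (R i) = corrected γ (z i) g (R i) := by
      funext x; unfold corrected; rw [psi_congr he]
    rw [e]; exact h2

end

end Pool.Agent.Lib.MP_689e73_mp
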