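import Pool.Agent.Lib.MP_689e73_mp.TFeq

open MeasureTheory Filter Topology Set Metric
open scoped ENNReal NNReal

namespace Pool.Agent.Lib.MP_689e73_mp

noncomputable section

variable {k : ℕ}

lemma good_rep {lam : ℝ} {ρ : E3 → ℝ} (h : Admissible lam ρ) :
    ∃ g, Good lam g ∧ ρ =ᵐ[volume] g := by
  obtain ⟨h0, h1, h2, h3⟩ := h
  have hm := h2.aestronglyMeasurable
  have he : ρ =ᵐ[volume] fun x => max (hm.mk ρ x) 0 := by
    filter_upwards [h0, hm.ae_eq_mk] with x a b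
    rw [← b, max_eq_left a]
  have hl : LL (fun x => max (hm.mk ρ x) 0) :=
    ⟨hm.stronglyMeasurable_mk.measurable.max measurable_const, h2.congr he, h1.ae_eq he⟩
  refine ⟨_, ⟨hl, fun x => le_max_right _ _, ?_⟩, he⟩
  rw [← (hl.HN' fun x => le_max_right _ _).2, ← integral_congr_ae he, h3]

lemma psi_congr {ρ g : E3 → ℝ} (he : ρ =ᵐ[volume] g) : psi ρ = psi g := by
  funext x
  unfold psi
  exact integral_congr_ae (he.mono fun y hy => by simp only [hy])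

lemma TF_congr (γ : ℝ) (z : Fin k → ℝ) (R : Fin k → E3) {ρ g : E3 → ℝ} (he : ρ =ᵐ[volume] g) :
    TF γ z R ρ = TF γ z R g := by
  unfold TF
  rw [coulomb_eq, coulomb_eq]
  unfold DD
  rw [psi_congr he]
  have e1 : ∫ x, ρ x ^ (5 / 3 : ℝ) = ∫ x, g x ^ (5 / 3 : ℝ) :=
    integral_congr_ae (he.mono fun y hy => by simp only [hy])
  have e2 : ∫ x, Vnuc z R x * ρ x = ∫ x, Vnuc z R x * g x :=
    integral_congr_ae (he.mono fun y hy => by simp only [hy])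
  have e3 : ∫ x, ρ x * psi g x = ∫ x, g x * psi g x :=
    integral_congr_ae (he.mono fun y hy => by simp only [hy])
  rw [e1, e2, e3]

lemma TF_good (γ : ℝ) (z : Fin k → ℝ) (R : Fin k → E3) {lam : ℝ} {g : E3 → ℝ}
    (hg : Good lam g) : TF γ z R g = EE γ z R g + Unuc z R := by
  unfold TF EE
  rw [coulomb_eq, (hg.ll.HK' hg.nn).2, (hg.ll.HV z R).2]

lemma RMin.isMin {γ lam : ℝ} (hγ : 0 < γ) {z : Fin k → ℝ} (hZ : lam ≤ ∑ i, z i)
    {R : Fin k → E3} {g : E3 → ℝ} (hg : RMin γ lam z R g) : IsMinimiser γ lam z R g := by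
  refine ⟨⟨Eventually.of_forall hg.1.nn, hg.1.ll.lp, hg.1.ll.int, ?_⟩, fun σ hσ => ?_⟩
  · rw [(hg.1.ll.HN' hg.1.nn).2, mass_eq hγ hZ hg]
  · obtain ⟨τ, hτ, he⟩ := good_rep hσ
    rw [TF_congr γ z R he, TF_good γ z R hτ, TF_good γ z R hg.1]
    linarith [hg.2 τ hτ]

lemma elec_eq {γ lam : ℝ} (hγ : 0 < γ) {z : Fin k → ℝ} (hZ : lam ≤ ∑ i, z i)
    {R : Fin k → E3} {g : E3 → ℝ} (hg : RMin γ lam z R g) : elec γ lam z R = EE γ z R g := by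
  have h := hg.isMin hγ hZ
  have : energy γ lam z R = TF γ z R g := by
    refine IsLeast.csInf_eq ⟨⟨g, h.1, rfl⟩, ?_⟩
    rintro _ ⟨σ, hσ, rfl⟩
    exact h.2 σ hσ
  unfold elec
  rw [this, TF_good γ z R hg.1]; ring

lemma IsMinimiser.rep {γ lam : ℝ} (hγ : 0 < γ) (hl : 0 < lam) {z : Fin k → ℝ}
    (hz : ∀ i, 0 < z i) (hZ : lam ≤ ∑ i, z i) {R : Fin k → E3} {ρ : E3 → ℝ}
    (h : IsMinimiser γ lam z R ρ) : ∃ g, RMin γ lam z R g ∧ ρ =ᵐ[volume] g := by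
  obtain ⟨g, hg, he⟩ := good_rep h.1
  obtain ⟨g0, hg0⟩ := exists_RMin hγ hz hl.le R
  refine ⟨g, ⟨hg, fun σ hσ => le_trans ?_ (hg0.2 σ hσ)⟩, he⟩
  have := h.2 g0 (hg0.isMin hγ hZ).1
  rw [TF_congr γ z R he, TF_good γ z R hg, TF_good γ z R hg0.1] at this
  linarith

lemma RMin.KK_le {γ : ℝ} (hγ : 0 < γ) {z : Fin k → ℝ} (hz : ∀ i, 0 < z i) {lam : ℝ}
    (hl : 0 < lam) : ∃ K : ℝ, ∀ (R : Fin k → E3) (g : E3 → ℝ), RMin γ lam z R g → KK g ≤ K := by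
  obtain ⟨K, hK⟩ := KK_bound hγ hz lam
  refine ⟨K, fun R g hg => hK R g hg.1 ?_⟩
  have := hg.2 _ (Good.zero hl.le)
  rw [EE_zero] at this
  linarith

lemma EE_pos_cont (γ : ℝ) {z : Fin k → ℝ} (hz : ∀ i, 0 < z i) (K lam : ℝ) {ε : ℝ} (hε : 0 < ε) :
    ∃ δ : ℝ, 0 < δ ∧ ∀ (R S : Fin k → E3) (ρ : E3 → ℝ), Good lam ρ → KK ρ ≤ K → ‖R - S‖ ≤ δ →
      EE γ z R ρ ≤ EE γ z S ρ + ε := by
  set Z : ℝ := ∑ i, z i with hZ
  have hZ0 : 0 ≤ Z := Finset.sum_nonneg fun i _ => (hz i).le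
  obtain ⟨δ, hδ, H⟩ := psi_equicont K lam (ε := ε / (Z + 1)) (by positivity)
  refine ⟨δ, hδ, fun R S ρ hρ hK hRS => ?_⟩
  have h1 : ∑ i, z i * psi ρ (S i) - ∑ i, z i * psi ρ (R i) ≤ Z * (ε / (Z + 1)) := by
    rw [← Finset.sum_sub_distrib, hZ, Finset.sum_mul]
    refine Finset.sum_le_sum fun i _ => ?_
    rw [← mul_sub]
    refine mul_le_mul_of_nonneg_left ?_ (hz i).le
    have := H ρ hρ.ll hK hρ.mass (R i) (S i) ((norm_le_pi_norm (R - S) i).trans hRS)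
    rw [abs_sub_comm] at this
    exact (le_abs_self _).trans this
  have h2 : Z * (ε / (Z + 1)) ≤ ε := by
    rw [← mul_div_assoc, div_le_iff₀ (by positivity)]; nlinarith
  unfold EE
  linarith

section Family

variable {γ lam : ℝ} {z : Fin k → ℝ} {ρ : (Fin k → E3) → E3 → ℝ}

theorem stability (hγ : 0 < γ) (hl : 0 < lam) (hz : ∀ i, 0 < z i)
    (hρ : ∀ R, RMin γ lam z R (ρ R)) (R0 : Fin k → E3) :
    Tendsto (fun R => KK (fun x => ρ R x - ρ R0 x)) (𝓝 R0) (𝓝 0) := by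
  obtain ⟨K, hK⟩ := RMin.KK_le hγ hz hl
  rw [Metric.tendsto_nhds]
  intro η hη
  obtain ⟨ε, hε, H⟩ := stab hγ z K (half_pos hη)
  obtain ⟨δ, hδ, H2⟩ := EE_pos_cont γ hz K lam hε
  filter_upwards [closedBall_mem_nhds R0 hδ] with R hR
  have hR1 : ‖R - R0‖ ≤ δ := by rwa [mem_closedBall, dist_eq_norm] at hR
  have hR2 : ‖R0 - R‖ ≤ δ := by rwa [norm_sub_rev]
  have a1 := H2 R0 R (ρ R) (hρ R).1 (hK _ _ (hρ R)) hR2
  have a2 := (hρ R).2 _ (hρ R0).1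
  have a3 := H2 R R0 (ρ R0) (hρ R0).1 (hK _ _ (hρ R0)) hR1
  have a4 := (hρ R0).2 _ ((hρ R).1.comb (hρ R0).1 (t := 1 / 2) (by norm_num) (by norm_num))
  have := H lam R0 _ _ (hρ R).1 (hρ R0).1 (hK _ _ (hρ R)) (hK _ _ (hρ R0)) (by linarith)
  rw [Real.dist_eq, sub_zero, abs_of_nonneg (KK_nonneg _)]
  linarith

/-- The screening potential together with the chemical potential. -/
def ww (γ lam : ℝ) (z : Fin k → ℝ) (R : Fin k → E3) (g : E3 → ℝ) (x : E3) : ℝ :=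
  psi g x + mu γ lam z R g

lemma tendsto_mu (hγ : 0 < γ) (hl : 0 < lam) (hz : ∀ i, 0 < z i)
    (hρ : ∀ R, RMin γ lam z R (ρ R)) (R0 : Fin k → E3) :
    Tendsto (fun R => mu γ lam z R (ρ R)) (𝓝 R0) (𝓝 (mu γ lam z R0 (ρ R0))) := by
  have h := stability hγ hl hz hρ R0
  have ha : ∀ R, Good lam (ρ R) := fun R => (hρ R).1
  unfold mu
  exact (((((tendsto_KK ha (ha R0) h).const_mul _).sub (tendsto_finsetSum _ fun i _ =>
    (tendsto_psi ha (ha R0) h ((continuous_apply i).tendsto R0)).const_mul _)).add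
    (tendsto_DD ha (ha R0) h)).neg).div_const _

lemma tendsto_ww (hγ : 0 < γ) (hl : 0 < lam) (hz : ∀ i, 0 < z i)
    (hρ : ∀ R, RMin γ lam z R (ρ R)) (R0 : Fin k → E3) (x : E3) :
    Tendsto (fun R => ww γ lam z R (ρ R) x) (𝓝 R0) (𝓝 (ww γ lam z R0 (ρ R0) x)) :=
  (tendsto_psi (fun R => (hρ R).1) (hρ R0).1 (stability hγ hl hz hρ R0) tendsto_const_nhds).add
    (tendsto_mu hγ hl hz hρ R0)

lemma ww_nonneg (hγ : 0 < γ) (hl : 0 < lam) {R : Fin k → E3} {g : E3 → ℝ}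
    (hg : RMin γ lam z R g) (x : E3) : 0 ≤ ww γ lam z R g x :=
  add_nonneg (psi_nonneg hg.1.nn x) (mu_nonneg hγ hl hg)

lemma ww_bdd (hγ : 0 < γ) (hl : 0 < lam) (hz : ∀ i, 0 < z i)
    (hρ : ∀ R, RMin γ lam z R (ρ R)) (R0 : Fin k → E3) :
    ∃ M : ℝ, ∀ᶠ R in 𝓝 R0, ∀ x, ww γ lam z R (ρ R) x ≤ M := by
  obtain ⟨B, hB⟩ := (hρ R0).1.ll.psi_bdd
  rw [abs_fun_eq (hρ R0).1.nn] at hB
  refine ⟨B + 1 + (mu γ lam z R0 (ρ R0) + 1), ?_⟩
  filter_upwards [psi_unif (fun R => (hρ R).1) (hρ R0).1 (stability hγ hl hz hρ R0) one_pos,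
    (tendsto_mu hγ hl hz hρ R0).eventually (Iic_mem_nhds (lt_add_one _))] with R h1 h2 x
  have h3 := (le_abs_self _).trans (h1 x)
  have h4 : mu γ lam z R (ρ R) ≤ mu γ lam z R0 (ρ R0) + 1 := h2
  unfold ww
  linarith [hB x]

lemma continuous_ww {R : Fin k → E3} {g : E3 → ℝ} (hg : RMin γ lam z R g) :
    Continuous (ww γ lam z R g) :=
  hg.1.ll.continuous_psi.add continuous_const

lemma rho_eq (hγ : 0 < γ) (hl : 0 < lam) (hZ : lam ≤ ∑ i, z i) {R : Fin k → E3} {g : E3 → ℝ}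
    (hg : RMin γ lam z R g) :
    ∀ᵐ x, g x = γ ^ (-(3 / 2) : ℝ) * gp (Vnuc z R x - ww γ lam z R g x) :=
  (TF_eq hγ hl hZ hg).mono fun x hx => eq_gp hγ (hg.1.nn x) hx

/-- Lower support inequality. -/
theorem support_ineq (hγ : 0 < γ) (hl : 0 < lam) (hZ : lam ≤ ∑ i, z i)
    {R S : Fin k → E3} {g g' : E3 → ℝ} (hg : RMin γ lam z R g) (hg' : RMin γ lam z S g') {q : ℝ}
    (hq : HI (fun x => fp (Vnuc z S x - ww γ lam z R g x) - fp (Vnuc z R x - ww γ lam z R g x)) q) :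
    EE γ z R g - 2 / 5 * γ ^ (-(3 / 2) : ℝ) * q ≤ EE γ z S g' := by
  set m := mu γ lam z R g with hm
  have j : ∀ (T : Fin k → E3) (a : E3 → ℝ), Good lam a → HI (fun x => 3 / 5 * γ * a x ^ (5 / 3 : ℝ)
      - a x * (Vnuc z T x - ww γ lam z R g x))
      (3 / 5 * γ * KK a - ∑ i, z i * psi a (T i) + DD a g + m * N1 a) := fun T a ha =>
    (((((ha.ll.HK' ha.nn).const_mul _).sub (ha.ll.HV z T)).add (ha.ll.HD hg.1.ll)).add
      ((ha.ll.HN' ha.nn).const_mul m)).congr (Eventually.of_forall fun x => by unfold ww; ring)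
  have h1 := ((j R g hg.1).sub (hq.const_mul (2 / 5 * γ ^ (-(3 / 2) : ℝ)))).le (j S g' hg'.1) (by
    filter_upwards [TF_eq hγ hl hZ hg] with x hx
    have a1 := young_TF_eq hγ (hg.1.nn x) hx
    have a2 := young_TF hγ (hg'.1.nn x) (Vnuc z S x - ww γ lam z R g x)
    unfold ww at *
    linarith)
  rw [mass_eq hγ hZ hg, mass_eq hγ hZ hg'] at h1
  have h2 := DD_amgm hg'.1.ll hg.1.ll hg'.1.nn hg.1.nn
  unfold EE
  linarith

end Family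

end

end Pool.Agent.Lib.MP_689e73_mp
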