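import Pool.Agent.Lib.MP_689e73_mp.Energy

open MeasureTheory Filter Topology Set Metric
open scoped ENNReal NNReal

namespace Pool.Agent.Lib.MP_689e73_mp

noncomputable section

variable {k : ℕ}

def AA (γ : ℝ) (z : Fin k → ℝ) (R : Fin k → E3) (g : E3 → ℝ) (x : E3) : ℝ :=
  γ * g x ^ (2 / 3 : ℝ) - Vnuc z R x + psi g x

lemma LL.HV {σ : E3 → ℝ} (h : LL σ) (z : Fin k → ℝ) (R : Fin k → E3) :
    HI (fun x => Vnuc z R x * σ x) (∑ i, z i * psi σ (R i)) := by
  refine (HI.sum Finset.univ fun i _ => (h.Hpsi (R i)).const_mul (z i)).congr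
    (Eventually.of_forall fun x => ?_)
  unfold Vnuc
  rw [Finset.sum_mul]
  refine Finset.sum_congr rfl fun i _ => ?_
  rw [norm_sub_rev]; ring

lemma measurable_Vnuc (z : Fin k → ℝ) (R : Fin k → E3) : Measurable (Vnuc z R) := by
  unfold Vnuc
  exact Finset.measurable_sum _ fun i _ =>
    (measurable_id.sub measurable_const).norm.inv.const_mul _

lemma int_23 {g σ : E3 → ℝ} (hg : LL g) (h0 : ∀ x, 0 ≤ g x) (hσ : LL σ) :
    Integrable (fun x => g x ^ (2 / 3 : ℝ) * σ x) := by
  refine Integrable.mono' (hσ.HK.add (hg.HK' h0)).1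
    ((hg.meas.pow_const _).mul hσ.meas).aestronglyMeasurable (Eventually.of_forall fun x => ?_)
  have y := young53 one_pos (abs_nonneg (σ x)) (Real.rpow_nonneg (h0 x) (2 / 3))
  rw [rpow_23_52 (h0 x), Real.one_rpow] at y
  rw [norm_mul, Real.norm_of_nonneg (Real.rpow_nonneg (h0 x) _), Real.norm_eq_abs]
  linarith

def T23 (g σ : E3 → ℝ) : ℝ := ∫ x, g x ^ (2 / 3 : ℝ) * σ x

def LA (γ : ℝ) (z : Fin k → ℝ) (R : Fin k → E3) (g σ : E3 → ℝ) : ℝ :=
  γ * T23 g σ - ∑ i, z i * psi σ (R i) + DD σ g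

lemma HLA (γ : ℝ) (z : Fin k → ℝ) (R : Fin k → E3) {g σ : E3 → ℝ} (hg : LL g)
    (h0 : ∀ x, 0 ≤ g x) (hσ : LL σ) :
    HI (fun x => AA γ z R g x * σ x) (LA γ z R g σ) :=
  ((((HI.of (int_23 hg h0 hσ)).const_mul γ).sub (hσ.HV z R)).add (hσ.HD hg)).congr
    (Eventually.of_forall fun x => by unfold AA; ring)

lemma KK_smul (σ : E3 → ℝ) {t : ℝ} (ht : 0 ≤ t) :
    KK (fun x => t * σ x) = t ^ (5 / 3 : ℝ) * KK σ := by
  unfold KK
  rw [← integral_const_mul]
  congr 1; ext x
  rw [abs_mul, abs_of_nonneg ht, Real.mul_rpow ht (abs_nonneg _)]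

theorem var_ineq {γ lam : ℝ} (hγ : 0 < γ) {z : Fin k → ℝ} {R : Fin k → E3} {g η : E3 → ℝ}
    (hg : RMin γ lam z R g) (hη : Good lam η) : LA γ z R g g ≤ LA γ z R g η := by
  have gl := hg.1.ll
  have g0 := hg.1.nn
  have dl : LL (fun x => η x - g x) := hη.ll.sub gl
  have e0 : LA γ z R g (fun x => η x - g x) = LA γ z R g η - LA γ z R g g :=
    (HLA γ z R gl g0 dl).eq ((HLA γ z R gl g0 hη.ll).sub (HLA γ z R gl g0 gl))
      (Eventually.of_forall fun x => by ring)
  set d : E3 → ℝ := fun x => η x - g x with hd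
  have key : ∀ t : ℝ, 0 < t → t ≤ 1 →
      0 ≤ LA γ z R g d + γ * t ^ (2 / 3 : ℝ) * KK d + t / 2 * DD d d := by
    intro t h0 h1
    have hm := hg.1.comb hη h0.le h1
    have h2 := hg.2 _ hm
    have h3 := DD_expand gl dl t
    have h4 : ∑ i, z i * psi (fun x => g x + t * d x) (R i) =
        ∑ i, z i * psi g (R i) + t * ∑ i, z i * psi d (R i) := by
      rw [Finset.mul_sum, ← Finset.sum_add_distrib]
      refine Finset.sum_congr rfl fun i _ => ?_
      rw [psi_comb gl dl]; ring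
    have h5 : KK (fun x => g x + t * d x) ≤ KK g + 5 / 3 * t * T23 g d +
        5 / 3 * KK (fun x => t * d x) := by
      refine (hm.ll.HK' hm.nn).le (((gl.HK' g0).add ((HI.of (int_23 gl g0 dl)).const_mul
        (5 / 3 * t))).add ((dl.const_mul t).HK.const_mul (5 / 3)))
        (Eventually.of_forall fun x => ?_)
      have := (le_abs_self _).trans (taylor53 (g0 x) (hm.nn x))
      rw [add_sub_cancel_left] at this
      simp only [hd]
      linarith
    rw [KK_smul d h0.le] at h5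
    have h6 : t ^ (5 / 3 : ℝ) = t * t ^ (2 / 3 : ℝ) := by
      rw [show (5 / 3 : ℝ) = 1 + 2 / 3 by norm_num, Real.rpow_add h0, Real.rpow_one]
    rw [h6] at h5
    unfold EE at h2
    change _ ≤ 3 / 5 * γ * KK (fun x => g x + t * d x) -
      ∑ i, z i * psi (fun x => g x + t * d x) (R i) +
      1 / 2 * DD (fun x => g x + t * d x) (fun x => g x + t * d x) at h2
    rw [h3, h4] at h2
    have h7 := mul_le_mul_of_nonneg_left h5 (show 0 ≤ 3 / 5 * γ by positivity)
    have h8 : 0 ≤ t * (LA γ z R g d + γ * t ^ (2 / 3 : ℝ) * KK d + t / 2 * DD d d) := by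
      unfold LA
      linarith
    exact nonneg_of_mul_nonneg_right h8 h0 |> fun h => h
  have hc : Continuous (fun t : ℝ => LA γ z R g d + γ * t ^ (2 / 3 : ℝ) * KK d + t / 2 * DD d d) :=
    (continuous_const.add ((continuous_const.mul (continuous_id.rpow_const fun _ =>
      Or.inr (by norm_num))).mul continuous_const)).add
      ((continuous_id.div_const 2).mul continuous_const)
  have hl := (hc.tendsto 0).mono_left (nhdsWithin_le_nhds (s := Ioi 0))
  have := ge_of_tendsto hl (by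
    filter_upwards [Ioc_mem_nhdsGT (zero_lt_one' ℝ)] with t ht
    exact key t ht.1 ht.2)
  rw [Real.zero_rpow (by norm_num)] at this
  linarith

lemma LA_smul (γ : ℝ) (z : Fin k → ℝ) (R : Fin k → E3) {g σ : E3 → ℝ} (hg : LL g)
    (h0 : ∀ x, 0 ≤ g x) (hσ : LL σ) (t : ℝ) :
    LA γ z R g (fun x => t * σ x) = t * LA γ z R g σ :=
  (HLA γ z R hg h0 (hσ.const_mul t)).eq ((HLA γ z R hg h0 hσ).const_mul t)
    (Eventually.of_forall fun x => by ring)

lemma LA_add (γ : ℝ) (z : Fin k → ℝ) (R : Fin k → E3) {g σ τ : E3 → ℝ} (hg : LL g)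
    (h0 : ∀ x, 0 ≤ g x) (hσ : LL σ) (hτ : LL τ) :
    LA γ z R g (fun x => σ x + τ x) = LA γ z R g σ + LA γ z R g τ :=
  (HLA γ z R hg h0 (hσ.add hτ)).eq ((HLA γ z R hg h0 hσ).add (HLA γ z R hg h0 hτ))
    (Eventually.of_forall fun x => by ring)

lemma N1_smul (σ : E3 → ℝ) {t : ℝ} (ht : 0 ≤ t) : N1 (fun x => t * σ x) = t * N1 σ := by
  unfold N1
  rw [← integral_const_mul]
  congr 1; ext x
  rw [abs_mul, abs_of_nonneg ht]

lemma LL_indicator {s : Set E3} (hs : MeasurableSet s) (hb : volume s ≠ ⊤) :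
    LL (indicator s (fun _ => (1 : ℝ))) :=
  ⟨measurable_const.indicator hs, (integrable_indicator_iff hs).2
    (integrableOn_const hb), memLp_indicator_const _ hs 1 (Or.inr hb)⟩

def chi (L : ℝ) : E3 → ℝ := indicator (ball 0 L) (fun _ => (1 : ℝ))

lemma LL_chi (L : ℝ) : LL (chi L) := LL_indicator measurableSet_ball measure_ball_lt_top.ne

lemma chi_nonneg (L : ℝ) (x : E3) : 0 ≤ chi L x := indicator_nonneg (fun _ _ => zero_le_one) _

lemma chi_le (L : ℝ) (x : E3) : chi L x ≤ 1 := indicator_le_self' (fun _ _ => zero_le_one) x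

lemma chi_smul {L : ℝ} (hL : 0 < L) (x : E3) : chi L (L • x) = chi 1 x := by
  unfold chi
  have : L • x ∈ ball (0 : E3) L ↔ x ∈ ball (0 : E3) 1 := by
    rw [mem_ball_zero_iff, mem_ball_zero_iff, norm_smul, Real.norm_of_nonneg hL.le]
    exact mul_lt_iff_lt_one_right hL
  by_cases h : x ∈ ball (0 : E3) 1
  · rw [indicator_of_mem h, indicator_of_mem (this.2 h)]
  · rw [indicator_of_notMem h, indicator_of_notMem (fun h' => h (this.1 h'))]

lemma integral_scale {L : ℝ} (hL : 0 < L) (f : E3 → ℝ) :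
    ∫ x, f x = L ^ 3 * ∫ x, f (L • x) := by
  rw [Measure.integral_comp_smul, finrank_E3, abs_of_pos (by positivity), smul_eq_mul,
    ← mul_assoc, mul_inv_cancel₀ (by positivity), one_mul]

lemma N1_chi {L : ℝ} (hL : 0 < L) : N1 (chi L) = L ^ 3 * N1 (chi 1) := by
  unfold N1
  rw [integral_scale hL]
  simp only [chi_smul hL]

lemma psi_chi {L : ℝ} (hL : 0 < L) (y : E3) :
    psi (chi L) y = L ^ 2 * psi (chi 1) (L⁻¹ • y) := by
  unfold psi
  rw [integral_scale hL]
  have : ∀ x : E3, ‖y - L • x‖⁻¹ * chi L (L • x) = L⁻¹ * (‖L⁻¹ • y - x‖⁻¹ * chi 1 x) := by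
    intro x
    have e : y - L • x = L • (L⁻¹ • y - x) := by
      rw [smul_sub, smul_smul, mul_inv_cancel₀ hL.ne', one_smul]
    rw [chi_smul hL, e, norm_smul, Real.norm_of_nonneg hL.le, mul_inv, mul_assoc]
  simp only [this]
  rw [integral_const_mul, ← mul_assoc]
  congr 1
  field_simp

lemma N1_chi_pos : 0 < N1 (chi 1) := by
  rw [← ((LL_chi 1).HN' (chi_nonneg 1)).2]
  unfold chi
  rw [integral_indicator measurableSet_ball, setIntegral_const, smul_eq_mul, mul_one]
  exact ENNReal.toReal_pos (measure_ball_pos _ _ one_pos).ne' measure_ball_lt_top.ne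

lemma psi_chi_pos : 0 < psi (chi 1) 0 := by
  refine N1_chi_pos.trans_le (((LL_chi 1).HN' (chi_nonneg 1)).le ((LL_chi 1).Hpsi 0) ?_)
  filter_upwards [ae_ne 0] with y hy
  unfold chi
  by_cases h : y ∈ ball (0 : E3) 1
  · rw [indicator_of_mem h, mul_one, zero_sub, norm_neg]
    exact (one_le_inv₀ (norm_pos_iff.2 hy)).2 (mem_ball_zero_iff.1 h).le
  · rw [indicator_of_notMem h, mul_zero]

lemma rpow23_le {a θ : ℝ} (ha : 0 ≤ a) (hθ : 0 < θ) : a ^ (2 / 3 : ℝ) ≤ θ * a + (θ ^ 2)⁻¹ := by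
  set s := a ^ (1 / 3 : ℝ) with hs
  have hs0 : 0 ≤ s := by positivity
  have e1 : a ^ (2 / 3 : ℝ) = s ^ 2 := by
    rw [hs, ← Real.rpow_natCast, ← Real.rpow_mul ha]; norm_num
  have e2 : a = s ^ 3 := by
    rw [hs, ← Real.rpow_natCast, ← Real.rpow_mul ha]; norm_num
  rw [e1, e2]
  rcases le_total 1 (θ * s) with h | h
  · have : 0 ≤ (θ ^ 2)⁻¹ := by positivity
    nlinarith [mul_le_mul_of_nonneg_right h (sq_nonneg s)]
  · have h1 : s ^ 2 ≤ (θ ^ 2)⁻¹ := by
      rw [← one_div, le_div_iff₀ (by positivity)]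
      have : 0 ≤ θ * s := by positivity
      nlinarith
    have : 0 ≤ θ * s ^ 3 := by positivity
    linarith

theorem mass_eq {γ lam : ℝ} (hγ : 0 < γ) {z : Fin k → ℝ} (hZ : lam ≤ ∑ i, z i)
    {R : Fin k → E3} {g : E3 → ℝ} (hg : RMin γ lam z R g) : N1 g = lam := by
  have gl := hg.1.ll
  have g0 := hg.1.nn
  refine le_antisymm hg.1.mass (not_lt.1 fun hlt => ?_)
  have hpos : ∀ L : ℝ, 0 < L → 0 ≤ LA γ z R g (chi L) := by
    intro L hL
    have hN : 0 < N1 (chi L) := by rw [N1_chi hL]; have := N1_chi_pos; positivity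
    set c : ℝ := (lam - N1 g) / N1 (chi L) with hc
    have hc0 : 0 < c := div_pos (by linarith) hN
    have cl := (LL_chi L).const_mul c
    have cn : ∀ x, 0 ≤ c * chi L x := fun x => mul_nonneg hc0.le (chi_nonneg L x)
    have hη : Good lam (fun x => g x + c * chi L x) := by
      refine ⟨gl.add cl, fun x => add_nonneg (g0 x) (cn x), ?_⟩
      rw [((gl.add cl).HN' fun x => add_nonneg (g0 x) (cn x)).unique
        ((gl.HN' g0).add (cl.HN' cn)), N1_smul _ hc0.le, hc, div_mul_cancel₀ _ hN.ne']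
      linarith
    have := var_ineq hγ hg hη
    rw [LA_add γ z R gl g0 gl cl, LA_smul γ z R gl g0 (LL_chi L)] at this
    exact nonneg_of_mul_nonneg_right (a := c) (by linarith) hc0 |> fun h => h
  set u := psi (chi 1) with hu
  have huc : Continuous u := (LL_chi 1).continuous_psi
  obtain ⟨B, hB⟩ := (LL_chi 1).psi_bdd
  have huB : ∀ x, |u x| ≤ B := fun x => (abs_psi_le_psi_abs _ x).trans (hB x)
  have hineq : ∀ L : ℝ, 0 < L → ∑ i, z i * u (L⁻¹ • R i) ≤
      γ * (N1 g + N1 (chi 1)) * L⁻¹ + ∫ y, g y * u (L⁻¹ • y) := by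
    intro L hL
    have h1 := hpos L hL
    unfold LA at h1
    have h2 : T23 g (chi L) ≤ L * N1 g + (L ^ 2)⁻¹ * N1 (chi L) := by
      refine (HI.of (int_23 gl g0 (LL_chi L))).le (((gl.HN' g0).const_mul L).add
        (((LL_chi L).HN' (chi_nonneg L)).const_mul _)) (Eventually.of_forall fun x => ?_)
      have a1 := rpow23_le (g0 x) hL
      have a2 := chi_nonneg L x
      have a3 := chi_le L x
      have a4 : 0 ≤ L * g x := mul_nonneg hL.le (g0 x)
      nlinarith [mul_le_mul_of_nonneg_right a1 a2]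
    have h3 : DD (chi L) g = L ^ 2 * ∫ y, g y * u (L⁻¹ • y) := by
      rw [DD_symm (LL_chi L) gl]
      unfold DD
      rw [← integral_const_mul]
      congr 1; ext y
      rw [psi_chi hL]; ring
    have h4 : ∑ i, z i * psi (chi L) (R i) = L ^ 2 * ∑ i, z i * u (L⁻¹ • R i) := by
      rw [Finset.mul_sum]
      refine Finset.sum_congr rfl fun i _ => ?_
      rw [psi_chi hL]; ring
    rw [N1_chi hL] at h2
    rw [h3, h4] at h1
    have h5 : L * N1 g + (L ^ 2)⁻¹ * (L ^ 3 * N1 (chi 1)) =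
        L ^ 2 * ((N1 g + N1 (chi 1)) * L⁻¹) := by field_simp
    rw [h5] at h2
    have h6 := mul_le_mul_of_nonneg_left h2 hγ.le
    have h7 : L ^ 2 * ∑ i, z i * u (L⁻¹ • R i) ≤
        L ^ 2 * (γ * (N1 g + N1 (chi 1)) * L⁻¹ + ∫ y, g y * u (L⁻¹ • y)) := by linarith
    exact le_of_mul_le_mul_left h7 (by positivity)
  have hs : ∀ y : E3, Tendsto (fun L : ℝ => u (L⁻¹ • y)) atTop (𝓝 (u 0)) := fun y => by
    have := (tendsto_inv_atTop_zero (𝕜 := ℝ)).smul_const y
    rw [zero_smul] at this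
    exact (huc.tendsto 0).comp this
  have t1 : Tendsto (fun L : ℝ => ∑ i, z i * u (L⁻¹ • R i)) atTop (𝓝 (∑ i, z i * u 0)) :=
    tendsto_finsetSum _ fun i _ => (hs (R i)).const_mul _
  have t2 : Tendsto (fun L : ℝ => ∫ y, g y * u (L⁻¹ • y)) atTop (𝓝 (∫ y, g y * u 0)) := by
    refine tendsto_integral_filter_of_dominated_convergence (fun y => B * |g y|) ?_ ?_
      (gl.int.abs.const_mul B) ?_
    · exact Eventually.of_forall fun L => gl.meas.aestronglyMeasurable.mul
        (huc.comp (continuous_const_smul _)).aestronglyMeasurable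
    · refine Eventually.of_forall fun L => Eventually.of_forall fun y => ?_
      rw [norm_mul, Real.norm_eq_abs, Real.norm_eq_abs, mul_comm]
      exact mul_le_mul_of_nonneg_right (huB _) (abs_nonneg _)
    · exact Eventually.of_forall fun y => (hs y).const_mul _
  have t3 : Tendsto (fun L : ℝ => γ * (N1 g + N1 (chi 1)) * L⁻¹) atTop
      (𝓝 (γ * (N1 g + N1 (chi 1)) * 0)) := tendsto_inv_atTop_zero.const_mul _
  have := le_of_tendsto_of_tendsto t1 (t3.add t2) (by
    filter_upwards [eventually_gt_atTop 0] with L hL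
    exact hineq L hL)
  rw [integral_mul_const, (gl.HN' g0).2, ← Finset.sum_mul] at this
  have hp : 0 < u 0 := psi_chi_pos
  nlinarith

/-- The chemical potential. -/
def mu (γ lam : ℝ) (z : Fin k → ℝ) (R : Fin k → E3) (g : E3 → ℝ) : ℝ :=
  -(γ * KK g - ∑ i, z i * psi g (R i) + DD g g) / lam

lemma LA_self (γ : ℝ) {lam : ℝ} (hl : 0 < lam) (z : Fin k → ℝ) (R : Fin k → E3) {g : E3 → ℝ}
    (h0 : ∀ x, 0 ≤ g x) : LA γ z R g g = -(mu γ lam z R g * lam) := by
  have : T23 g g = KK g := by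
    unfold T23 KK
    congr 1; ext x
    rw [abs_of_nonneg (h0 x), show (5 / 3 : ℝ) = 2 / 3 + 1 by norm_num,
      Real.rpow_add' (h0 x) (by norm_num), Real.rpow_one]
  unfold LA mu
  rw [this, div_mul_cancel₀ _ hl.ne', neg_neg]

lemma mu_nonneg {γ lam : ℝ} (hγ : 0 < γ) (hl : 0 < lam) {z : Fin k → ℝ}
    {R : Fin k → E3} {g : E3 → ℝ} (hg : RMin γ lam z R g) : 0 ≤ mu γ lam z R g := by
  have h := var_ineq hγ hg (Good.zero hl.le)
  rw [LA_self γ hl z R hg.1.nn] at h
  have : LA γ z R g (fun _ => 0) = 0 := by simp [LA, T23, psi, DD]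
  rw [this] at h
  exact nonneg_of_mul_nonneg_left (by linarith) hl |> fun h => h

theorem TF_eq {γ lam : ℝ} (hγ : 0 < γ) (hl : 0 < lam) {z : Fin k → ℝ} (hZ : lam ≤ ∑ i, z i)
    {R : Fin k → E3} {g : E3 → ℝ} (hg : RMin γ lam z R g) :
    ∀ᵐ x, γ * g x ^ (2 / 3 : ℝ) = max (Vnuc z R x - (psi g x + mu γ lam z R g)) 0 := by
  have gl := hg.1.ll
  have g0 := hg.1.nn
  set m := mu γ lam z R g with hm
  have hAm : Measurable (AA γ z R g) :=
    (((gl.meas.pow_const _).const_mul γ).sub (measurable_Vnuc z R)).add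
      gl.continuous_psi.measurable
  have H : ∀ η, LL η → (∀ x, 0 ≤ η x) → HI (fun x => (AA γ z R g x + m) * η x)
      (LA γ z R g η + m * N1 η) := fun η h1 h2 =>
    ((HLA γ z R gl g0 h1).add ((h1.HN' h2).const_mul m)).congr
      (Eventually.of_forall fun x => by ring)
  have key : ∀ η, LL η → (∀ x, 0 ≤ η x) → 0 < N1 η → 0 ≤ LA γ z R g η + m * N1 η := by
    intro η h1 h2 h3
    have hc : 0 < lam / N1 η := div_pos hl h3
    have hη : Good lam (fun x => lam / N1 η * η x) :=
      ⟨h1.const_mul _, fun x => mul_nonneg hc.le (h2 x), by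
        rw [N1_smul _ hc.le, div_mul_cancel₀ _ h3.ne']⟩
    have h := var_ineq hγ hg hη
    rw [LA_self γ hl z R g0, LA_smul γ z R gl g0 h1, ← hm] at h
    have e : lam / N1 η * (LA γ z R g η + m * N1 η) = lam / N1 η * LA γ z R g η + m * lam := by
      field_simp
    exact nonneg_of_mul_nonneg_right (a := lam / N1 η) (by linarith) hc |> fun h => h
  have hA : ∀ᵐ x, 0 ≤ AA γ z R g x + m := by
    have hn : ∀ n : ℕ, ∀ᵐ x, x ∈ ball (0 : E3) n → 0 ≤ AA γ z R g x + m := by
      intro n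
      set s : Set E3 := ball (0 : E3) n ∩ {x | AA γ z R g x + m < 0} with hs
      have hsm : MeasurableSet s := measurableSet_ball.inter
        (measurableSet_lt (hAm.add_const m) measurable_const)
      have hsv : volume s ≠ ⊤ := ((measure_mono inter_subset_left).trans_lt measure_ball_lt_top).ne
      have l1 := LL_indicator hsm hsv
      have l2 : ∀ x, 0 ≤ indicator s (fun _ => (1 : ℝ)) x :=
        fun x => indicator_nonneg (fun _ _ => zero_le_one) _
      have hz : ∀ᵐ x, indicator s (fun _ => (1 : ℝ)) x = 0 := by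
        rcases (N1_nonneg (indicator s (fun _ => (1 : ℝ)))).eq_or_lt with h | h
        · have j := l1.HN' l2
          exact (integral_eq_zero_iff_of_nonneg l2 j.1).1 (j.2.trans h.symm)
        · have j := (H _ l1 l2).const_mul (-1)
          have k1 := key _ l1 l2 h
          have k2 : ∀ x, 0 ≤ -1 * ((AA γ z R g x + m) * indicator s (fun _ => (1 : ℝ)) x) := by
            intro x
            by_cases hx : x ∈ s
            · rw [indicator_of_mem hx]
              have : AA γ z R g x + m < 0 := hx.2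
              linarith
            · rw [indicator_of_notMem hx]; simp
          have k3 := HI.zero.le j (Eventually.of_forall k2)
          have k4 := (integral_eq_zero_iff_of_nonneg k2 j.1).1 (by
            have := j.2; linarith)
          filter_upwards [k4] with x hx
          by_contra hne
          have hx' : x ∈ s := by
            by_contra h'; exact hne (indicator_of_notMem h' _)
          rw [indicator_of_mem hx'] at hx
          have : AA γ z R g x + m < 0 := hx'.2
          simp only [Pi.zero_apply] at hx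
          linarith
      filter_upwards [hz] with x hx hxb
      by_contra hneg
      have hx' : x ∈ s := ⟨hxb, not_le.1 hneg⟩
      rw [indicator_of_mem hx'] at hx
      exact one_ne_zero hx
    filter_upwards [ae_all_iff.2 hn] with x hx
    obtain ⟨n, hn⟩ := exists_nat_gt ‖x‖
    exact hx n (mem_ball_zero_iff.2 hn)
  have hB : ∀ᵐ x, (AA γ z R g x + m) * g x = 0 := by
    have j := H g gl g0
    rw [LA_self γ hl z R g0, mass_eq hγ hZ hg, ← hm, neg_add_cancel] at j
    exact (integral_eq_zero_iff_of_nonneg_ae (hA.mono fun x hx => mul_nonneg hx (g0 x)) j.1).1 j.2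
  filter_upwards [hA, hB] with x h1 h2
  unfold AA at h1 h2
  have h3 : 0 ≤ γ * g x ^ (2 / 3 : ℝ) := mul_nonneg hγ.le (Real.rpow_nonneg (g0 x) _)
  rcases mul_eq_zero.1 h2 with h | h
  · rw [max_eq_left (by linarith)]; linarith
  · rw [h, Real.zero_rpow (by norm_num), mul_zero] at h1 ⊢
    rw [max_eq_right (by linarith)]

end

end Pool.Agent.Lib.MP_689e73_mp
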